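import Pool.Agent.Helper37.CiBasic

/-!
# Forms over an algebraically closed field
-/

namespace Pool.Agent.Helper37.Ci

open MvPolynomial

universe u

variable {K : Type u} [Field K]

/-- Setting the first `k` variables to zero. -/
noncomputable def killVars (K : Type u) [Field K] (n k : ℕ) :
    MvPolynomial (Fin n) K →ₐ[K] MvPolynomial (Fin n) K :=
  aeval (fun j : Fin n => if j.val < k then 0 else X j)

theorem killVars_X {n k : ℕ} (j : Fin n) :
    killVars K n k (X j) = if j.val < k then 0 else X j := by
  simp [killVars]

theorem killVars_comp {n k : ℕ} (p : MvPolynomial (Fin n) K) :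
    killVars K n (k + 1) (killVars K n k p) = killVars K n (k + 1) p := by
  have : (killVars K n (k + 1)).comp (killVars K n k) = killVars K n (k + 1) := by
    apply algHom_ext
    intro j
    simp only [AlgHom.comp_apply, killVars_X]
    by_cases h1 : j.val < k
    · rw [if_pos h1, if_pos (by omega), map_zero]
    · rw [if_neg h1, killVars_X]
  exact congrArg (fun φ => φ p) this

theorem natCast_le_height_ker {n k : ℕ} (hk : k ≤ n) :
    (k : ℕ∞) ≤ (RingHom.ker (killVars K n k)).height := by
  induction k with
  | zero => simp
  | succ k ih =>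
    have h1 := ih (by omega)
    have p1 : (RingHom.ker (killVars K n k)).IsPrime := RingHom.ker_isPrime _
    have p2 : (RingHom.ker (killVars K n (k + 1))).IsPrime := RingHom.ker_isPrime _
    have hlt : RingHom.ker (killVars K n k) < RingHom.ker (killVars K n (k + 1)) := by
      refine lt_of_le_of_ne ?_ ?_
      · intro p hp
        rw [RingHom.mem_ker] at hp ⊢
        have := killVars_comp (K := K) (n := n) (k := k) p
        rw [← this]
        change killVars K n k p = 0 at hp
        rw [hp, map_zero]
      · intro heq
        have hX : (X ⟨k, by omega⟩ : MvPolynomial (Fin n) K) ∈ RingHom.ker (killVars K n (k + 1)) := by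
          rw [RingHom.mem_ker, killVars_X, if_pos (by simp)]
        rw [← heq, RingHom.mem_ker] at hX
        change killVars K n k _ = 0 at hX
        rw [killVars_X, if_neg (by simp)] at hX
        exact X_ne_zero _ hX
    have h2 := Ideal.height_add_one_le_of_lt_of_isPrime hlt
    push_cast
    exact (add_le_add_left h1 1).trans h2

theorem killVars_all {n : ℕ} (p : MvPolynomial (Fin n) K) :
    killVars K n n p = C (eval 0 p) := by
  have : killVars K n n = (Algebra.ofId K (MvPolynomial (Fin n) K)).comp (aeval (0 : Fin n → K)) := by
    apply algHom_ext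
    intro j
    rw [killVars_X, if_pos j.isLt]
    simp
  rw [this]
  simp [Algebra.ofId_apply]

theorem constCoeff_eq_zero {n d : ℕ} {f : MvPolynomial (Fin n) K} (hf : f.IsHomogeneous d)
    (hd : 0 < d) : constantCoeff f = 0 := by
  rw [constantCoeff_eq]
  apply hf.coeff_eq_zero
  simp
  omega

/-- Over an algebraically closed field, `r` forms of positive degree with only the trivial common
zero have at most `r` variables. -/
theorem le_of_isAlgClosed [IsAlgClosed K] {r n : ℕ} {d : Fin r → ℕ} (hd : ∀ j, 0 < d j)
    (f : Fin r → MvPolynomial (Fin n) K) (hf : ∀ j, (f j).IsHomogeneous (d j))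
    (hf0 : ∀ x : Fin n → K, (∀ j, eval x (f j) = 0) → x = 0) : n ≤ r := by
  classical
  set I : Ideal (MvPolynomial (Fin n) K) := Ideal.span (Set.range f) with hI
  set m : Ideal (MvPolynomial (Fin n) K) := RingHom.ker (killVars K n n) with hm
  have pm : m.IsPrime := RingHom.ker_isPrime _
  have hzero : zeroLocus K I = {0} := by
    rw [hI, zeroLocus_span]
    ext x
    simp only [Set.mem_range, forall_exists_index, forall_apply_eq_imp_iff, Set.mem_ofPred_eq,
      Set.mem_singleton_iff]
    constructor
    · intro h; exact hf0 x h
    · rintro rfl j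
      change aeval (0 : Fin n → K) (f j) = 0
      rw [aeval_zero, constCoeff_eq_zero (hf j) (hd j)]
      simp
  have hrad : I.radical = m := by
    rw [← vanishingIdeal_zeroLocus_eq_radical (K := K) I, hzero]
    ext p
    rw [mem_vanishingIdeal_singleton_iff, hm, RingHom.mem_ker]
    rw [killVars_all, C_eq_zero]
    exact Iff.rfl
  have hmin : m ∈ I.minimalPrimes := by
    rw [← Ideal.radical_minimalPrimes, hrad, Ideal.minimalPrimes_eq_subsingleton_self]
    rfl
  have h1 : m.height ≤ (Set.range f).ncard :=
    Ideal.height_le_card_of_mem_minimalPrimes_span (Set.finite_range f) hmin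
  have h2 : (n : ℕ∞) ≤ m.height := natCast_le_height_ker le_rfl
  have h3 : (Set.range f).ncard ≤ r := by
    have := Set.ncard_image_le (f := f) (Set.finite_univ)
    rw [Set.image_univ, Set.ncard_univ, Nat.card_eq_fintype_card, Fintype.card_fin] at this
    exact this
  have h4 : (n : ℕ∞) ≤ (r : ℕ∞) := h2.trans (h1.trans (by exact_mod_cast h3))
  exact_mod_cast h4

end Pool.Agent.Helper37.Ci
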