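import Mathlib

/-!
# Anisotropic systems of forms: composition, products, mixing

`SysT K σ ι d`: there is a family, indexed by `ι`, of forms of degree `d` in variables indexed by
`σ` over the field `K` whose only common zero is the origin.
-/

namespace Pool.Agent.Helper37.Ci

open MvPolynomial

universe u

variable {K : Type u} [Field K]

/-- There is a family (indexed by `ι`) of forms of degree `d` in the variables `σ` over `K` with
only the trivial common zero. -/
def SysT (K : Type u) [Field K] (σ ι : Type) (d : ℕ) : Prop :=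
  ∃ f : ι → MvPolynomial σ K, (∀ j, (f j).IsHomogeneous d) ∧
    ∀ x : σ → K, (∀ j, eval x (f j) = 0) → x = 0

/-- There are `N` forms of degree `d` in `b` variables over `K` with only the trivial common
zero. -/
def Sys (K : Type u) [Field K] (b N d : ℕ) : Prop := SysT K (Fin b) (Fin N) d

theorem eval_aeval_poly {σ τ : Type} (g : σ → MvPolynomial τ K) (p : MvPolynomial σ K)
    (x : τ → K) : eval x (aeval g p) = eval (fun i => eval x (g i)) p := by
  rw [← MvPolynomial.coe_aeval_eq_eval, ← MvPolynomial.coe_aeval_eq_eval]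
  change (aeval x) ((aeval g) p) = _
  rw [MvPolynomial.comp_aeval_apply]
  rfl

/-- Composition. -/
theorem SysT.comp {σ ι τ : Type} {a b : ℕ} (h1 : SysT K σ ι a) (h2 : SysT K ι τ b) :
    SysT K σ τ (a * b) := by
  obtain ⟨f, hf, hf0⟩ := h1
  obtain ⟨g, hg, hg0⟩ := h2
  refine ⟨fun j => aeval f (g j), fun j => (hg j).aeval f hf, fun x hx => ?_⟩
  apply hf0
  intro j
  have := hg0 (fun i => eval x (f i)) (fun j => by rw [← eval_aeval_poly]; exact hx j)
  exact congrFun this j

/-- Linear inclusion of coordinates. -/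
theorem SysT.lin {σ' σ : Type} (e : σ' ↪ σ) : SysT K σ' σ 1 := by
  classical
  refine ⟨fun s => if h : ∃ s', e s' = s then X h.choose else 0, fun s => ?_, fun x hx => ?_⟩
  · by_cases h : ∃ s', e s' = s
    · simp only [h, dif_pos]
      exact isHomogeneous_X _ _
    · simp only [h, dif_neg, not_false_eq_true]
      exact isHomogeneous_zero _ _ _
  · funext s'
    have h : ∃ s'', e s'' = e s' := ⟨s', rfl⟩
    have h2 := hx (e s')
    simp only [dif_pos h, eval_X] at h2
    have h3 : h.choose = s' := e.injective h.choose_spec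
    rw [h3] at h2
    simpa using h2

/-- Fewer variables. -/
theorem SysT.restrict {σ' σ ι : Type} {d : ℕ} (e : σ' ↪ σ) (h : SysT K σ ι d) :
    SysT K σ' ι d := by
  simpa using (SysT.lin (K := K) e).comp h

/-- More forms. -/
theorem SysT.pad {σ ι ι' : Type} {d : ℕ} (e : ι ↪ ι') (h : SysT K σ ι d) :
    SysT K σ ι' d := by
  simpa using h.comp (SysT.lin (K := K) e)

theorem SysT.congr {σ σ' ι ι' : Type} {d : ℕ} (e : σ ≃ σ') (e' : ι ≃ ι') (h : SysT K σ ι d) :
    SysT K σ' ι' d :=
  (h.restrict e.symm.toEmbedding).pad e'.toEmbedding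

/-- Direct sum of copies. -/
theorem SysT.copies {σ ι : Type} {d : ℕ} (κ : Type) (h : SysT K σ ι d) :
    SysT K (κ × σ) (κ × ι) d := by
  obtain ⟨f, hf, hf0⟩ := h
  refine ⟨fun p => rename (fun s => (p.1, s)) (f p.2), fun p => ?_, fun x hx => ?_⟩
  · exact (hf p.2).rename_isHomogeneous
  · funext ⟨k, s⟩
    have := hf0 (fun s => x (k, s)) (fun j => by
      have := hx (k, j)
      rw [eval_rename] at this
      exact this)
    exact congrFun this s

/-- The power map. -/
theorem SysT.pow (d : ℕ) (hd : 0 < d) : SysT K Unit Unit d := by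
  refine ⟨fun _ => X () ^ d, fun _ => isHomogeneous_X_pow _ _, fun x hx => ?_⟩
  have := hx ()
  rw [map_pow, eval_X] at this
  funext s
  exact pow_eq_zero_iff (by omega) |>.mp this

/-- Products of single forms. -/
theorem SysT.mul {σ : Type} {a b : ℕ} (h1 : SysT K σ Unit a) (h2 : SysT K σ Unit b) :
    SysT K σ Unit (a + b) := by
  obtain ⟨f, hf, hf0⟩ := h1
  obtain ⟨g, hg, hg0⟩ := h2
  refine ⟨fun _ => f () * g (), fun _ => (hf ()).mul (hg ()), fun x hx => ?_⟩
  have := hx ()
  rw [map_mul, mul_eq_zero] at this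
  rcases this with h | h
  · exact hf0 x (fun _ => h)
  · exact hg0 x (fun _ => h)

/-- Mixing: a system of forms `f j` of degrees `d j` in the variables `σ` with only the trivial
common zero, and for each `j` a family of `N j` forms of degree `m j` in `κ` variables with only
the trivial common zero, with all `d j * m j` equal to `m`, give a family of forms of degree `m` in
`κ × σ` variables with only the trivial common zero. -/
theorem SysT.mix {σ κ ρ : Type} {ι : ρ → Type} {d m' : ρ → ℕ} {m : ℕ}
    (f : ρ → MvPolynomial σ K) (hf : ∀ j, (f j).IsHomogeneous (d j))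
    (hf0 : ∀ x : σ → K, (∀ j, eval x (f j) = 0) → x = 0)
    (hG : ∀ j, SysT K κ (ι j) (m' j)) (hm : ∀ j, d j * m' j = m) :
    SysT K (κ × σ) (Σ j, ι j) m := by
  choose G hGh hG0 using hG
  refine ⟨fun p => aeval (fun k => rename (fun s => (k, s)) (f p.1)) (G p.1 p.2),
    fun p => ?_, fun x hx => ?_⟩
  · have := (hGh p.1 p.2).aeval (fun k => rename (fun s => (k, s)) (f p.1))
      (fun k => (hf p.1).rename_isHomogeneous)
    rwa [hm] at this
  · funext ⟨k, s⟩
    have key : ∀ j, eval (fun s => x (k, s)) (f j) = 0 := by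
      intro j
      have h1 := hG0 j (fun k => eval (fun s => x (k, s)) (f j)) (fun t => by
        have h2 := hx ⟨j, t⟩
        rw [eval_aeval_poly] at h2
        simp only [eval_rename] at h2
        exact h2)
      exact congrFun h1 k
    exact congrFun (hf0 _ key) s

/-! ### Numerical versions -/

theorem Sys.comp {x y z a b : ℕ} (h1 : Sys K x y a) (h2 : Sys K y z b) : Sys K x z (a * b) :=
  SysT.comp h1 h2

theorem Sys.restrict {b b' N d : ℕ} (hb : b' ≤ b) (h : Sys K b N d) : Sys K b' N d :=
  SysT.restrict (Fin.castLEEmb hb) h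

theorem Sys.pad {b N N' d : ℕ} (hN : N ≤ N') (h : Sys K b N d) : Sys K b N' d :=
  SysT.pad (Fin.castLEEmb hN) h

theorem Sys.copies {b N d : ℕ} (k : ℕ) (h : Sys K b N d) : Sys K (k * b) (k * N) d :=
  (SysT.copies (Fin k) h).congr finProdFinEquiv finProdFinEquiv

theorem Sys.pow (d : ℕ) (hd : 0 < d) : Sys K 1 1 d :=
  (SysT.pow (K := K) d hd).congr finOneEquiv.symm finOneEquiv.symm

theorem Sys.mul {b c d : ℕ} (h1 : Sys K b 1 c) (h2 : Sys K b 1 d) : Sys K b 1 (c + d) :=
  ((h1.congr (Equiv.refl _) finOneEquiv).mul (h2.congr (Equiv.refl _) finOneEquiv)).congr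
    (Equiv.refl _) finOneEquiv.symm

/-- Composition with multiplicities. -/
theorem Sys.comp' {b N b' N' a a' : ℕ} (h1 : Sys K b N a) (h2 : Sys K b' N' a') :
    Sys K (b' * b) (N * N') (a * a') := by
  have h3 : Sys K (b' * b) (b' * N) a := h1.copies b'
  have h4 : Sys K (N * b') (N * N') a' := h2.copies N
  rw [mul_comm N b'] at h4
  exact h3.comp h4

theorem Sys.mix {r n b : ℕ} {d m' N : Fin r → ℕ} {m : ℕ}
    (f : Fin r → MvPolynomial (Fin n) K) (hf : ∀ j, (f j).IsHomogeneous (d j))
    (hf0 : ∀ x : Fin n → K, (∀ j, eval x (f j) = 0) → x = 0)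
    (hG : ∀ j, Sys K b (N j) (m' j)) (hm : ∀ j, d j * m' j = m) :
    Sys K (b * n) (∑ j, N j) m :=
  (SysT.mix f hf hf0 hG hm).congr finProdFinEquiv finSigmaFinEquiv

end Pool.Agent.Helper37.Ci
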