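import Pool.Agent.Helper37.CiBasic

/-!
# The cost of a degree

Over a field `K` which has a form of degree `e` in `e ^ i` variables with only the trivial zero we
attach to every degree `m` the number `cost K i e m`, the infimum of `e ^ (i * t) / B` over all
forms of degree `e ^ t * m` in `B` variables with only the trivial zero.
-/

namespace Pool.Agent.Helper37.Ci

open MvPolynomial

universe u

variable {K : Type u} [Field K]

/-- Lang's property `C_i` for single forms, in terms of `Sys`. -/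
def CiS (K : Type u) [Field K] (i : ℕ) : Prop := ∀ b d : ℕ, 0 < d → Sys K b 1 d → b ≤ d ^ i

theorem Sys.zero_forms {b d : ℕ} (h : Sys K b 0 d) : b = 0 := by
  obtain ⟨f, _, hf0⟩ := h
  by_contra hb
  have h1 := hf0 (fun _ => 1) (fun j => j.elim0)
  have h2 := congrFun h1 ⟨0, Nat.pos_of_ne_zero hb⟩
  simp at h2

theorem Sys.one_le_forms {b N d : ℕ} (h : Sys K b N d) (hb : 1 ≤ b) : 1 ≤ N := by
  rcases Nat.eq_zero_or_pos N with hN | hN
  · subst hN
    have := h.zero_forms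
    omega
  · exact hN

theorem Sys.iter {i e : ℕ} (h : Sys K (e ^ i) 1 e) (k : ℕ) : Sys K ((e ^ k) ^ i) 1 (e ^ k) := by
  induction k with
  | zero => simpa using Sys.pow (K := K) 1 one_pos
  | succ k ih =>
    have h1 := Sys.comp' ih h
    rw [← mul_pow, mul_comm e (e ^ k), ← pow_succ] at h1
    simpa using h1

/-- The set of costs. -/
def costSet (K : Type u) [Field K] (i e m : ℕ) : Set ℝ :=
  {c | ∃ t B : ℕ, 1 ≤ B ∧ Sys K B 1 (e ^ t * m) ∧ c = (e : ℝ) ^ (i * t) / B}

/-- The cost of the degree `m`. -/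
noncomputable def cost (K : Type u) [Field K] (i e m : ℕ) : ℝ := sInf (costSet K i e m)

theorem costSet_bdd (i e m : ℕ) : BddBelow (costSet K i e m) := by
  refine ⟨0, ?_⟩
  rintro c ⟨t, B, _, _, rfl⟩
  positivity

theorem cost_nonneg (i e m : ℕ) : 0 ≤ cost K i e m := by
  apply Real.sInf_nonneg
  rintro c ⟨t, B, _, _, rfl⟩
  positivity

theorem cost_le {i e m t B : ℕ} (hB : 1 ≤ B) (h : Sys K B 1 (e ^ t * m)) :
    cost K i e m ≤ (e : ℝ) ^ (i * t) / B :=
  csInf_le (costSet_bdd i e m) ⟨t, B, hB, h, rfl⟩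

theorem costSet_one_mem {i e m : ℕ} (hm : 1 ≤ m) : (1 : ℝ) ∈ costSet K i e m :=
  ⟨0, 1, le_rfl, by simpa using Sys.pow (K := K) m hm, by simp⟩

theorem cost_le_one {i e m : ℕ} (hm : 1 ≤ m) : cost K i e m ≤ 1 :=
  csInf_le (costSet_bdd i e m) (costSet_one_mem hm)

/-- Scaling up a representative. -/
theorem exists_of_cost_lt {i e m : ℕ} (he : 2 ≤ e) (hn : Sys K (e ^ i) 1 e) (hm : 1 ≤ m) {c : ℝ}
    (hc : cost K i e m < c) :
    ∃ T, ∀ t, T ≤ t → ∃ B : ℕ, 1 ≤ B ∧ Sys K B 1 (e ^ t * m) ∧ (e : ℝ) ^ (i * t) < c * B := by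
  obtain ⟨c', ⟨t0, B0, hB0, h0, rfl⟩, hlt⟩ :=
    exists_lt_of_csInf_lt ⟨1, costSet_one_mem hm⟩ hc
  refine ⟨t0, fun t ht => ?_⟩
  obtain ⟨s, rfl⟩ := Nat.exists_eq_add_of_le ht
  have h1 := Sys.comp' h0 (hn.iter s)
  refine ⟨(e ^ s) ^ i * B0, ?_, ?_, ?_⟩
  · exact Nat.mul_pos (by positivity) hB0
  · have h2 : e ^ t0 * m * e ^ s = e ^ (t0 + s) * m := by ring
    rw [h2] at h1
    simpa using h1
  · have hB0' : (0 : ℝ) < B0 := by exact_mod_cast hB0
    rw [div_lt_iff₀ hB0'] at hlt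
    have he0 : (0 : ℝ) < (e : ℝ) ^ (i * s) := by positivity
    calc (e : ℝ) ^ (i * (t0 + s)) = (e : ℝ) ^ (i * t0) * (e : ℝ) ^ (i * s) := by ring
      _ < c * B0 * (e : ℝ) ^ (i * s) := by nlinarith
      _ = c * (((e ^ s) ^ i * B0 : ℕ) : ℝ) := by push_cast; ring

/-- The lower bound for the cost in a `C_i` field. -/
theorem one_le_cost_mul {i e m : ℕ} (he : 2 ≤ e) (hK : CiS K i) (hm : 1 ≤ m) :
    1 ≤ cost K i e m * (m : ℝ) ^ i := by
  have hm' : (0 : ℝ) < (m : ℝ) ^ i := by positivity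
  have : 1 / (m : ℝ) ^ i ≤ cost K i e m := by
    apply le_csInf ⟨1, costSet_one_mem hm⟩
    rintro c ⟨t, B, hB, h, rfl⟩
    have h1 := hK B _ (by positivity) h
    have hB' : (0 : ℝ) < B := by exact_mod_cast hB
    have h1' : (B : ℝ) ≤ ((e : ℝ) ^ t * m) ^ i := by exact_mod_cast h1
    rw [div_le_div_iff₀ hm' hB', one_mul]
    calc (B : ℝ) ≤ ((e : ℝ) ^ t * m) ^ i := h1'
      _ = (e : ℝ) ^ (i * t) * (m : ℝ) ^ i := by ring
  rw [div_le_iff₀ hm'] at this
  exact this

theorem cost_pos {i e m : ℕ} (he : 2 ≤ e) (hK : CiS K i) (hm : 1 ≤ m) :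
    0 < cost K i e m := by
  have h := one_le_cost_mul he hK hm
  have hm' : (0 : ℝ) < (m : ℝ) ^ i := by positivity
  by_contra hcon
  have : cost K i e m * (m : ℝ) ^ i ≤ 0 := mul_nonpos_of_nonpos_of_nonneg (not_lt.mp hcon) hm'.le
  linarith

/-- A system of `N` forms of degree `e ^ A * m` in `b` variables bounds the cost of `m`. -/
theorem cost_mul_le_of_sys {i e m A b N : ℕ} (hi : 1 ≤ i) (he : 2 ≤ e) (hn : Sys K (e ^ i) 1 e)
    (hm : 1 ≤ m) (hb : 1 ≤ b) (h : Sys K b N (e ^ A * m)) :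
    cost K i e m * b ≤ N * (e : ℝ) ^ (i * A) := by
  have hN := h.one_le_forms hb
  have hc0 := cost_nonneg (K := K) i e m
  -- the basic inequality at level `s`
  have key : ∀ s : ℕ, (cost K i e m * b - N * (e : ℝ) ^ (i * A)) * (e : ℝ) ^ (i * s)
      ≤ cost K i e m * b * N := by
    intro s
    set k := e ^ (i * s) / N with hk
    have hkN : k * N ≤ e ^ (i * s) := Nat.div_mul_le_self _ _
    have hkN' : e ^ (i * s) < (k + 1) * N := by
      rw [hk, mul_comm _ N]; exact Nat.lt_mul_div_succ _ hN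
    have hkNR : (k : ℝ) * N ≤ (e : ℝ) ^ (i * s) := by exact_mod_cast hkN
    have hkNR' : (e : ℝ) ^ (i * s) < ((k : ℝ) + 1) * N := by exact_mod_cast hkN'
    have hstep : cost K i e m * (k * b) ≤ (e : ℝ) ^ (i * A) * (e : ℝ) ^ (i * s) := by
      rcases Nat.eq_zero_or_pos k with hk0 | hk0
      · rw [hk0]; simp; positivity
      · have h1 : Sys K (k * b) (k * N) (e ^ A * m) := h.copies k
        have h2 : Sys K (k * N) 1 (e ^ s) := by
          refine (hn.iter s).restrict ?_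
          calc k * N ≤ e ^ (i * s) := hkN
            _ = (e ^ s) ^ i := by ring
        have h3 := h1.comp h2
        have h4 : e ^ A * m * e ^ s = e ^ (A + s) * m := by ring
        rw [h4] at h3
        have h5 := cost_le (i := i) (Nat.mul_pos hk0 hb) h3
        have hkb : (0 : ℝ) < ((k * b : ℕ) : ℝ) := by exact_mod_cast Nat.mul_pos hk0 hb
        rw [le_div_iff₀ hkb] at h5
        push_cast at h5
        calc cost K i e m * (k * b) ≤ (e : ℝ) ^ (i * (A + s)) := h5
          _ = _ := by ring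
    have hNR : (0 : ℝ) < N := by exact_mod_cast hN
    have hbR : (0 : ℝ) < b := by exact_mod_cast hb
    have hE : (0 : ℝ) < (e : ℝ) ^ (i * s) := by positivity
    have h6 : cost K i e m * b * ((e : ℝ) ^ (i * s) - N) ≤ cost K i e m * b * (k * N) := by
      apply mul_le_mul_of_nonneg_left _ (by positivity)
      nlinarith
    have h7 : cost K i e m * b * (k * N) ≤ (e : ℝ) ^ (i * A) * (e : ℝ) ^ (i * s) * N := by
      calc cost K i e m * b * (k * N) = (cost K i e m * (k * b)) * N := by ring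
        _ ≤ _ := mul_le_mul_of_nonneg_right hstep hNR.le
    nlinarith
  by_contra hcon
  push Not at hcon
  set δ := cost K i e m * b - N * (e : ℝ) ^ (i * A) with hδ
  have hδ0 : 0 < δ := by rw [hδ]; linarith
  obtain ⟨s, hs⟩ := exists_nat_gt (cost K i e m * b * N / δ)
  rw [div_lt_iff₀ hδ0] at hs
  have h8 : (s : ℝ) ≤ (e : ℝ) ^ (i * s) := by
    have h9 : s < e ^ (i * s) := by
      calc s < 2 ^ s := Nat.lt_two_pow_self
        _ ≤ e ^ s := Nat.pow_le_pow_left he s
        _ ≤ e ^ (i * s) := Nat.pow_le_pow_right (by omega) (by nlinarith)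
    exact_mod_cast h9.le
  have h10 := key s
  nlinarith

/-- Submultiplicativity. -/
theorem cost_mul {i e a b : ℕ} (he : 2 ≤ e) (hn : Sys K (e ^ i) 1 e) (ha : 1 ≤ a) (hb : 1 ≤ b) :
    cost K i e (a * b) ≤ cost K i e a * cost K i e b := by
  have hca := cost_nonneg (K := K) i e a
  have hcb := cost_nonneg (K := K) i e b
  -- for all `ca > cost a`, `cb > cost b`
  have key : ∀ ca cb : ℝ, cost K i e a < ca → cost K i e b < cb →
      cost K i e (a * b) ≤ ca * cb := by
    intro ca cb h1 h2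
    obtain ⟨T1, hT1⟩ := exists_of_cost_lt he hn ha h1
    obtain ⟨T2, hT2⟩ := exists_of_cost_lt he hn hb h2
    obtain ⟨B1, hB1, hS1, hlt1⟩ := hT1 T1 le_rfl
    obtain ⟨B2, hB2, hS2, hlt2⟩ := hT2 T2 le_rfl
    have h3 := hS1.comp' hS2
    have h4 : e ^ T1 * a * (e ^ T2 * b) = e ^ (T1 + T2) * (a * b) := by ring
    rw [h4] at h3
    have h5 := cost_le (i := i) (Nat.mul_pos hB2 hB1) (by simpa using h3)
    have hB1' : (0 : ℝ) < B1 := by exact_mod_cast hB1
    have hB2' : (0 : ℝ) < B2 := by exact_mod_cast hB2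
    refine h5.trans ?_
    rw [div_le_iff₀ (by push_cast; positivity)]
    push_cast
    calc (e : ℝ) ^ (i * (T1 + T2)) = (e : ℝ) ^ (i * T1) * (e : ℝ) ^ (i * T2) := by ring
      _ ≤ (ca * B1) * (cb * B2) :=
        mul_le_mul hlt1.le hlt2.le (by positivity) (by nlinarith [hlt1, hca])
      _ = ca * cb * (B2 * B1) := by ring
  refine le_of_forall_pos_le_add fun ε hε => ?_
  -- choose small increments
  set A := cost K i e a
  set B := cost K i e b
  have hpos : 0 < A + B + 1 := by linarith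
  set δ := min 1 (ε / (A + B + 1)) with hδ
  have hδ0 : 0 < δ := lt_min one_pos (div_pos hε hpos)
  have hδ1 : δ ≤ 1 := min_le_left _ _
  have hδ2 : δ * (A + B + 1) ≤ ε := by
    have := min_le_right 1 (ε / (A + B + 1))
    rw [← hδ] at this
    rwa [le_div_iff₀ hpos] at this
  have := key (A + δ) (B + δ) (by linarith) (by linarith)
  nlinarith

/-- Costs of sums. -/
theorem cost_add {i e a b : ℕ} (he : 2 ≤ e) (hn : Sys K (e ^ i) 1 e) (ha : 1 ≤ a)
    (hb : 1 ≤ b) {c : ℝ} (hca : cost K i e a ≤ c) (hcb : cost K i e b ≤ c) :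
    cost K i e (a + b) ≤ c := by
  refine le_of_forall_pos_le_add fun ε hε => ?_
  obtain ⟨T1, hT1⟩ := exists_of_cost_lt he hn ha (lt_of_le_of_lt hca (lt_add_of_pos_right c hε))
  obtain ⟨T2, hT2⟩ := exists_of_cost_lt he hn hb (lt_of_le_of_lt hcb (lt_add_of_pos_right c hε))
  obtain ⟨B1, hB1, hS1, hlt1⟩ := hT1 (max T1 T2) (le_max_left _ _)
  obtain ⟨B2, hB2, hS2, hlt2⟩ := hT2 (max T1 T2) (le_max_right _ _)
  have hS1' := hS1.restrict (min_le_left B1 B2)
  have hS2' := hS2.restrict (min_le_right B1 B2)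
  have h3 := hS1'.mul hS2'
  rw [← mul_add] at h3
  have hmin : 1 ≤ min B1 B2 := le_min hB1 hB2
  have h4 := cost_le (i := i) hmin h3
  have hmin' : (0 : ℝ) < ((min B1 B2 : ℕ) : ℝ) := by exact_mod_cast hmin
  refine h4.trans ?_
  rw [div_le_iff₀ hmin']
  rcases min_choice B1 B2 with h | h
  · rw [h]; exact hlt1.le
  · rw [h]; exact hlt2.le

/-- Scaling by the base. -/
theorem cost_base_mul {i e m : ℕ} (he : 2 ≤ e) (hn : Sys K (e ^ i) 1 e) (hm : 1 ≤ m) :
    (e : ℝ) ^ i * cost K i e (e * m) = cost K i e m := by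
  have he0 : (0 : ℝ) < (e : ℝ) ^ i := by positivity
  apply le_antisymm
  · refine le_of_forall_pos_le_add fun ε hε => ?_
    obtain ⟨T, hT⟩ := exists_of_cost_lt he hn hm (lt_add_of_pos_right (cost K i e m) hε)
    obtain ⟨B, hB, hS, hlt⟩ := hT (T + 1) (by omega)
    have h1 : e ^ (T + 1) * m = e ^ T * (e * m) := by ring
    rw [h1] at hS
    have h2 := cost_le (i := i) hB hS
    have hB' : (0 : ℝ) < B := by exact_mod_cast hB
    rw [le_div_iff₀ hB'] at h2
    have h3 : (e : ℝ) ^ i * cost K i e (e * m) * B ≤ (cost K i e m + ε) * B := by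
      calc (e : ℝ) ^ i * cost K i e (e * m) * B = (e : ℝ) ^ i * (cost K i e (e * m) * B) := by ring
        _ ≤ (e : ℝ) ^ i * (e : ℝ) ^ (i * T) := mul_le_mul_of_nonneg_left h2 he0.le
        _ = (e : ℝ) ^ (i * (T + 1)) := by ring
        _ ≤ (cost K i e m + ε) * B := hlt.le
    exact le_of_mul_le_mul_right h3 hB'
  · refine le_of_forall_pos_le_add fun ε hε => ?_
    have hem : 1 ≤ e * m := Nat.mul_pos (by omega) hm
    have hε' : 0 < ε / (e : ℝ) ^ i := div_pos hε he0
    obtain ⟨T, hT⟩ := exists_of_cost_lt he hn hem (lt_add_of_pos_right (cost K i e (e * m)) hε')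
    obtain ⟨B, hB, hS, hlt⟩ := hT T le_rfl
    have h1 : e ^ T * (e * m) = e ^ (T + 1) * m := by ring
    rw [h1] at hS
    have h2 := cost_le (i := i) hB hS
    have hB' : (0 : ℝ) < B := by exact_mod_cast hB
    rw [le_div_iff₀ hB'] at h2
    have h3 : cost K i e m * B ≤ ((e : ℝ) ^ i * cost K i e (e * m) + ε) * B := by
      calc cost K i e m * B ≤ (e : ℝ) ^ (i * (T + 1)) := h2
        _ = (e : ℝ) ^ i * (e : ℝ) ^ (i * T) := by ring
        _ ≤ (e : ℝ) ^ i * ((cost K i e (e * m) + ε / (e : ℝ) ^ i) * B) :=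
          mul_le_mul_of_nonneg_left hlt.le he0.le
        _ = ((e : ℝ) ^ i * cost K i e (e * m) + ε) * B := by
          field_simp
    exact le_of_mul_le_mul_right h3 hB'

/-- The cost of a degree `u` for which there is a form of degree `u` in `u ^ i` variables. -/
theorem cost_normic {i e u : ℕ} (hu : 1 ≤ u) (h : Sys K (u ^ i) 1 u) :
    cost K i e u * (u : ℝ) ^ i ≤ 1 := by
  have h1 : Sys K (u ^ i) 1 (e ^ 0 * u) := by simpa using h
  have h2 := cost_le (i := i) (Nat.pos_of_ne_zero (by positivity)) h1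
  have hu' : (0 : ℝ) < (u : ℝ) ^ i := by positivity
  push_cast at h2
  rw [le_div_iff₀ hu'] at h2
  simpa using h2

/-- The inequality for systems. -/
theorem cost_system {i e r n : ℕ} (hi : 1 ≤ i) (he : 2 ≤ e) (hn : Sys K (e ^ i) 1 e)
    {d : Fin r → ℕ} (f : Fin r → MvPolynomial (Fin n) K) (hf : ∀ j, (f j).IsHomogeneous (d j))
    (hf0 : ∀ x : Fin n → K, (∀ j, eval x (f j) = 0) → x = 0) (hn1 : 1 ≤ n)
    (m : ℕ) (hm : 1 ≤ m) (m' : Fin r → ℕ) (hm' : ∀ j, 1 ≤ m' j) (hdm : ∀ j, d j * m' j = m) :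
    (n : ℝ) * cost K i e m ≤ ∑ j, cost K i e (m' j) := by
  refine le_of_forall_pos_le_add fun ε hε => ?_
  set δ := ε / (r + 1) with hδ
  have hr1 : (0 : ℝ) < (r : ℝ) + 1 := by positivity
  have hδ0 : 0 < δ := div_pos hε hr1
  choose T hT using fun j =>
    exists_of_cost_lt he hn (hm' j) (lt_add_of_pos_right (cost K i e (m' j)) hδ0)
  set t := ∑ j, T j with ht
  choose B hB hS hlt using fun j => hT j t (Finset.single_le_sum (fun _ _ => Nat.zero_le _)
    (Finset.mem_univ j))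
  set b := ∏ j, B j with hb
  have hb1 : 1 ≤ b := by
    rw [hb]; exact Finset.prod_pos (fun j _ => Nat.lt_of_succ_le (hB j))
  have hN : ∀ j, ∃ N, N * B j = b := fun j => by
    obtain ⟨N, hN⟩ := Finset.dvd_prod_of_mem B (Finset.mem_univ j)
    exact ⟨N, by rw [hb, hN, mul_comm]⟩
  choose N hN using hN
  have hG : ∀ j, Sys K b (N j) (e ^ t * m' j) := fun j => by
    have := (hS j).copies (N j)
    rw [hN j] at this
    simpa using this
  have hmix : Sys K (b * n) (∑ j, N j) (e ^ t * m) :=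
    Sys.mix f hf hf0 hG (fun j => by rw [← hdm j]; ring)
  have h1 := cost_mul_le_of_sys hi he hn hm (Nat.mul_pos hb1 hn1) hmix
  have hbR : (0 : ℝ) < b := by exact_mod_cast hb1
  have h2 : ∀ j, (N j : ℝ) * (e : ℝ) ^ (i * t) ≤ (cost K i e (m' j) + δ) * b := by
    intro j
    have hNR : (N j : ℝ) * (B j : ℝ) = b := by exact_mod_cast hN j
    calc (N j : ℝ) * (e : ℝ) ^ (i * t) ≤ (N j : ℝ) * ((cost K i e (m' j) + δ) * B j) :=
          mul_le_mul_of_nonneg_left (hlt j).le (by positivity)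
      _ = (cost K i e (m' j) + δ) * ((N j : ℝ) * B j) := by ring
      _ = _ := by rw [hNR]
  have h3 : (n : ℝ) * cost K i e m * b ≤ (∑ j, cost K i e (m' j) + ε) * b := by
    calc (n : ℝ) * cost K i e m * b = cost K i e m * ((b * n : ℕ) : ℝ) := by push_cast; ring
      _ ≤ ((∑ j, N j : ℕ) : ℝ) * (e : ℝ) ^ (i * t) := h1
      _ = ∑ j, (N j : ℝ) * (e : ℝ) ^ (i * t) := by push_cast; rw [Finset.sum_mul]
      _ ≤ ∑ j, (cost K i e (m' j) + δ) * b := Finset.sum_le_sum (fun j _ => h2 j)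
      _ = (∑ j, cost K i e (m' j) + r * δ) * b := by
        rw [← Finset.sum_mul, Finset.sum_add_distrib]
        simp
      _ ≤ (∑ j, cost K i e (m' j) + ε) * b := by
        apply mul_le_mul_of_nonneg_right _ hbR.le
        have : r * δ ≤ ε := by
          rw [hδ, mul_div_assoc', div_le_iff₀ hr1]
          nlinarith
        linarith
  exact le_of_mul_le_mul_right h3 hbR

end Pool.Agent.Helper37.Ci
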