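import Pool.Agent.Helper37.CiReal
import Pool.Agent.Helper37.CiCost

/-!
# The two cases
-/

namespace Pool.Agent.Helper37.Ci

namespace CostFn

variable {i e : ℕ} {κ : ℕ → ℝ}

/-- Exponents `θ` which are realised by some `u` coprime to `e`. -/
def expSet (i e : ℕ) (κ : ℕ → ℝ) : Set ℝ :=
  {θ | θ ≤ i ∧ ∃ u : ℕ, 2 ≤ u ∧ Nat.Coprime u e ∧ κ u * (u : ℝ) ^ θ ≤ 1}

theorem zero_mem_expSet (h : CostFn i e κ) : (0 : ℝ) ∈ expSet i e κ := by
  have he := h.two_le_e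
  refine ⟨by positivity, e + 1, by omega, ?_, ?_⟩
  · simp
  · simpa using h.ub (e + 1) (by omega)

theorem expSet_bdd : BddAbove (expSet i e κ) := ⟨i, fun _ hθ => hθ.1⟩

/-- The critical exponent. -/
noncomputable def mu (i e : ℕ) (κ : ℕ → ℝ) : ℝ := sSup (expSet i e κ)

theorem mu_nonneg (h : CostFn i e κ) : 0 ≤ mu i e κ := le_csSup expSet_bdd h.zero_mem_expSet

theorem mu_le (h : CostFn i e κ) : mu i e κ ≤ i :=
  csSup_le ⟨0, h.zero_mem_expSet⟩ (fun _ hθ => hθ.1)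

theorem bound_of_lt_mu (h : CostFn i e κ) {θ : ℝ} (hθ : θ < mu i e κ) :
    ∃ C : ℝ, 0 < C ∧ ∀ m, 1 ≤ m → κ m * (m : ℝ) ^ θ ≤ C := by
  rcases le_or_gt θ 0 with h0 | h0
  · refine ⟨1, one_pos, fun m hm => ?_⟩
    have hm' : (1 : ℝ) ≤ m := by exact_mod_cast hm
    have h1 : (m : ℝ) ^ θ ≤ 1 := Real.rpow_le_one_of_one_le_of_nonpos hm' h0
    exact mul_le_one₀ (h.ub m hm) (by positivity) h1
  · obtain ⟨θ', ⟨hθ'i, u, hu, hcop, hκ⟩, hlt⟩ :=
      exists_lt_of_lt_csSup ⟨0, h.zero_mem_expSet⟩ hθ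
    refine h.low_lemma hu hcop h0 (lt_of_lt_of_le hlt hθ'i) ?_
    have huR : (1 : ℝ) ≤ u := by exact_mod_cast (by omega : 1 ≤ u)
    have h1 : (u : ℝ) ^ θ ≤ (u : ℝ) ^ θ' := Real.rpow_le_rpow_of_exponent_le huR hlt.le
    have h2 := h.pos u (by omega)
    calc κ u * (u : ℝ) ^ θ ≤ κ u * (u : ℝ) ^ θ' := mul_le_mul_of_nonneg_left h1 h2.le
      _ ≤ 1 := hκ

theorem mu_lower (h : CostFn i e κ) {u : ℕ} (hu : 1 ≤ u) (hcop : Nat.Coprime u e) :
    1 ≤ κ u * (u : ℝ) ^ (mu i e κ) := by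
  rcases Nat.lt_or_ge u 2 with h1 | h2
  · have hu1 : u = 1 := by omega
    subst hu1
    simpa using h.lb 1 le_rfl
  · have huR : (1 : ℝ) < u := by exact_mod_cast (by omega : 1 < u)
    have hu0 : (0 : ℝ) < u := by linarith
    have hκ := h.pos u hu
    have hlog : 0 < Real.log u := Real.log_pos huR
    set θ := - Real.log (κ u) / Real.log u with hθ
    have h3 : (u : ℝ) ^ θ = (κ u)⁻¹ := by
      rw [Real.rpow_def_of_pos hu0, hθ, mul_div_cancel₀ _ hlog.ne', Real.exp_neg,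
        Real.exp_log hκ]
    have hθi : θ ≤ i := by
      rw [hθ, div_le_iff₀ hlog]
      have h4 := h.lb u hu
      have h5 : 0 ≤ Real.log (κ u * (u : ℝ) ^ i) := Real.log_nonneg h4
      rw [Real.log_mul hκ.ne' (by positivity), Real.log_pow] at h5
      linarith
    have hmem : θ ∈ expSet i e κ := ⟨hθi, u, h2, hcop, by rw [h3, mul_inv_cancel₀ hκ.ne']⟩
    have h6 : θ ≤ mu i e κ := le_csSup expSet_bdd hmem
    calc 1 = κ u * (u : ℝ) ^ θ := by rw [h3, mul_inv_cancel₀ hκ.ne']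
      _ ≤ κ u * (u : ℝ) ^ (mu i e κ) :=
        mul_le_mul_of_nonneg_left (Real.rpow_le_rpow_of_exponent_le huR.le h6) hκ.le

/-- The statement needed for the concluding iteration. -/
def Good (i : ℕ) (κ : ℕ → ℝ) : Prop :=
  ∀ ε : ℝ, 0 < ε → ∃ (ψ : ℕ → ℝ) (C c : ℝ), 0 < c ∧ (∀ m, 1 ≤ m → 0 < ψ m) ∧
      (∀ a b, 1 ≤ a → 1 ≤ b → ψ (a * b) = ψ a * ψ b) ∧ (∀ m, 1 ≤ m → ψ m ≤ (m : ℝ) ^ i) ∧
      (∀ m, 1 ≤ m → κ m * ψ m ≤ C) ∧ (∀ m, 1 ≤ m → c ≤ κ m * ψ m * (m : ℝ) ^ ε)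

/-- The case `μ = i`. -/
theorem good_of_mu_eq (h : CostFn i e κ) (hμ : mu i e κ = i) : Good i κ := by
  intro ε hε
  obtain ⟨C, hC, hCb⟩ := h.bound_of_lt_mu (θ := i - ε) (by rw [hμ]; linarith)
  refine ⟨fun m => (m : ℝ) ^ ((i : ℝ) - ε), C, 1, one_pos, ?_, ?_, ?_, hCb, ?_⟩
  · intro m hm
    have hm' : (0 : ℝ) < m := by exact_mod_cast hm
    positivity
  · intro a b _ _
    beta_reduce
    rw [Nat.cast_mul, Real.mul_rpow (by positivity) (by positivity)]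
  · intro m hm
    have hm' : (1 : ℝ) ≤ m := by exact_mod_cast hm
    rw [← Real.rpow_natCast]
    exact Real.rpow_le_rpow_of_exponent_le hm' (by linarith)
  · intro m hm
    have hm' : (0 : ℝ) < m := by exact_mod_cast hm
    have h1 := h.lb m hm
    rw [mul_assoc, ← Real.rpow_add hm', sub_add_cancel, Real.rpow_natCast]
    exact h1

/-- The case of a base which is a prime power. -/
theorem good_of_prime_pow (h : CostFn i e κ) {p a : ℕ} (hp : p.Prime) (hea : e = p ^ a) :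
    Good i κ := by
  intro ε hε
  have he := h.two_le_e
  have hp2 := hp.two_le
  have hpR : (1 : ℝ) < p := by exact_mod_cast (by omega : 1 < p)
  have hp0 : (0 : ℝ) < p := by linarith
  have ha : 1 ≤ a := by
    rcases Nat.eq_zero_or_pos a with h0 | h0
    · rw [h0] at hea; simp at hea; omega
    · exact h0
  have : Fact p.Prime := ⟨hp⟩
  set μ := mu i e κ with hμ
  set θ := μ - ε with hθ
  obtain ⟨C, hC, hCb⟩ := h.bound_of_lt_mu (θ := θ) (by rw [hθ]; linarith)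
  have hμi : μ ≤ i := h.mu_le
  have hθi : θ ≤ i := by linarith
  have heR : (e : ℝ) = (p : ℝ) ^ a := by rw [hea]; push_cast; rfl
  -- decomposition
  have hdec : ∀ m : ℕ, 1 ≤ m → ∃ t r w : ℕ, r < a ∧ 1 ≤ w ∧ Nat.Coprime w e ∧
      m = e ^ t * (p ^ r * w) ∧ padicValNat p m = a * t + r := by
    intro m hm
    obtain ⟨v, w, hw, hmw⟩ := Nat.exists_eq_pow_mul_and_not_dvd (by omega : m ≠ 0) p hp.ne_one
    have hw1 : 1 ≤ w := by
      rcases Nat.eq_zero_or_pos w with h0 | h0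
      · rw [h0] at hw; simp at hw
      · exact h0
    refine ⟨v / a, v % a, w, Nat.mod_lt _ ha, hw1, ?_, ?_, ?_⟩
    · rw [hea]
      exact Nat.Coprime.pow_right a ((Nat.Prime.coprime_iff_not_dvd hp).mpr hw).symm
    · rw [hmw, hea, ← pow_mul, ← mul_assoc, ← pow_add, Nat.div_add_mod]
    · rw [Nat.div_add_mod, hmw, padicValNat.mul (by positivity) (by omega),
        padicValNat.prime_pow, padicValNat.eq_zero_of_not_dvd hw, add_zero]
  -- the function `ψ` on decomposed numbers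
  have hψ : ∀ t r w : ℕ, 1 ≤ w →
      ((e ^ t * (p ^ r * w) : ℕ) : ℝ) ^ θ * ((p : ℝ) ^ ((i : ℝ) - θ)) ^ (a * t + r)
        = ((e : ℝ) ^ t) ^ i * ((p : ℝ) ^ r) ^ i * (w : ℝ) ^ θ := by
    intro t r w hw
    have hw' : (0 : ℝ) < w := by exact_mod_cast hw
    have h1 : ((e ^ t * (p ^ r * w) : ℕ) : ℝ) = (p : ℝ) ^ (a * t + r) * w := by
      push_cast
      rw [heR, ← pow_mul, pow_add]
      ring
    have h2 : ((p : ℝ) ^ ((i : ℝ) - θ)) ^ (a * t + r) = ((p : ℝ) ^ (a * t + r)) ^ ((i : ℝ) - θ) := by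
      rw [← Real.rpow_natCast, ← Real.rpow_natCast, ← Real.rpow_mul hp0.le,
        ← Real.rpow_mul hp0.le, mul_comm]
    have h3 : (0 : ℝ) < (p : ℝ) ^ (a * t + r) := by positivity
    rw [h1, h2, Real.mul_rpow h3.le hw'.le, mul_right_comm, ← Real.rpow_add h3, add_sub_cancel,
      Real.rpow_natCast, heR, ← mul_pow, ← pow_mul (p : ℝ) a t, ← pow_add]
  refine ⟨fun m => (m : ℝ) ^ θ * ((p : ℝ) ^ ((i : ℝ) - θ)) ^ (padicValNat p m),
    C * (e : ℝ) ^ i, 1 / (e : ℝ) ^ i, by positivity, ?_, ?_, ?_, ?_, ?_⟩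
  · intro m hm
    have hm' : (0 : ℝ) < m := by exact_mod_cast hm
    positivity
  · intro x y hx hy
    beta_reduce
    rw [Nat.cast_mul, Real.mul_rpow (by positivity) (by positivity),
      padicValNat.mul (by omega) (by omega), pow_add]
    ring
  · intro m hm
    beta_reduce
    have hm' : (0 : ℝ) < m := by exact_mod_cast hm
    have h1 : (p : ℝ) ^ (padicValNat p m) ≤ m := by
      have : p ^ (padicValNat p m) ≤ m := Nat.le_of_dvd hm pow_padicValNat_dvd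
      exact_mod_cast this
    have h2 : ((p : ℝ) ^ ((i : ℝ) - θ)) ^ (padicValNat p m)
        = ((p : ℝ) ^ (padicValNat p m)) ^ ((i : ℝ) - θ) := by
      rw [← Real.rpow_natCast, ← Real.rpow_natCast, ← Real.rpow_mul hp0.le,
        ← Real.rpow_mul hp0.le, mul_comm]
    rw [h2]
    calc (m : ℝ) ^ θ * ((p : ℝ) ^ (padicValNat p m)) ^ ((i : ℝ) - θ)
        ≤ (m : ℝ) ^ θ * (m : ℝ) ^ ((i : ℝ) - θ) := by
          apply mul_le_mul_of_nonneg_left _ (by positivity)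
          exact Real.rpow_le_rpow (by positivity) h1 (by linarith)
      _ = (m : ℝ) ^ i := by
          rw [← Real.rpow_add hm', add_sub_cancel, Real.rpow_natCast]
  · intro m hm
    beta_reduce
    obtain ⟨t, r, w, hr, hw, hcop, hmeq, hval⟩ := hdec m hm
    have hw' : (0 : ℝ) < w := by exact_mod_cast hw
    have hpr : 1 ≤ p ^ r := Nat.one_le_pow _ _ hp.pos
    have hprw : 1 ≤ p ^ r * w := Nat.mul_pos hpr hw
    rw [hval]
    rw [hmeq, hψ t r w hw]
    have h1 := h.base_pow t (p ^ r * w) hprw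
    have h2 : κ (p ^ r * w) ≤ κ w := by
      have h3 := h.mul (p ^ r) w hpr hw
      have h4 := h.ub _ hpr
      have h5 := h.pos w hw
      nlinarith
    have h6 : ((p : ℝ) ^ r) ^ i ≤ (e : ℝ) ^ i := by
      rw [heR]
      exact pow_le_pow_left₀ (by positivity) (pow_le_pow_right₀ hpR.le hr.le) i
    have h7 := hCb w hw
    have h8 := h.pos _ hprw
    calc κ (e ^ t * (p ^ r * w)) * (((e : ℝ) ^ t) ^ i * ((p : ℝ) ^ r) ^ i * (w : ℝ) ^ θ)
        = (((e : ℝ) ^ t) ^ i * κ (e ^ t * (p ^ r * w))) * (((p : ℝ) ^ r) ^ i * (w : ℝ) ^ θ) := by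
          ring
      _ = κ (p ^ r * w) * (((p : ℝ) ^ r) ^ i * (w : ℝ) ^ θ) := by rw [h1]
      _ ≤ κ w * (((p : ℝ) ^ r) ^ i * (w : ℝ) ^ θ) :=
          mul_le_mul_of_nonneg_right h2 (by positivity)
      _ = (κ w * (w : ℝ) ^ θ) * ((p : ℝ) ^ r) ^ i := by ring
      _ ≤ C * (e : ℝ) ^ i := mul_le_mul h7 h6 (by positivity) hC.le
  · intro m hm
    beta_reduce
    obtain ⟨t, r, w, hr, hw, hcop, hmeq, hval⟩ := hdec m hm
    have hw' : (1 : ℝ) ≤ w := by exact_mod_cast hw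
    have hw0 : (0 : ℝ) < w := by linarith
    have hpr : 1 ≤ p ^ r := Nat.one_le_pow _ _ hp.pos
    have hprw : 1 ≤ p ^ r * w := Nat.mul_pos hpr hw
    have hψm : (m : ℝ) ^ θ * ((p : ℝ) ^ ((i : ℝ) - θ)) ^ (padicValNat p m)
        = ((e : ℝ) ^ t) ^ i * ((p : ℝ) ^ r) ^ i * (w : ℝ) ^ θ := by
      rw [hval, hmeq, hψ t r w hw]
    rw [hψm]
    have h1 := h.base_pow t (p ^ r * w) hprw
    rw [← hmeq] at h1
    have h2 : κ w ≤ (e : ℝ) ^ i * κ (p ^ r * w) := by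
      have h3 := h.base w hw
      have h4 : e * w = p ^ (a - r) * (p ^ r * w) := by
        rw [← mul_assoc, ← pow_add, Nat.sub_add_cancel hr.le, hea]
      have hpar : 1 ≤ p ^ (a - r) := Nat.one_le_pow _ _ hp.pos
      have h5 := h.mul (p ^ (a - r)) (p ^ r * w) hpar hprw
      have h6 := h.ub _ hpar
      have h7 := h.pos _ hprw
      rw [← h3, h4]
      apply mul_le_mul_of_nonneg_left _ (by positivity)
      nlinarith
    have h8 : 1 ≤ κ w * (w : ℝ) ^ μ := h.mu_lower hw hcop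
    have h9 : (w : ℝ) ^ μ = (w : ℝ) ^ θ * (w : ℝ) ^ ε := by
      rw [← Real.rpow_add hw0, hθ, sub_add_cancel]
    have h10 : (w : ℝ) ^ ε ≤ (m : ℝ) ^ ε := by
      apply Real.rpow_le_rpow (by positivity) _ hε.le
      have : w ≤ m := by
        rw [hmeq]
        calc w = 1 * w := (one_mul w).symm
          _ ≤ (e ^ t * p ^ r) * w :=
            Nat.mul_le_mul_right _ (Nat.mul_pos (Nat.pos_of_ne_zero (by positivity)) hpr)
          _ = _ := by ring
      exact_mod_cast this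
    have h11 : (1 : ℝ) ≤ ((p : ℝ) ^ r) ^ i := one_le_pow₀ (one_le_pow₀ hpR.le)
    have h12 : 0 < κ (p ^ r * w) := h.pos _ hprw
    rw [div_le_iff₀ (by positivity)]
    calc (1 : ℝ) ≤ κ w * (w : ℝ) ^ μ := h8
      _ = κ w * ((w : ℝ) ^ θ * (w : ℝ) ^ ε) := by rw [h9]
      _ ≤ ((e : ℝ) ^ i * κ (p ^ r * w)) * ((w : ℝ) ^ θ * (m : ℝ) ^ ε) :=
          mul_le_mul h2 (mul_le_mul_of_nonneg_left h10 (by positivity)) (by positivity)
            (by positivity)
      _ ≤ ((e : ℝ) ^ i * κ (p ^ r * w)) * ((w : ℝ) ^ θ * (m : ℝ) ^ ε) * ((p : ℝ) ^ r) ^ i :=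
          le_mul_of_one_le_right (by positivity) h11
      _ = (((e : ℝ) ^ t) ^ i * κ m) * (((p : ℝ) ^ r) ^ i * (w : ℝ) ^ θ * (m : ℝ) ^ ε)
            * (e : ℝ) ^ i := by rw [h1]; ring
      _ = κ m * (((e : ℝ) ^ t) ^ i * ((p : ℝ) ^ r) ^ i * (w : ℝ) ^ θ) * (m : ℝ) ^ ε
            * (e : ℝ) ^ i := by ring

theorem prod_erase_coprime {P : Finset ℕ} (hP : ∀ p ∈ P, p.Prime) {q : ℕ} (hq : q ∈ P) :
    ¬ q ∣ ∏ p ∈ P.erase q, p := by
  intro hdvd
  obtain ⟨p, hp, hqp⟩ := (Prime.dvd_finsetProd_iff (hP q hq).prime _).mp hdvd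
  have h1 := Finset.mem_erase.mp hp
  exact h1.1 ((Nat.prime_dvd_prime_iff_eq (hP q hq) (hP p h1.2)).mp hqp).symm

/-- The case in which the degrees of forms with the extremal number of variables are setwise
coprime. -/
theorem mu_eq_of_coprime (h : CostFn i e κ)
    (H : ∀ p, p.Prime → p ∣ e → ∃ u, 2 ≤ u ∧ Nat.Coprime u p ∧
      ∀ k : ℕ, κ (u ^ k) * ((u : ℝ) ^ k) ^ i ≤ 1) : mu i e κ = i := by
  have he := h.two_le_e
  have hi := h.one_le_i
  have hex : ∀ p : ℕ, ∃ u, p ∈ e.primeFactors → 2 ≤ u ∧ Nat.Coprime u p ∧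
      ∀ k : ℕ, κ (u ^ k) * ((u : ℝ) ^ k) ^ i ≤ 1 := by
    intro p
    by_cases hp : p ∈ e.primeFactors
    · obtain ⟨u, hu⟩ := H p (Nat.prime_of_mem_primeFactors hp) (Nat.dvd_of_mem_primeFactors hp)
      exact ⟨u, fun _ => hu⟩
    · exact ⟨0, fun h => absurd h hp⟩
  choose E hE using hex
  set P := e.primeFactors with hPdef
  have hPprime : ∀ p ∈ P, p.Prime := fun p hp => Nat.prime_of_mem_primeFactors hp
  have hPne : P.Nonempty := by
    rw [hPdef, Nat.nonempty_primeFactors]; omega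
  set R : ℕ → ℕ := fun q => ∏ p ∈ P.erase q, p with hR
  have hR1 : ∀ q, 1 ≤ R q := fun q =>
    Finset.prod_pos (fun p hp => (hPprime p (Finset.mem_of_mem_erase hp)).pos)
  set D : ℕ := ∑ p ∈ P, R p * E p with hD
  -- representatives
  have key : ∀ X : ℕ, 2 ≤ X → ∃ b : ℕ, X ≤ b ∧ b ≤ D * X ∧ Nat.Coprime b e ∧
      κ b * (X : ℝ) ^ i ≤ 1 := by
    intro X hX
    set k : ℕ → ℕ := fun p => Nat.clog (E p) X with hk
    have hk1 : ∀ p ∈ P, X ≤ E p ^ k p := fun p hp => Nat.le_pow_clog (by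
      have := (hE p hp).1; omega) X
    have hk2 : ∀ p ∈ P, E p ^ k p ≤ X * E p := by
      intro p hp
      have h2 := (hE p hp).1
      have h3 : E p ^ (k p - 1) < X := Nat.pow_pred_clog_lt_self (by omega) (by omega)
      have h4 : 0 < k p := Nat.clog_pos (by omega) (by omega)
      calc E p ^ k p = E p ^ (k p - 1 + 1) := by rw [Nat.sub_add_cancel h4]
        _ = E p ^ (k p - 1) * E p := pow_succ _ _
        _ ≤ X * E p := Nat.mul_le_mul_right _ h3.le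
    have hXR : (0 : ℝ) < (X : ℝ) ^ i := by
      have : (0 : ℝ) < X := by exact_mod_cast (by omega : 0 < X)
      positivity
    set b := ∑ p ∈ P, R p * E p ^ k p with hb
    have hterm : ∀ p ∈ P, 1 ≤ R p * E p ^ k p := fun p hp =>
      Nat.mul_pos (hR1 p) (by have := hk1 p hp; omega)
    refine ⟨b, ?_, ?_, ?_, ?_⟩
    · obtain ⟨p, hp⟩ := hPne
      calc X ≤ E p ^ k p := hk1 p hp
        _ ≤ R p * E p ^ k p := Nat.le_mul_of_pos_left _ (hR1 p)
        _ ≤ b := Finset.single_le_sum (f := fun p => R p * E p ^ k p)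
            (fun _ _ => Nat.zero_le _) hp
    · rw [hb, hD, Finset.sum_mul]
      refine Finset.sum_le_sum (fun p hp => ?_)
      calc R p * E p ^ k p ≤ R p * (X * E p) := Nat.mul_le_mul_left _ (hk2 p hp)
        _ = R p * E p * X := by ring
    · refine Nat.Coprime.symm (Nat.Coprime.symm ?_)
      rw [Nat.coprime_iff_gcd_eq_one]
      by_contra hne
      obtain ⟨q, hq, hqd⟩ := Nat.exists_prime_and_dvd hne
      have hqb : q ∣ b := hqd.trans (Nat.gcd_dvd_left _ _)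
      have hqe : q ∣ e := hqd.trans (Nat.gcd_dvd_right _ _)
      have hqP : q ∈ P := Nat.mem_primeFactors.mpr ⟨hq, hqe, by omega⟩
      have h1 : b = R q * E q ^ k q + ∑ p ∈ P.erase q, R p * E p ^ k p := by
        rw [hb]; exact (Finset.add_sum_erase P _ hqP).symm
      have h2 : q ∣ ∑ p ∈ P.erase q, R p * E p ^ k p := by
        refine Finset.dvd_sum (fun p hp => ?_)
        have hp' := Finset.mem_erase.mp hp
        refine Dvd.dvd.mul_right ?_ _
        exact Finset.dvd_prod_of_mem (fun x => x) (Finset.mem_erase.mpr ⟨hp'.1.symm, hqP⟩)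
      have h3 : q ∣ R q * E q ^ k q := (Nat.dvd_add_left h2).mp (h1 ▸ hqb)
      rcases (Nat.Prime.dvd_mul hq).mp h3 with h4 | h4
      · exact prod_erase_coprime hPprime hqP h4
      · have h5 := hq.dvd_of_dvd_pow h4
        have h6 := (hE q hqP).2.1
        have h7 : q ∣ Nat.gcd (E q) q := Nat.dvd_gcd h5 dvd_rfl
        rw [h6] at h7
        exact hq.one_lt.ne' (Nat.dvd_one.mp h7)
    · have h1 : ∀ p ∈ P, 1 ≤ R p * E p ^ k p ∧ κ (R p * E p ^ k p) ≤ 1 / (X : ℝ) ^ i := by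
        intro p hp
        refine ⟨hterm p hp, ?_⟩
        have h2 := (hE p hp).2.2 (k p)
        have h3 := hk1 p hp
        have h3R : (X : ℝ) ≤ (E p : ℝ) ^ k p := by exact_mod_cast h3
        have hEk : 1 ≤ E p ^ k p := by omega
        have h4 := h.mul (R p) (E p ^ k p) (hR1 p) hEk
        have h5 := h.ub (R p) (hR1 p)
        have h6 := h.pos (E p ^ k p) hEk
        have h7 : (X : ℝ) ^ i ≤ ((E p : ℝ) ^ k p) ^ i := pow_le_pow_left₀ (by positivity) h3R i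
        rw [le_div_iff₀ hXR]
        calc κ (R p * E p ^ k p) * (X : ℝ) ^ i ≤ κ (E p ^ k p) * ((E p : ℝ) ^ k p) ^ i := by
              apply mul_le_mul _ h7 hXR.le h6.le
              nlinarith
          _ ≤ 1 := h2
      have h2 : 1 ≤ b ∧ κ b ≤ 1 / (X : ℝ) ^ i := by
        refine Finset.sum_induction_nonempty (s := P) (fun p => R p * E p ^ k p)
          (fun x => 1 ≤ x ∧ κ x ≤ 1 / (X : ℝ) ^ i) ?_ hPne h1
        rintro x y ⟨hx1, hx2⟩ ⟨hy1, hy2⟩
        exact ⟨by omega, h.add x y _ hx1 hy1 hx2 hy2⟩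
      have h3 := h2.2
      rwa [le_div_iff₀ hXR] at h3
  -- conclusion
  refine le_antisymm h.mu_le (le_of_forall_lt fun θ hθ => ?_)
  obtain ⟨θ', hθθ', hθ'i⟩ := exists_between hθ
  refine lt_of_lt_of_le hθθ' (le_csSup expSet_bdd ?_)
  rcases le_or_gt θ' 0 with h0 | h0
  · refine ⟨hθ'i.le, e + 1, by omega, by simp, ?_⟩
    have hm' : (1 : ℝ) ≤ ((e + 1 : ℕ) : ℝ) := by exact_mod_cast (by omega : 1 ≤ e + 1)
    exact mul_le_one₀ (h.ub _ (by omega)) (by positivity)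
      (Real.rpow_le_one_of_one_le_of_nonpos hm' h0)
  · -- choose `X` large
    have hd : 0 < (i : ℝ) - θ' := by linarith
    have hev : ∀ᶠ X : ℕ in Filter.atTop, (D : ℝ) ^ θ' ≤ (X : ℝ) ^ ((i : ℝ) - θ') :=
      ((tendsto_rpow_atTop hd).comp tendsto_natCast_atTop_atTop).eventually_ge_atTop _
    obtain ⟨X, hX1, hX2⟩ := (hev.and (Filter.eventually_ge_atTop 2)).exists
    obtain ⟨b, hXb, hbD, hcop, hκb⟩ := key X hX2
    refine ⟨hθ'i.le, b, by omega, hcop, ?_⟩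
    have hX0 : (0 : ℝ) < X := by exact_mod_cast (by omega : 0 < X)
    have hbR : (b : ℝ) ≤ D * X := by exact_mod_cast hbD
    have hb0 := h.pos b (by omega)
    calc κ b * (b : ℝ) ^ θ' ≤ κ b * ((D : ℝ) * X) ^ θ' :=
          mul_le_mul_of_nonneg_left (Real.rpow_le_rpow (by positivity) hbR h0.le) hb0.le
      _ = κ b * ((D : ℝ) ^ θ' * (X : ℝ) ^ θ') := by
          rw [Real.mul_rpow (by positivity) hX0.le]
      _ ≤ κ b * ((X : ℝ) ^ ((i : ℝ) - θ') * (X : ℝ) ^ θ') :=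
          mul_le_mul_of_nonneg_left (mul_le_mul_of_nonneg_right hX1 (by positivity)) hb0.le
      _ = κ b * (X : ℝ) ^ i := by
          rw [← Real.rpow_add hX0, sub_add_cancel, Real.rpow_natCast]
      _ ≤ 1 := hκb

end CostFn

open MvPolynomial

universe u

variable {K : Type u} [Field K]

theorem costFn {i e : ℕ} (hi : 1 ≤ i) (he : 2 ≤ e) (hK : CiS K i) (hn : Sys K (e ^ i) 1 e) :
    CostFn i e (cost K i e) where
  one_le_i := hi
  two_le_e := he
  pos _ hm := cost_pos he hK hm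
  ub _ hm := cost_le_one hm
  lb _ hm := one_le_cost_mul he hK hm
  mul _ _ ha hb := cost_mul he hn ha hb
  add _ _ _ ha hb hca hcb := cost_add he hn ha hb hca hcb
  base _ hm := cost_base_mul he hn hm

/-- The numerical consequence for a system. -/
theorem le_of_good {i e r n : ℕ} (hi : 1 ≤ i) (he : 2 ≤ e) (hn : Sys K (e ^ i) 1 e)
    (hgood : CostFn.Good i (cost K i e))
    {d : Fin r → ℕ} (hd : ∀ j, 0 < d j) (f : Fin r → MvPolynomial (Fin n) K)
    (hf : ∀ j, (f j).IsHomogeneous (d j))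
    (hf0 : ∀ x : Fin n → K, (∀ j, eval x (f j) = 0) → x = 0) : n ≤ ∑ j, d j ^ i := by
  rcases Nat.eq_zero_or_pos n with hn0 | hn1
  · omega
  let S : Submonoid ℕ :=
    { carrier := {m | 1 ≤ m}
      mul_mem' := fun {a b} ha hb => Nat.mul_pos ha hb
      one_mem' := Nat.le_refl 1 }
  have hS : ∀ m, m ∈ S ↔ 1 ≤ m := fun m => Iff.rfl
  refine final_lemma' (κ := cost K i e) S (fun m hm => hm) (fun j => hd j) ?_ ?_
  · intro m hm m' hm' hdm
    exact cost_system hi he hn f hf hf0 hn1 m hm m' hm' hdm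
  · intro ε hε
    obtain ⟨ψ, C, c, hc, h1, h2, h3, h4, h5⟩ := hgood ε hε
    exact ⟨ψ, C, c, hc, h1, fun a ha b hb => h2 a b ha hb, h3, h4, h5⟩

/-- The main numerical theorem: a `C_i` field with sufficiently many forms of degree `e` in `e ^ i`
variables satisfies the strong property. -/
theorem main_numeric {i r n : ℕ} (hi : 1 ≤ i) (hK : CiS K i)
    (H : ∀ p : ℕ, p.Prime → ∃ e : ℕ, 2 ≤ e ∧ (Nat.Coprime e p ∨ ∃ a, e = p ^ a) ∧
      Sys K (e ^ i) 1 e)
    {d : Fin r → ℕ} (hd : ∀ j, 0 < d j) (f : Fin r → MvPolynomial (Fin n) K)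
    (hf : ∀ j, (f j).IsHomogeneous (d j))
    (hf0 : ∀ x : Fin n → K, (∀ j, eval x (f j) = 0) → x = 0) : n ≤ ∑ j, d j ^ i := by
  by_cases hpp : ∃ p a e : ℕ, p.Prime ∧ 2 ≤ e ∧ e = p ^ a ∧ Sys K (e ^ i) 1 e
  · obtain ⟨p, a, e, hp, he, hea, hn⟩ := hpp
    exact le_of_good hi he hn ((costFn hi he hK hn).good_of_prime_pow hp hea) hd f hf hf0
  · push Not at hpp
    have H' : ∀ p : ℕ, p.Prime → ∃ e : ℕ, 2 ≤ e ∧ Nat.Coprime e p ∧ Sys K (e ^ i) 1 e := by
      intro p hp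
      obtain ⟨e, he, hor, hS⟩ := H p hp
      rcases hor with h | ⟨a, ha⟩
      · exact ⟨e, he, h, hS⟩
      · exact absurd hS (hpp p a e hp he ha)
    obtain ⟨e, he, -, hn⟩ := H' 2 Nat.prime_two
    refine le_of_good hi he hn ((costFn hi he hK hn).good_of_mu_eq
      ((costFn hi he hK hn).mu_eq_of_coprime ?_)) hd f hf hf0
    intro p hp _
    obtain ⟨u, hu, hcop, hS⟩ := H' p hp
    refine ⟨u, hu, hcop, fun k => ?_⟩
    have := cost_normic (i := i) (e := e) (Nat.pos_of_ne_zero (by positivity)) (hS.iter k)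
    push_cast at this
    exact this

end Pool.Agent.Helper37.Ci
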