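import Pool.Agent.Helper37.CiNorm

/-!
# Degrees of finite extensions
-/

namespace Pool.Agent.Helper37.Ci

open Polynomial

universe u

/-- A field which is not algebraically closed has, for every prime `p`, a form of degree `e` in `e`
variables with only the trivial zero, where `e ≥ 2` is coprime to `p` or a power of `p`. -/
theorem exists_norm_degree {K : Type u} [Field K] (hK : ¬ IsAlgClosed K) (p : ℕ) (hp : p.Prime) :
    ∃ e : ℕ, 2 ≤ e ∧ (Nat.Coprime e p ∨ ∃ a, e = p ^ a) ∧ Sys K e 1 e := by
  classical
  -- the characteristic exponent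
  obtain ⟨q, hq⟩ := ExpChar.exists K
  by_cases hperf : PerfectField K
  · -- a Galois extension
    have hex : ∃ f : K[X], Irreducible f ∧ ∀ x, f.eval x ≠ 0 := by
      by_contra hcon
      push Not at hcon
      exact hK (IsAlgClosed.of_exists_root K (fun f _ hf => hcon f hf))
    obtain ⟨f, hf, hroot⟩ := hex
    have hsep : f.Separable := PerfectField.separable_of_irreducible hf
    let L := f.SplittingField
    have hgal : IsGalois K L := IsGalois.of_separable_splitting_field hsep
    have hfin : FiniteDimensional K L := inferInstance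
    have hcard : Nat.card Gal(L/K) = Module.finrank K L := IsGalois.card_aut_eq_finrank K L
    have hne1 : Module.finrank K L ≠ 1 := by
      intro h1
      have hsplit : (f.map (algebraMap K L)).Splits := SplittingField.splits f
      have hdeg : (f.map (algebraMap K L)).degree ≠ 0 := by
        rw [degree_map]; exact (degree_pos_of_irreducible hf).ne'
      obtain ⟨y, hy⟩ := hsplit.exists_eval_eq_zero hdeg
      have hbot : (⊥ : Subalgebra K L) = ⊤ := Subalgebra.bot_eq_top_of_finrank_eq_one h1
      have hy' : y ∈ (⊥ : Subalgebra K L) := by rw [hbot]; trivial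
      obtain ⟨x, rfl⟩ := Algebra.mem_bot.mp hy'
      apply hroot x
      rw [eval_map_algebraMap, aeval_algebraMap_apply, coe_aeval_eq_eval] at hy
      exact (map_eq_zero _).mp hy
    have hpos : 0 < Module.finrank K L := Module.finrank_pos
    have : Fact p.Prime := ⟨hp⟩
    have hfinG : Finite Gal(L/K) := inferInstance
    obtain ⟨P⟩ : Nonempty (Sylow p Gal(L/K)) := inferInstance
    have hndvd : ¬ p ∣ (P : Subgroup Gal(L/K)).index := P.not_dvd_index
    have hidx0 : (P : Subgroup Gal(L/K)).index ≠ 0 := Subgroup.FiniteIndex.index_ne_zero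
    have hmul : (P : Subgroup Gal(L/K)).index * Nat.card (P : Subgroup Gal(L/K))
        = Module.finrank K L := by
      rw [Subgroup.index_mul_card, hcard]
    by_cases hidx1 : (P : Subgroup Gal(L/K)).index = 1
    · -- the group is a `p`-group
      rw [hidx1, one_mul] at hmul
      obtain ⟨a, ha⟩ := IsPGroup.iff_card.mp P.isPGroup'
      refine ⟨Module.finrank K L, by omega, Or.inr ⟨a, ?_⟩, Sys.of_finrank L⟩
      rw [← hmul]; exact ha
    · -- the fixed field
      let E := IntermediateField.fixedField (P : Subgroup Gal(L/K))
      have h1 : Module.finrank E L = Nat.card (P : Subgroup Gal(L/K)) :=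
        IntermediateField.finrank_fixedField_eq_card _
      have h2 : Module.finrank K E * Module.finrank E L = Module.finrank K L :=
        Module.finrank_mul_finrank K E L
      have h3 : 0 < Nat.card (P : Subgroup Gal(L/K)) := Nat.card_pos
      have h4 : Module.finrank K E = (P : Subgroup Gal(L/K)).index := by
        rw [h1, ← hmul] at h2
        exact Nat.eq_of_mul_eq_mul_right h3 h2
      refine ⟨Module.finrank K E, by omega, Or.inl ?_, Sys.of_finrank E⟩
      rw [h4]
      exact ((Nat.Prime.coprime_iff_not_dvd hp).mpr hndvd).symm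
  · -- an inseparable extension
    have hqp : q.Prime := by
      rcases hq with _ | hq'
      · exact absurd (PerfectField.ofCharZero (K := K)) hperf
      · exact hq'
    have hnotall : ∃ a : K, ∀ b : K, b ^ q ≠ a := by
      by_contra hcon
      push Not at hcon
      apply hperf
      have : PerfectRing K q := PerfectRing.ofSurjective K q (fun a => by
        obtain ⟨b, hb⟩ := hcon a
        exact ⟨b, by simpa [frobenius_def] using hb⟩)
      exact PerfectRing.toPerfectField K q
    obtain ⟨a, ha⟩ := hnotall
    have hirr : Irreducible (X ^ q - C a) := X_pow_sub_C_irreducible_of_prime hqp ha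
    have : Fact (Irreducible (X ^ q - C a : K[X])) := ⟨hirr⟩
    have hne : (X ^ q - C a : K[X]) ≠ 0 := hirr.ne_zero
    have hfr : Module.finrank K (AdjoinRoot (X ^ q - C a)) = q := by
      rw [PowerBasis.finrank (AdjoinRoot.powerBasis hne), AdjoinRoot.powerBasis_dim,
        natDegree_X_pow_sub_C]
    have hfd : FiniteDimensional K (AdjoinRoot (X ^ q - C a)) :=
      (AdjoinRoot.powerBasis hne).finite
    have hS := Sys.of_finrank (K := K) (AdjoinRoot (X ^ q - C a))
    rw [hfr] at hS
    refine ⟨q, hqp.two_le, ?_, hS⟩
    by_cases hqeq : q = p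
    · exact Or.inr ⟨1, by rw [hqeq, pow_one]⟩
    · exact Or.inl ((Nat.coprime_primes hqp hp).mpr hqeq)

end Pool.Agent.Helper37.Ci
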