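import Pool.Agent.Helper37.CiCases
import Pool.Agent.Helper37.CiGalois
import Pool.Agent.Helper37.CiAlgClosed

/-!
# Assembly
-/

namespace Pool.Agent.Helper37.Ci

open MvPolynomial

universe u

variable {K : Type u} [Field K]

/-- The hypothesis of the problem in terms of `Sys`. -/
theorem ciS_of_zeros {i : ℕ}
    (h : ∀ (n d : ℕ) (f : MvPolynomial (Fin n) K), 0 < d → f.IsHomogeneous d → d ^ i < n →
      ∃ x : Fin n → K, x ≠ 0 ∧ MvPolynomial.eval x f = 0) : CiS K i := by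
  intro b d hd hS
  obtain ⟨f, hf, hf0⟩ := hS
  by_contra hcon
  obtain ⟨x, hx, hx0⟩ := h b d (f 0) hd (hf 0) (not_le.mp hcon)
  exact hx (hf0 x (fun j => by rw [Subsingleton.elim j 0]; exact hx0))

/-- From the numerical bound to the common zero. -/
theorem zeros_of_le {i n r : ℕ} {d : Fin r → ℕ} (f : Fin r → MvPolynomial (Fin n) K)
    (hlt : (∑ j, d j ^ i) < n)
    (H : (∀ x : Fin n → K, (∀ j, eval x (f j) = 0) → x = 0) → n ≤ ∑ j, d j ^ i) :
    ∃ x : Fin n → K, x ≠ 0 ∧ ∀ j, MvPolynomial.eval x (f j) = 0 := by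
  by_contra hcon
  push Not at hcon
  have := H (fun x hx => by
    by_contra hx0
    obtain ⟨j, hj⟩ := hcon x hx0
    exact hj (hx j))
  omega

theorem r_le_sum {i r : ℕ} {d : Fin r → ℕ} (hd : ∀ j, 0 < d j) : r ≤ ∑ j, d j ^ i := by
  calc r = ∑ _j : Fin r, 1 := by simp
    _ ≤ ∑ j, d j ^ i := Finset.sum_le_sum (fun j _ => Nat.one_le_pow _ _ (hd j))

/-- `C_1` implies strongly `C_1`, numerically. -/
theorem main_one {r n : ℕ} (hK : CiS K 1) {d : Fin r → ℕ} (hd : ∀ j, 0 < d j)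
    (f : Fin r → MvPolynomial (Fin n) K) (hf : ∀ j, (f j).IsHomogeneous (d j))
    (hf0 : ∀ x : Fin n → K, (∀ j, eval x (f j) = 0) → x = 0) : n ≤ ∑ j, d j ^ 1 := by
  by_cases hac : IsAlgClosed K
  · exact (le_of_isAlgClosed hd f hf hf0).trans (r_le_sum hd)
  · refine main_numeric le_rfl hK (fun p hp => ?_) hd f hf hf0
    obtain ⟨e, he, hor, hS⟩ := exists_norm_degree hac p hp
    exact ⟨e, he, hor, by simpa using hS⟩

/-- A `C_0` field is algebraically closed. -/
theorem isAlgClosed_of_ciS (hK : CiS K 0) : IsAlgClosed K := by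
  by_contra hac
  obtain ⟨e, he, -, hS⟩ := exists_norm_degree hac 2 Nat.prime_two
  have := hK e e (by omega) hS
  simp at this
  omega

end Pool.Agent.Helper37.Ci
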