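import Pool.Agent.Helper37.CiCost
import Pool.Agent.Helper37.CiGalois

/-!
# Nagata's theorem and the cost of a degree over an arbitrary field

`kap K m` is the infimum of `N / b` over all systems of `N` forms of degree `m` in `b ≥ 1`
variables with only the trivial common zero.
-/

namespace Pool.Agent.Helper37.Ci

open MvPolynomial

universe u

variable {K : Type u} [Field K]

/-- Products of systems, via polynomial multiplication. -/
theorem SysT.mulPoly {σ : Type} {N M a b : ℕ} (hN : 1 ≤ N) (hM : 1 ≤ M)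
    (h1 : SysT K σ (Fin N) a) (h2 : SysT K σ (Fin M) b) :
    SysT K σ (Fin (N + M - 1)) (a + b) := by
  classical
  obtain ⟨f, hf, hf0⟩ := h1
  obtain ⟨g, hg, hg0⟩ := h2
  refine ⟨fun s => ∑ p : Fin N × Fin M, if p.1.val + p.2.val = s.val then f p.1 * g p.2 else 0,
    fun s => ?_, fun x hx => ?_⟩
  · refine IsHomogeneous.sum _ _ _ (fun p _ => ?_)
    split_ifs
    · exact (hf _).mul (hg _)
    · exact isHomogeneous_zero _ _ _
  · -- the two polynomials
    let F : Polynomial K := ∑ i : Fin N, Polynomial.monomial i.val (eval x (f i))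
    let G : Polynomial K := ∑ j : Fin M, Polynomial.monomial j.val (eval x (g j))
    have hFG : F * G = 0 := by
      ext s
      rw [Polynomial.coeff_zero]
      have hexp : F * G = ∑ p : Fin N × Fin M,
          Polynomial.monomial (p.1.val + p.2.val) (eval x (f p.1) * eval x (g p.2)) := by
        simp only [F, G]
        rw [Finset.sum_mul_sum, Fintype.sum_prod_type]
        refine Finset.sum_congr rfl (fun i _ => Finset.sum_congr rfl (fun j _ => ?_))
        rw [Polynomial.monomial_mul_monomial]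
      rw [hexp, Polynomial.finsetSum_coeff]
      by_cases hs : s < N + M - 1
      · have h := hx ⟨s, hs⟩
        rw [map_sum] at h
        rw [← h]
        refine Finset.sum_congr rfl (fun p _ => ?_)
        rw [Polynomial.coeff_monomial]
        split_ifs
        · rw [map_mul]
        · rw [map_zero]
      · refine Finset.sum_eq_zero (fun p _ => ?_)
        rw [Polynomial.coeff_monomial, if_neg]
        have h1 := p.1.isLt
        have h2 := p.2.isLt
        omega
    rcases mul_eq_zero.mp hFG with h | h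
    · apply hf0
      intro j
      have h3 := congrArg (fun P => Polynomial.coeff P j.val) h
      simp only [F, Polynomial.finsetSum_coeff, Polynomial.coeff_monomial,
        Polynomial.coeff_zero] at h3
      rw [Finset.sum_eq_single j] at h3
      · simpa using h3
      · intro i _ hij
        rw [if_neg (fun h => hij (Fin.ext h))]
      · intro h; exact absurd (Finset.mem_univ j) h
    · apply hg0
      intro j
      have h3 := congrArg (fun P => Polynomial.coeff P j.val) h
      simp only [G, Polynomial.finsetSum_coeff, Polynomial.coeff_monomial,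
        Polynomial.coeff_zero] at h3
      rw [Finset.sum_eq_single j] at h3
      · simpa using h3
      · intro i _ hij
        rw [if_neg (fun h => hij (Fin.ext h))]
      · intro h; exact absurd (Finset.mem_univ j) h

/-- Nagata's theorem: in a `C_i` field which is not algebraically closed, `N` forms of degree `m`
with only the trivial common zero have at most `N * m ^ i` variables. -/
theorem nagata {i b N m : ℕ} (hac : ¬ IsAlgClosed K) (hK : CiS K i) (hm : 1 ≤ m)
    (h : Sys K b N m) : b ≤ N * m ^ i := by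
  rcases Nat.eq_zero_or_pos b with hb0 | hb
  · omega
  have hN : 1 ≤ N := h.one_le_forms hb
  by_contra hcon
  push Not at hcon
  have hmi : 1 ≤ m ^ i := Nat.one_le_pow _ _ hm
  have hNb : N < b := lt_of_le_of_lt (Nat.le_mul_of_pos_right N hmi) hcon
  -- real quantities
  have hNR : (0 : ℝ) < N := by exact_mod_cast hN
  have hbR : (0 : ℝ) < b := by exact_mod_cast hb
  set r : ℝ := (b : ℝ) / N with hr
  have hr1 : 1 < r := by rw [hr, one_lt_div hNR]; exact_mod_cast hNb
  have hrm : (m : ℝ) ^ i < r := by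
    rw [hr, lt_div_iff₀ hNR]
    have : ((N * m ^ i : ℕ) : ℝ) < b := by exact_mod_cast hcon
    push_cast at this
    linarith
  set c0 : ℝ := b / (r - 1) with hc0
  have hr10 : 0 < r - 1 := by linarith
  have hc0eq : c0 * (r - 1) = b := by rw [hc0]; field_simp
  -- the norm form
  obtain ⟨e, he, -, hS⟩ := exists_norm_degree hac 2 Nat.prime_two
  have hS' : Sys K (e ^ 1) 1 e := by simpa using hS
  obtain ⟨k, hk⟩ : ∃ k : ℕ, c0 + 1 < (e : ℝ) ^ k := by
    have he' : (1 : ℝ) < e := by exact_mod_cast (by omega : 1 < e)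
    exact pow_unbounded_of_one_lt _ he'
  -- the iteration
  have key : ∀ t : ℕ, ∃ B : ℕ, Sys K B 1 (e ^ k * m ^ t) ∧ r ^ t + c0 ≤ B := by
    intro t
    induction t with
    | zero =>
      refine ⟨e ^ k, ?_, ?_⟩
      · simpa using hS'.iter k
      · push_cast
        rw [pow_zero]; linarith
    | succ t ih =>
      obtain ⟨B, hB, hBr⟩ := ih
      set q := B / N with hq
      have hqN : q * N ≤ B := Nat.div_mul_le_self _ _
      have hqN' : B < N * (q + 1) := Nat.lt_mul_div_succ _ hN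
      have h1 : Sys K (q * b) (q * N) m := h.copies q
      have h2 : Sys K (q * N) 1 (e ^ k * m ^ t) := hB.restrict hqN
      have h3 := h1.comp h2
      have h4 : m * (e ^ k * m ^ t) = e ^ k * m ^ (t + 1) := by ring
      rw [h4] at h3
      refine ⟨q * b, h3, ?_⟩
      have hqN'R : (B : ℝ) < N * ((q : ℝ) + 1) := by exact_mod_cast hqN'
      push_cast
      -- `q b > r B - b`
      have h5 : r * B - b ≤ q * b := by
        have h6 : (b : ℝ) = r * N := by rw [hr]; field_simp
        have h7 : r * B ≤ r * (N * ((q : ℝ) + 1)) :=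
          mul_le_mul_of_nonneg_left hqN'R.le (by linarith)
        nlinarith
      have h8 : r * (r ^ t + c0) ≤ r * B := mul_le_mul_of_nonneg_left hBr (by linarith)
      have h9 : r ^ (t + 1) = r * r ^ t := by ring
      nlinarith
  -- contradiction
  have hmiR : (0 : ℝ) < (m : ℝ) ^ i := by positivity
  have hek : (0 : ℝ) < ((e : ℝ) ^ k) ^ i := by positivity
  have hratio : 1 < r / (m : ℝ) ^ i := by rw [one_lt_div hmiR]; exact hrm
  obtain ⟨t, ht⟩ := pow_unbounded_of_one_lt (((e : ℝ) ^ k) ^ i) hratio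
  obtain ⟨B, hB, hBr⟩ := key t
  have h1 := hK B _ (by positivity) hB
  have h2 : (B : ℝ) ≤ ((e : ℝ) ^ k * (m : ℝ) ^ t) ^ i := by exact_mod_cast h1
  have h3 : ((e : ℝ) ^ k * (m : ℝ) ^ t) ^ i = ((e : ℝ) ^ k) ^ i * ((m : ℝ) ^ i) ^ t := by
    rw [mul_pow, ← pow_mul, ← pow_mul (m : ℝ) t i, ← pow_mul (m : ℝ) i t, mul_comm t i]
  rw [div_pow, lt_div_iff₀ (by positivity)] at ht
  have hc00 : 0 < c0 := by rw [hc0]; exact div_pos hbR hr10
  rw [h3] at h2
  linarith

/-- The set of ratios. -/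
def kapSet (K : Type u) [Field K] (m : ℕ) : Set ℝ :=
  {c | ∃ b N : ℕ, 1 ≤ b ∧ Sys K b N m ∧ c = (N : ℝ) / b}

/-- The cost of the degree `m`. -/
noncomputable def kap (K : Type u) [Field K] (m : ℕ) : ℝ := sInf (kapSet K m)

theorem kapSet_bdd (m : ℕ) : BddBelow (kapSet K m) := by
  refine ⟨0, ?_⟩
  rintro c ⟨b, N, _, _, rfl⟩
  positivity

theorem kap_le {m b N : ℕ} (hb : 1 ≤ b) (h : Sys K b N m) : kap K m ≤ (N : ℝ) / b :=
  csInf_le (kapSet_bdd m) ⟨b, N, hb, h, rfl⟩

theorem kap_mul_le {m b N : ℕ} (hb : 1 ≤ b) (h : Sys K b N m) : kap K m * b ≤ N := by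
  have := kap_le hb h
  have hbR : (0 : ℝ) < b := by exact_mod_cast hb
  rwa [le_div_iff₀ hbR] at this

theorem kapSet_one_mem {m : ℕ} (hm : 1 ≤ m) : (1 : ℝ) ∈ kapSet K m :=
  ⟨1, 1, le_rfl, Sys.pow (K := K) m hm, by simp⟩

theorem kap_le_one {m : ℕ} (hm : 1 ≤ m) : kap K m ≤ 1 :=
  csInf_le (kapSet_bdd m) (kapSet_one_mem hm)

theorem kap_nonneg (m : ℕ) : 0 ≤ kap K m := by
  apply Real.sInf_nonneg
  rintro c ⟨b, N, _, _, rfl⟩
  positivity

theorem exists_of_kap_lt {m : ℕ} (hm : 1 ≤ m) {c : ℝ} (hc : kap K m < c) :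
    ∃ b N : ℕ, 1 ≤ b ∧ Sys K b N m ∧ (N : ℝ) < c * b := by
  obtain ⟨c', ⟨b, N, hb, h, rfl⟩, hlt⟩ := exists_lt_of_csInf_lt ⟨1, kapSet_one_mem hm⟩ hc
  have hbR : (0 : ℝ) < b := by exact_mod_cast hb
  rw [div_lt_iff₀ hbR] at hlt
  exact ⟨b, N, hb, h, hlt⟩

theorem one_le_kap_mul {i m : ℕ} (hac : ¬ IsAlgClosed K) (hK : CiS K i) (hm : 1 ≤ m) :
    1 ≤ kap K m * (m : ℝ) ^ i := by
  have hm' : (0 : ℝ) < (m : ℝ) ^ i := by positivity
  have : 1 / (m : ℝ) ^ i ≤ kap K m := by
    apply le_csInf ⟨1, kapSet_one_mem hm⟩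
    rintro c ⟨b, N, hb, h, rfl⟩
    have h1 := nagata hac hK hm h
    have hb' : (0 : ℝ) < b := by exact_mod_cast hb
    have h1' : (b : ℝ) ≤ N * (m : ℝ) ^ i := by exact_mod_cast h1
    rw [div_le_div_iff₀ hm' hb', one_mul]
    exact h1'
  rw [div_le_iff₀ hm'] at this
  exact this

theorem kap_mul {a b : ℕ} (ha : 1 ≤ a) (hb : 1 ≤ b) : kap K (a * b) ≤ kap K a * kap K b := by
  have hca := kap_nonneg (K := K) a
  have hcb := kap_nonneg (K := K) b
  have key : ∀ ca cb : ℝ, kap K a < ca → kap K b < cb → kap K (a * b) ≤ ca * cb := by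
    intro ca cb h1 h2
    obtain ⟨b1, N1, hb1, hS1, hlt1⟩ := exists_of_kap_lt ha h1
    obtain ⟨b2, N2, hb2, hS2, hlt2⟩ := exists_of_kap_lt hb h2
    have h3 := hS1.comp' hS2
    have h4 := kap_mul_le (Nat.mul_pos hb2 hb1) h3
    have hb1' : (0 : ℝ) < b1 := by exact_mod_cast hb1
    have hb2' : (0 : ℝ) < b2 := by exact_mod_cast hb2
    push_cast at h4
    have h5 : kap K (a * b) * (b2 * b1) ≤ (ca * cb) * (b2 * b1) := by
      calc kap K (a * b) * (b2 * b1) ≤ N1 * N2 := h4
        _ ≤ (ca * b1) * (cb * b2) :=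
          mul_le_mul hlt1.le hlt2.le (by positivity) (by nlinarith)
        _ = (ca * cb) * (b2 * b1) := by ring
    exact le_of_mul_le_mul_right h5 (by positivity)
  refine le_of_forall_pos_le_add fun ε hε => ?_
  set A := kap K a
  set B := kap K b
  have hpos : 0 < A + B + 1 := by linarith
  set δ := min 1 (ε / (A + B + 1)) with hδ
  have hδ0 : 0 < δ := lt_min one_pos (div_pos hε hpos)
  have hδ1 : δ ≤ 1 := min_le_left _ _
  have hδ2 : δ * (A + B + 1) ≤ ε := by
    have := min_le_right 1 (ε / (A + B + 1))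
    rw [← hδ] at this
    rwa [le_div_iff₀ hpos] at this
  have := key (A + δ) (B + δ) (by linarith) (by linarith)
  nlinarith

theorem kap_add {a b : ℕ} (ha : 1 ≤ a) (hb : 1 ≤ b) : kap K (a + b) ≤ kap K a + kap K b := by
  refine le_of_forall_pos_le_add fun ε hε => ?_
  obtain ⟨b1, N1, hb1, hS1, hlt1⟩ :=
    exists_of_kap_lt ha (lt_add_of_pos_right (kap K a) (half_pos hε))
  obtain ⟨b2, N2, hb2, hS2, hlt2⟩ :=
    exists_of_kap_lt hb (lt_add_of_pos_right (kap K b) (half_pos hε))
  have hN1 := hS1.one_le_forms hb1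
  have hN2 := hS2.one_le_forms hb2
  have h1 : SysT K (Fin (b2 * b1)) (Fin (b2 * N1)) a := hS1.copies b2
  have h2 : SysT K (Fin (b1 * b2)) (Fin (b1 * N2)) b := hS2.copies b1
  rw [mul_comm b1 b2] at h2
  have h3 : Sys K (b2 * b1) (b2 * N1 + b1 * N2 - 1) (a + b) :=
    SysT.mulPoly (Nat.mul_pos hb2 hN1) (Nat.mul_pos hb1 hN2) h1 h2
  have h4 := kap_mul_le (Nat.mul_pos hb2 hb1) (h3.pad (Nat.sub_le _ 1))
  push_cast at h4
  have hb1' : (0 : ℝ) < b1 := by exact_mod_cast hb1
  have hb2' : (0 : ℝ) < b2 := by exact_mod_cast hb2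
  have h5 : kap K (a + b) * (b2 * b1) ≤ (kap K a + kap K b + ε) * (b2 * b1) := by
    calc kap K (a + b) * (b2 * b1) ≤ b2 * N1 + b1 * N2 := h4
      _ ≤ b2 * ((kap K a + ε / 2) * b1) + b1 * ((kap K b + ε / 2) * b2) :=
        add_le_add (mul_le_mul_of_nonneg_left hlt1.le hb2'.le)
          (mul_le_mul_of_nonneg_left hlt2.le hb1'.le)
      _ = _ := by ring
  exact le_of_mul_le_mul_right h5 (by positivity)

theorem kap_system {r n : ℕ} {d : Fin r → ℕ} (f : Fin r → MvPolynomial (Fin n) K)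
    (hf : ∀ j, (f j).IsHomogeneous (d j))
    (hf0 : ∀ x : Fin n → K, (∀ j, eval x (f j) = 0) → x = 0) (hn1 : 1 ≤ n)
    (m : ℕ) (m' : Fin r → ℕ) (hm' : ∀ j, 1 ≤ m' j) (hdm : ∀ j, d j * m' j = m) :
    (n : ℝ) * kap K m ≤ ∑ j, kap K (m' j) := by
  refine le_of_forall_pos_le_add fun ε hε => ?_
  set δ := ε / (r + 1) with hδ
  have hr1 : (0 : ℝ) < (r : ℝ) + 1 := by positivity
  have hδ0 : 0 < δ := div_pos hε hr1
  choose B N0 hB hS hlt using fun j =>
    exists_of_kap_lt (hm' j) (lt_add_of_pos_right (kap K (m' j)) hδ0)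
  set b := ∏ j, B j with hb
  have hb1 : 1 ≤ b := by
    rw [hb]; exact Finset.prod_pos (fun j _ => Nat.lt_of_succ_le (hB j))
  have hk : ∀ j, ∃ k, k * B j = b := fun j => by
    obtain ⟨k, hk⟩ := Finset.dvd_prod_of_mem B (Finset.mem_univ j)
    exact ⟨k, by rw [hb, hk, mul_comm]⟩
  choose k hk using hk
  have hG : ∀ j, Sys K b (k j * N0 j) (m' j) := fun j => by
    have := (hS j).copies (k j)
    rwa [hk j] at this
  have hmix : Sys K (b * n) (∑ j, k j * N0 j) m := Sys.mix f hf hf0 hG hdm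
  have h1 := kap_mul_le (Nat.mul_pos hb1 hn1) hmix
  have hbR : (0 : ℝ) < b := by exact_mod_cast hb1
  have h2 : ∀ j, ((k j * N0 j : ℕ) : ℝ) ≤ (kap K (m' j) + δ) * b := by
    intro j
    have hkR : (k j : ℝ) * (B j : ℝ) = b := by exact_mod_cast hk j
    push_cast
    calc (k j : ℝ) * N0 j ≤ (k j : ℝ) * ((kap K (m' j) + δ) * B j) :=
          mul_le_mul_of_nonneg_left (hlt j).le (by positivity)
      _ = (kap K (m' j) + δ) * ((k j : ℝ) * B j) := by ring
      _ = _ := by rw [hkR]
  have h3 : (n : ℝ) * kap K m * b ≤ (∑ j, kap K (m' j) + ε) * b := by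
    calc (n : ℝ) * kap K m * b = kap K m * ((b * n : ℕ) : ℝ) := by push_cast; ring
      _ ≤ ((∑ j, k j * N0 j : ℕ) : ℝ) := h1
      _ = ∑ j, ((k j * N0 j : ℕ) : ℝ) := by push_cast; rfl
      _ ≤ ∑ j, (kap K (m' j) + δ) * b := Finset.sum_le_sum (fun j _ => h2 j)
      _ = (∑ j, kap K (m' j) + r * δ) * b := by
        rw [← Finset.sum_mul, Finset.sum_add_distrib]
        simp
      _ ≤ (∑ j, kap K (m' j) + ε) * b := by
        apply mul_le_mul_of_nonneg_right _ hbR.le
        have : r * δ ≤ ε := by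
          rw [hδ, mul_div_assoc', div_le_iff₀ hr1]
          nlinarith
        linarith
  exact le_of_mul_le_mul_right h3 hbR

end Pool.Agent.Helper37.Ci
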