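import Pool.Agent.Helper37.CiLocal
import Pool.Agent.Helper37.CiNagata
import Pool.Agent.Helper37.CiMain

/-!
# Results for all `i`
-/

namespace Pool.Agent.Helper37.Ci

namespace RegCost

variable {κ : ℕ → ℝ}

/-- The submonoid of positive integers coprime to `q`. -/
def coprimeMonoid (q : ℕ) : Submonoid ℕ where
  carrier := {m | 1 ≤ m ∧ Nat.Coprime m q}
  mul_mem' := fun {_ _} ha hb => ⟨Nat.mul_pos ha.1 hb.1, Nat.Coprime.mul_left ha.2 hb.2⟩
  one_mem' := ⟨Nat.le_refl 1, Nat.coprime_one_left q⟩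

/-- The submonoid of positive integers. -/
def posMonoid : Submonoid ℕ where
  carrier := {m | 1 ≤ m}
  mul_mem' := fun {_ _} ha hb => Nat.mul_pos ha hb
  one_mem' := Nat.le_refl 1

/-- Conclusion from power bounds on a submonoid. -/
theorem conclude_power {i : ℕ} {θ : ℝ} (hθi : θ ≤ i) (S : Submonoid ℕ)
    (hS : ∀ m ∈ S, 1 ≤ m)
    (hup : ∀ t : ℝ, t < θ → ∃ C : ℝ, ∀ m ∈ S, κ m * (m : ℝ) ^ t ≤ C)
    (hlow : ∀ m ∈ S, 1 ≤ κ m * (m : ℝ) ^ θ)
    {r n : ℕ} {d : Fin r → ℕ} (hd : ∀ j, d j ∈ S) (hs : SysIneq n d κ) :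
    n ≤ ∑ j, d j ^ i := by
  refine final_lemma' S hS hd (fun m hm m' hm' hdm =>
    hs m m' (fun j => hS _ (hm' j)) hdm (hS m hm)) (fun ε hε => ?_)
  obtain ⟨C, hC⟩ := hup (θ - ε) (by linarith)
  refine ⟨fun m => (m : ℝ) ^ (θ - ε), C, 1, one_pos, ?_, ?_, ?_, hC, ?_⟩
  · intro m hm
    have hm' : (0 : ℝ) < m := by exact_mod_cast hS m hm
    positivity
  · intro a _ b _
    beta_reduce
    rw [Nat.cast_mul, Real.mul_rpow (by positivity) (by positivity)]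
  · intro m hm
    have hm' : (1 : ℝ) ≤ m := by exact_mod_cast hS m hm
    rw [← Real.rpow_natCast]
    exact Real.rpow_le_rpow_of_exponent_le hm' (by linarith)
  · intro m hm
    have hm' : (0 : ℝ) < m := by exact_mod_cast hS m hm
    have h1 := hlow m hm
    rw [mul_assoc, ← Real.rpow_add hm', sub_add_cancel]
    exact h1

/-- Conclusion when the critical prime is the base `p`. -/
theorem conclude_prime (h : RegCost κ) {i p : ℕ} (hp : p.Prime) {τ : ℝ} (hτi : τ ≤ i)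
    (hbase : ∀ m k : ℕ, 1 ≤ m → κ (p ^ k * m) = ((p : ℝ) ^ (-τ)) ^ k * κ m)
    {θ : ℝ} (hθi : θ ≤ i)
    (hup : ∀ t : ℝ, t < θ → ∃ C : ℝ, ∀ m : ℕ, 1 ≤ m → κ m * (m : ℝ) ^ t ≤ C)
    (hlow : ∀ m : ℕ, 1 ≤ m → Nat.Coprime m p → 1 ≤ κ m * (m : ℝ) ^ θ)
    {r n : ℕ} {d : Fin r → ℕ} (hd : ∀ j, 0 < d j) (hs : SysIneq n d κ) :
    n ≤ ∑ j, d j ^ i := by
  have hp2 := hp.two_le
  have hpR : (1 : ℝ) < p := by exact_mod_cast (by omega : 1 < p)
  have hp0 : (0 : ℝ) < p := by linarith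
  have : Fact p.Prime := ⟨hp⟩
  have hdec : ∀ m : ℕ, 1 ≤ m → ∃ w : ℕ, 1 ≤ w ∧ Nat.Coprime w p ∧ w ≤ m ∧
      m = p ^ (padicValNat p m) * w := by
    intro m hm
    obtain ⟨v, w, hw, hmw⟩ := Nat.exists_eq_pow_mul_and_not_dvd (by omega : m ≠ 0) p hp.ne_one
    have hw1 : 1 ≤ w := by
      rcases Nat.eq_zero_or_pos w with h0 | h0
      · rw [h0] at hw; simp at hw
      · exact h0
    have hval : padicValNat p m = v := by
      rw [hmw, padicValNat.mul (by positivity) (by omega),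
        padicValNat.prime_pow, padicValNat.eq_zero_of_not_dvd hw, add_zero]
    refine ⟨w, hw1, ((Nat.Prime.coprime_iff_not_dvd hp).mpr hw).symm, ?_, by rw [hval]; exact hmw⟩
    rw [hmw]
    exact Nat.le_mul_of_pos_left _ (by positivity)
  refine final_lemma' posMonoid (fun m hm => hm) (fun j => hd j) (fun m hm m' hm' hdm =>
    hs m m' hm' hdm hm) (fun ε hε => ?_)
  obtain ⟨C, hC⟩ := hup (θ - ε) (by linarith)
  -- `ψ` on decomposed numbers
  have hψ : ∀ v w : ℕ, 1 ≤ w →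
      ((p ^ v * w : ℕ) : ℝ) ^ (θ - ε) * ((p : ℝ) ^ (τ - (θ - ε))) ^ v
        = ((p : ℝ) ^ τ) ^ v * (w : ℝ) ^ (θ - ε) := by
    intro v w hw
    have hw' : (0 : ℝ) < w := by exact_mod_cast hw
    have h1 : ((p : ℝ) ^ v) ^ (θ - ε) * ((p : ℝ) ^ (τ - (θ - ε))) ^ v = ((p : ℝ) ^ τ) ^ v := by
      rw [← Real.rpow_natCast, ← Real.rpow_natCast, ← Real.rpow_natCast, ← Real.rpow_mul hp0.le,
        ← Real.rpow_mul hp0.le, ← Real.rpow_mul hp0.le, ← Real.rpow_add hp0]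
      congr 1
      ring
    push_cast
    rw [Real.mul_rpow (by positivity) hw'.le, mul_right_comm, h1]
  have hτneg : ∀ v : ℕ, ((p : ℝ) ^ (-τ)) ^ v * ((p : ℝ) ^ τ) ^ v = 1 := by
    intro v
    rw [← mul_pow, ← Real.rpow_add hp0, neg_add_cancel, Real.rpow_zero, one_pow]
  refine ⟨fun m => (m : ℝ) ^ (θ - ε) * ((p : ℝ) ^ (τ - (θ - ε))) ^ (padicValNat p m),
    C, 1, one_pos, ?_, ?_, ?_, ?_, ?_⟩
  · intro m hm
    have hm' : (0 : ℝ) < m := by
      have : 1 ≤ m := hm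
      exact_mod_cast this
    positivity
  · intro x hx y hy
    beta_reduce
    have hx' : 1 ≤ x := hx
    have hy' : 1 ≤ y := hy
    rw [Nat.cast_mul, Real.mul_rpow (by positivity) (by positivity),
      padicValNat.mul (by omega) (by omega), pow_add]
    ring
  · intro m hm
    beta_reduce
    obtain ⟨w, hw, hcop, hwm, hmeq⟩ := hdec m hm
    have hw' : (1 : ℝ) ≤ w := by exact_mod_cast hw
    have key : (m : ℝ) ^ (θ - ε) * ((p : ℝ) ^ (τ - (θ - ε))) ^ (padicValNat p m)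
        = ((p : ℝ) ^ τ) ^ (padicValNat p m) * (w : ℝ) ^ (θ - ε) := by
      rw [← hψ _ w hw, ← hmeq]
    have key2 : (m : ℝ) ^ i = ((p : ℝ) ^ i) ^ (padicValNat p m) * (w : ℝ) ^ i := by
      conv_lhs => rw [hmeq]
      push_cast
      rw [mul_pow, ← pow_mul, ← pow_mul, mul_comm i]
    rw [key, key2]
    have h1 : (p : ℝ) ^ τ ≤ (p : ℝ) ^ i := by
      rw [← Real.rpow_natCast]
      exact Real.rpow_le_rpow_of_exponent_le hpR.le hτi
    have h2 : (w : ℝ) ^ (θ - ε) ≤ (w : ℝ) ^ i := by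
      rw [← Real.rpow_natCast]
      exact Real.rpow_le_rpow_of_exponent_le hw' (by linarith)
    exact mul_le_mul (pow_le_pow_left₀ (by positivity) h1 _) h2 (by positivity) (by positivity)
  · intro m hm
    beta_reduce
    obtain ⟨w, hw, hcop, hwm, hmeq⟩ := hdec m hm
    have key : (m : ℝ) ^ (θ - ε) * ((p : ℝ) ^ (τ - (θ - ε))) ^ (padicValNat p m)
        = ((p : ℝ) ^ τ) ^ (padicValNat p m) * (w : ℝ) ^ (θ - ε) := by
      rw [← hψ _ w hw, ← hmeq]
    have h1 : κ m = ((p : ℝ) ^ (-τ)) ^ (padicValNat p m) * κ w := by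
      conv_lhs => rw [hmeq]
      exact hbase w _ hw
    rw [key, h1]
    calc ((p : ℝ) ^ (-τ)) ^ (padicValNat p m) * κ w *
          (((p : ℝ) ^ τ) ^ (padicValNat p m) * (w : ℝ) ^ (θ - ε))
        = (((p : ℝ) ^ (-τ)) ^ (padicValNat p m) * ((p : ℝ) ^ τ) ^ (padicValNat p m))
            * (κ w * (w : ℝ) ^ (θ - ε)) := by ring
      _ = κ w * (w : ℝ) ^ (θ - ε) := by rw [hτneg, one_mul]
      _ ≤ C := hC w hw
  · intro m hm
    beta_reduce
    obtain ⟨w, hw, hcop, hwm, hmeq⟩ := hdec m hm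
    have hw0 : (0 : ℝ) < w := by exact_mod_cast hw
    have key : (m : ℝ) ^ (θ - ε) * ((p : ℝ) ^ (τ - (θ - ε))) ^ (padicValNat p m)
        = ((p : ℝ) ^ τ) ^ (padicValNat p m) * (w : ℝ) ^ (θ - ε) := by
      rw [← hψ _ w hw, ← hmeq]
    have h1 : κ m = ((p : ℝ) ^ (-τ)) ^ (padicValNat p m) * κ w := by
      conv_lhs => rw [hmeq]
      exact hbase w _ hw
    have h2 := hlow w hw hcop
    have h3 : (w : ℝ) ^ ε ≤ (m : ℝ) ^ ε := by
      apply Real.rpow_le_rpow (by positivity) _ hε.le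
      exact_mod_cast hwm
    have h4 : (w : ℝ) ^ θ = (w : ℝ) ^ (θ - ε) * (w : ℝ) ^ ε := by
      rw [← Real.rpow_add hw0, sub_add_cancel]
    rw [key, h1]
    calc (1 : ℝ) ≤ κ w * (w : ℝ) ^ θ := h2
      _ = (κ w * (w : ℝ) ^ (θ - ε)) * (w : ℝ) ^ ε := by rw [h4]; ring
      _ ≤ (κ w * (w : ℝ) ^ (θ - ε)) * (m : ℝ) ^ ε :=
          mul_le_mul_of_nonneg_left h3 (mul_nonneg (h.nonneg w hw) (by positivity))
      _ = (((p : ℝ) ^ (-τ)) ^ (padicValNat p m) * ((p : ℝ) ^ τ) ^ (padicValNat p m))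
            * (κ w * (w : ℝ) ^ (θ - ε)) * (m : ℝ) ^ ε := by rw [hτneg, one_mul]
      _ = _ := by ring

/-- The data of a regularised cost in a `C_i` field. -/
structure Full (i : ℕ) (κ : ℕ → ℝ) : Prop extends RegCost κ where
  lb : ∀ m, 1 ≤ m → 1 ≤ κ m * (m : ℝ) ^ i
  powm : ∀ m k, 1 ≤ m → κ (m ^ k) = κ m ^ k

theorem Full.pos {i : ℕ} (h : Full i κ) {m : ℕ} (hm : 1 ≤ m) : 0 < κ m := by
  have h1 := h.lb m hm
  have hm' : (0 : ℝ) < (m : ℝ) ^ i := by positivity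
  by_contra hcon
  have : κ m * (m : ℝ) ^ i ≤ 0 := mul_nonpos_of_nonpos_of_nonneg (not_lt.mp hcon) hm'.le
  linarith

/-- The exponent of a prime. -/
noncomputable def tau (κ : ℕ → ℝ) (p : ℕ) : ℝ := - Real.log (κ p) / Real.log p

theorem Full.tau_spec {i : ℕ} (h : Full i κ) {p : ℕ} (hp : 2 ≤ p) :
    κ p = (p : ℝ) ^ (-(tau κ p)) ∧ 0 ≤ tau κ p ∧ tau κ p ≤ i := by
  have hpR : (1 : ℝ) < p := by exact_mod_cast (by omega : 1 < p)
  have hp0 : (0 : ℝ) < p := by linarith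
  have hlog : 0 < Real.log p := Real.log_pos hpR
  have hκ := h.pos (by omega : 1 ≤ p)
  refine ⟨?_, ?_, ?_⟩
  · rw [Real.rpow_def_of_pos hp0, tau, neg_div, neg_neg, mul_div_cancel₀ _ hlog.ne',
      Real.exp_log hκ]
  · rw [tau]
    apply div_nonneg _ hlog.le
    have := Real.log_nonpos hκ.le (h.ub p (by omega))
    linarith
  · rw [tau, div_le_iff₀ hlog]
    have h4 := h.lb p (by omega)
    have h5 : 0 ≤ Real.log (κ p * (p : ℝ) ^ i) := Real.log_nonneg h4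
    rw [Real.log_mul hκ.ne' (by positivity), Real.log_pow] at h5
    linarith

/-- The localised cost at a prime: basic data. -/
theorem Full.loc_data {i : ℕ} (h : Full i κ) {p : ℕ} (hp : 2 ≤ p) :
    RegCost (loc κ p) ∧ loc κ p 1 = 1 ∧
      (∀ m k : ℕ, 1 ≤ m → loc κ p (p ^ k * m) = ((p : ℝ) ^ (-(tau κ p))) ^ k * loc κ p m) ∧
      (∀ t ∈ bset (loc κ p), t ≤ tau κ p) := by
  have hp1 : 1 ≤ p := by omega
  have hpos := h.pos hp1
  have hpR : (1 : ℝ) < p := by exact_mod_cast (by omega : 1 < p)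
  have hp0 : (0 : ℝ) < p := by linarith
  have h1 := h.toRegCost.loc_regCost hp1 hpos
  have h2 : loc κ p 1 = 1 := loc_one hpos (fun t => h.powm p t hp1)
  have h3 : ∀ m k : ℕ, 1 ≤ m →
      loc κ p (p ^ k * m) = ((p : ℝ) ^ (-(tau κ p))) ^ k * loc κ p m := by
    intro m k hm
    rw [h.toRegCost.loc_base_pow hp1 hpos hm, ← (h.tau_spec hp).1]
  refine ⟨h1, h2, h3, ?_⟩
  rintro t ⟨C, hC⟩
  by_contra hcon
  push Not at hcon
  set τ := tau κ p with hτ
  have hr : 1 < (p : ℝ) ^ (t - τ) := Real.one_lt_rpow hpR (by linarith)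
  obtain ⟨k, hk⟩ := pow_unbounded_of_one_lt C hr
  have h4 := hC (p ^ k) (Nat.one_le_pow _ _ hp1)
  have h5 := h3 1 k le_rfl
  rw [mul_one, h2, mul_one] at h5
  rw [h5] at h4
  have h6 : ((p : ℝ) ^ (-τ)) ^ k * ((p ^ k : ℕ) : ℝ) ^ t = ((p : ℝ) ^ (t - τ)) ^ k := by
    push_cast
    rw [← Real.rpow_natCast ((p : ℝ) ^ (-τ)), ← Real.rpow_natCast ((p : ℝ) ^ (t - τ)),
      ← Real.rpow_natCast (p : ℝ) k, ← Real.rpow_mul hp0.le, ← Real.rpow_mul hp0.le,
      ← Real.rpow_mul hp0.le, ← Real.rpow_add hp0]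
    congr 1
    ring
  rw [h6] at h4
  linarith

/-- Two primes: for every prime `p` there is a prime `q ≠ p` such that the bound holds for all
systems of degrees prime to `q`. -/
theorem Full.two_primes {i : ℕ} (h : Full i κ) {p : ℕ} (hp : p.Prime) :
    ∃ q : ℕ, q.Prime ∧ q ≠ p ∧ ∀ (r n : ℕ) (d : Fin r → ℕ), (∀ j, 0 < d j) →
      (∀ j, Nat.Coprime (d j) q) → SysIneq n d κ → n ≤ ∑ j, d j ^ i := by
  have hp1 : 1 ≤ p := hp.one_lt.le
  have hpos := h.pos hp1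
  obtain ⟨h1, h2, h3, h4⟩ := h.loc_data hp.two_le
  obtain ⟨-, hτ0, hτi⟩ := h.tau_spec hp.two_le
  set τ := tau κ p with hτ
  have hbdd : BddAbove (bset (loc κ p)) := ⟨τ, h4⟩
  obtain ⟨q, hq, hqlow⟩ := h1.exists_prime h2 hbdd
  set θ := sSup (bset (loc κ p)) with hθ
  have hθτ : θ ≤ τ := csSup_le ⟨0, h1.zero_mem_bset⟩ h4
  have hθ0 : 0 ≤ θ := le_csSup hbdd h1.zero_mem_bset
  by_cases hqp : q = p
  · subst hqp
    obtain ⟨q', hq', hne⟩ : ∃ q' : ℕ, q'.Prime ∧ q' ≠ q := by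
      by_cases h2 : q = 2
      · exact ⟨3, Nat.prime_three, by omega⟩
      · exact ⟨2, Nat.prime_two, fun h => h2 h.symm⟩
    refine ⟨q', hq', hne, fun r n d hd _ hs => ?_⟩
    exact h1.conclude_prime hq hτi h3 (hθτ.trans hτi)
      (fun t ht => h1.mem_bset_of_lt ht) hqlow hd (h.toRegCost.loc_system hp1 hpos hs)
  · refine ⟨q, hq, hqp, fun r n d hd hcop hs => ?_⟩
    refine conclude_power (κ := loc κ p) (hθτ.trans hτi) (coprimeMonoid q) (fun m hm => hm.1)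
      (fun t ht => ?_) (fun m hm => hqlow m hm.1 hm.2) (fun j => ⟨hd j, hcop j⟩)
      (h.toRegCost.loc_system hp1 hpos hs)
    obtain ⟨C, hC⟩ := h1.mem_bset_of_lt ht
    exact ⟨C, fun m hm => hC m hm.1⟩

/-- The case in which the extremal bound is attained. -/
theorem Full.extremal {i : ℕ} (h : Full i κ)
    (H : ∀ p : ℕ, p.Prime → ∃ e : ℕ, 2 ≤ e ∧ (Nat.Coprime e p ∨ ∃ a, e = p ^ a) ∧
      κ e * (e : ℝ) ^ i ≤ 1)
    {r n : ℕ} {d : Fin r → ℕ} (hd : ∀ j, 0 < d j) (hs : SysIneq n d κ) :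
    n ≤ ∑ j, d j ^ i := by
  by_cases hpp : ∃ p a e : ℕ, p.Prime ∧ 2 ≤ e ∧ e = p ^ a ∧ κ e * (e : ℝ) ^ i ≤ 1
  · obtain ⟨p, a, e, hp, he, hea, hκe⟩ := hpp
    have hp1 : 1 ≤ p := hp.one_lt.le
    have hpR : (1 : ℝ) < p := by exact_mod_cast hp.one_lt
    have hp0 : (0 : ℝ) < p := by linarith
    have hpos := h.pos hp1
    have ha : a ≠ 0 := by rintro rfl; simp at hea; omega
    -- the exponent of `p` is `i`
    have hκp : κ p * (p : ℝ) ^ i ≤ 1 := by
      rw [hea, h.powm p a hp1] at hκe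
      push_cast at hκe
      have h1 : (κ p * (p : ℝ) ^ i) ^ a ≤ 1 := by
        calc (κ p * (p : ℝ) ^ i) ^ a = κ p ^ a * ((p : ℝ) ^ a) ^ i := by
              rw [mul_pow, ← pow_mul, ← pow_mul, mul_comm i a]
          _ ≤ 1 := hκe
      by_contra hcon
      push Not at hcon
      exact absurd h1 (not_le.mpr (one_lt_pow₀ hcon ha))
    have hκp' : κ p * (p : ℝ) ^ i = 1 := le_antisymm hκp (h.lb p hp1)
    obtain ⟨h1, h2, h3, h4⟩ := h.loc_data hp.two_le
    obtain ⟨hτeq, hτ0, hτi⟩ := h.tau_spec hp.two_le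
    set τ := tau κ p with hτ
    have hbdd : BddAbove (bset (loc κ p)) := ⟨τ, h4⟩
    obtain ⟨q, hq, hqlow⟩ := h1.exists_prime h2 hbdd
    set θ := sSup (bset (loc κ p)) with hθ
    have hθτ : θ ≤ τ := csSup_le ⟨0, h1.zero_mem_bset⟩ h4
    have hθ0 : 0 ≤ θ := le_csSup hbdd h1.zero_mem_bset
    by_cases hqp : q = p
    · subst hqp
      exact h1.conclude_prime hq hτi h3 (hθτ.trans hτi)
        (fun t ht => h1.mem_bset_of_lt ht) hqlow hd (h.toRegCost.loc_system hp1 hpos hs)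
    · -- then `θ = i`
      have h5 := hqlow p hp1 ((Nat.coprime_primes hp hq).mpr (fun h => hqp h.symm))
      have h6 := h3 1 1 le_rfl
      rw [pow_one, mul_one, h2, mul_one, pow_one, ← hτeq] at h6
      rw [h6] at h5
      have hθi : (i : ℝ) ≤ θ := by
        by_contra hcon
        push Not at hcon
        have h7 : (p : ℝ) ^ θ < (p : ℝ) ^ (i : ℝ) := Real.rpow_lt_rpow_of_exponent_lt hpR hcon
        rw [Real.rpow_natCast] at h7
        have h8 : κ p * (p : ℝ) ^ θ < κ p * (p : ℝ) ^ i := mul_lt_mul_of_pos_left h7 hpos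
        linarith
      have hθi' : θ = i := le_antisymm (hθτ.trans hτi) hθi
      refine conclude_power (κ := loc κ p) (hθτ.trans hτi) posMonoid (fun m hm => hm)
        (fun t ht => h1.mem_bset_of_lt ht) (fun m hm => ?_) (fun j => hd j)
        (h.toRegCost.loc_system hp1 hpos hs)
      rw [hθi', Real.rpow_natCast]
      have hm1 : 1 ≤ m := hm
      have h9 := (h.toRegCost.loc_tendsto hp1 hpos hm1).mul_const ((m : ℝ) ^ i)
      refine ge_of_tendsto' h9 (fun t => ?_)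
      have h10 := h.lb (p ^ t * m) (Nat.mul_pos (Nat.one_le_pow _ _ hp1) hm1)
      have h11 : (κ p * (p : ℝ) ^ i) ^ t = 1 := by rw [hκp', one_pow]
      have hκpt : 0 < κ p ^ t := by positivity
      rw [div_mul_eq_mul_div, le_div_iff₀ hκpt, one_mul]
      push_cast at h10
      have hpt : (0 : ℝ) < ((p : ℝ) ^ t) ^ i := by positivity
      have h12 : κ p ^ t * ((p : ℝ) ^ t) ^ i = 1 := by
        rw [← h11, mul_pow, ← pow_mul, ← pow_mul, mul_comm t i]
      have h13 : κ p ^ t * ((p : ℝ) ^ t) ^ i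
          ≤ κ (p ^ t * m) * (m : ℝ) ^ i * ((p : ℝ) ^ t) ^ i := by
        rw [h12]
        calc (1 : ℝ) ≤ κ (p ^ t * m) * ((p : ℝ) ^ t * m) ^ i := h10
          _ = _ := by rw [mul_pow]; ring
      exact le_of_mul_le_mul_right h13 hpt
  · push Not at hpp
    have H' : ∀ p : ℕ, p.Prime → ∃ e : ℕ, 2 ≤ e ∧ Nat.Coprime e p ∧ κ e * (e : ℝ) ^ i ≤ 1 := by
      intro p hp
      obtain ⟨e, he, hor, hS⟩ := H p hp
      rcases hor with h | ⟨a, ha⟩
      · exact ⟨e, he, h, hS⟩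
      · exact absurd hS (not_le.mpr (hpp p a e hp he ha))
    obtain ⟨e, he, -, hn⟩ := H' 2 Nat.prime_two
    refine conclude_power (κ := κ) (θ := i) le_rfl posMonoid (fun m hm => hm)
      (fun t ht => ?_) (fun m hm => ?_) (fun j => hd j) hs
    · rcases le_or_gt t 0 with h0 | h0
      · exact h.toRegCost.bset_mono h0 h.toRegCost.zero_mem_bset
      · obtain ⟨C, -, hC⟩ := h.toRegCost.family he h0 ht (by rw [Real.rpow_natCast]; exact hn)
          (fun p hp _ => by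
            obtain ⟨u, hu, hcop, hS⟩ := H' p hp
            exact ⟨u, hu, hcop, by rw [Real.rpow_natCast]; exact hS⟩)
        exact ⟨C, fun m hm => hC m hm⟩
    · rw [Real.rpow_natCast]; exact h.lb m hm

end RegCost

open MvPolynomial

universe u

variable {K : Type u} [Field K]

theorem rawCost_kap {i : ℕ} (hac : ¬ IsAlgClosed K) (hK : CiS K i) : RawCost i (kap K) where
  ub _ hm := kap_le_one hm
  lb _ hm := one_le_kap_mul hac hK hm
  mul _ _ ha hb := kap_mul ha hb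
  add _ _ ha hb := kap_add ha hb

theorem full_reg {i : ℕ} (hac : ¬ IsAlgClosed K) (hK : CiS K i) :
    RegCost.Full i (RawCost.reg (kap K)) where
  toRegCost := (rawCost_kap hac hK).regCost
  lb _ hm := (rawCost_kap hac hK).reg_lb hm
  powm _ k hm := (rawCost_kap hac hK).reg_pow hm k

theorem sysIneq_reg {i : ℕ} (hac : ¬ IsAlgClosed K) (hK : CiS K i) {r n : ℕ} {d : Fin r → ℕ}
    (f : Fin r → MvPolynomial (Fin n) K) (hf : ∀ j, (f j).IsHomogeneous (d j))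
    (hf0 : ∀ x : Fin n → K, (∀ j, eval x (f j) = 0) → x = 0) (hn1 : 1 ≤ n) :
    SysIneq n d (RawCost.reg (kap K)) :=
  (rawCost_kap hac hK).reg_system
    (fun m m' hm' hdm _ => kap_system f hf hf0 hn1 m m' hm' hdm)

/-- Two primes, for fields. -/
theorem two_primes_field {i : ℕ} (hK : CiS K i) {p : ℕ} (hp : p.Prime) :
    ∃ q : ℕ, q.Prime ∧ q ≠ p ∧ ∀ (n r : ℕ) (d : Fin r → ℕ) (f : Fin r → MvPolynomial (Fin n) K),
      (∀ j, 0 < d j) → (∀ j, Nat.Coprime (d j) q) → (∀ j, (f j).IsHomogeneous (d j)) →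
      (∀ x : Fin n → K, (∀ j, eval x (f j) = 0) → x = 0) → n ≤ ∑ j, d j ^ i := by
  by_cases hac : IsAlgClosed K
  · obtain ⟨q, hq, hne⟩ : ∃ q : ℕ, q.Prime ∧ q ≠ p := by
      by_cases h2 : p = 2
      · exact ⟨3, Nat.prime_three, by omega⟩
      · exact ⟨2, Nat.prime_two, fun h => h2 h.symm⟩
    exact ⟨q, hq, hne, fun n r d f hd _ hf hf0 =>
      (le_of_isAlgClosed hd f hf hf0).trans (r_le_sum hd)⟩
  · obtain ⟨q, hq, hne, H⟩ := (full_reg hac hK).two_primes hp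
    refine ⟨q, hq, hne, fun n r d f hd hcop hf hf0 => ?_⟩
    rcases Nat.eq_zero_or_pos n with hn0 | hn1
    · omega
    · exact H r n d hd hcop (sysIneq_reg hac hK f hf hf0 hn1)

/-- Powers of a common integer, for fields. -/
theorem common_base_field {i : ℕ} (hK : CiS K i) {n r c : ℕ} {a : Fin r → ℕ}
    {d : Fin r → ℕ} (f : Fin r → MvPolynomial (Fin n) K) (hd : ∀ j, 0 < d j)
    (hda : ∀ j, d j = c ^ a j)
    (hf : ∀ j, (f j).IsHomogeneous (d j))
    (hf0 : ∀ x : Fin n → K, (∀ j, eval x (f j) = 0) → x = 0) : n ≤ ∑ j, d j ^ i := by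
  by_cases hac : IsAlgClosed K
  · exact (le_of_isAlgClosed hd f hf hf0).trans (r_le_sum hd)
  rcases Nat.eq_zero_or_pos n with hn0 | hn1
  · omega
  -- we may assume `1 ≤ c`
  wlog hc : 1 ≤ c generalizing c a
  · have hc0 : c = 0 := by omega
    refine this (c := 1) (a := fun _ => 0) (fun j => ?_) le_rfl
    have h1 := hda j
    have h2 := hd j
    rw [h1, hc0] at h2
    rcases Nat.eq_zero_or_pos (a j) with h3 | h3
    · rw [h1, h3]; simp
    · rw [zero_pow (by omega)] at h2; omega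
  have h := full_reg hac hK
  set κ := RawCost.reg (kap K) with hκ
  have hpos : 0 < κ c := h.pos hc
  set A := ∑ j, a j with hA
  have haA : ∀ j, a j ≤ A := fun j => Finset.single_le_sum (fun _ _ => Nat.zero_le _)
    (Finset.mem_univ j)
  have hs := sysIneq_reg hac hK f hf hf0 hn1 (c ^ A) (fun j => c ^ (A - a j))
    (fun j => Nat.one_le_pow _ _ hc)
    (fun j => by rw [hda j, ← pow_add, Nat.add_sub_cancel' (haA j)]) (Nat.one_le_pow _ _ hc)
  rw [← hκ] at hs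
  simp only [h.powm c _ hc] at hs
  have hlb := h.lb c hc
  have hkey : ∀ j, κ c ^ (A - a j) ≤ κ c ^ A * ((d j ^ i : ℕ) : ℝ) := by
    intro j
    have h1 : (1 : ℝ) ≤ (κ c * (c : ℝ) ^ i) ^ (a j) := one_le_pow₀ hlb
    have h2 : ((d j ^ i : ℕ) : ℝ) = ((c : ℝ) ^ i) ^ (a j) := by
      rw [hda j]; push_cast; rw [← pow_mul, ← pow_mul, mul_comm]
    calc κ c ^ (A - a j) = κ c ^ (A - a j) * 1 := (mul_one _).symm
      _ ≤ κ c ^ (A - a j) * (κ c * (c : ℝ) ^ i) ^ (a j) :=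
          mul_le_mul_of_nonneg_left h1 (by positivity)
      _ = κ c ^ (A - a j + a j) * ((c : ℝ) ^ i) ^ (a j) := by rw [mul_pow, pow_add]; ring
      _ = _ := by rw [Nat.sub_add_cancel (haA j), h2]
  have h3 : (n : ℝ) * κ c ^ A ≤ ((∑ j, d j ^ i : ℕ) : ℝ) * κ c ^ A := by
    calc (n : ℝ) * κ c ^ A ≤ ∑ j, κ c ^ (A - a j) := hs
      _ ≤ ∑ j, κ c ^ A * ((d j ^ i : ℕ) : ℝ) := Finset.sum_le_sum (fun j _ => hkey j)
      _ = _ := by rw [← Finset.mul_sum]; push_cast; ring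
  have h4 := le_of_mul_le_mul_right h3 (by positivity)
  exact_mod_cast h4

/-- The extremal case, for fields. -/
theorem extremal_field {i : ℕ} (hK : CiS K i)
    (H : ∀ p : ℕ, p.Prime → ∃ e N : ℕ, 2 ≤ e ∧ 1 ≤ N ∧ (Nat.Coprime e p ∨ ∃ a, e = p ^ a) ∧
      Sys K (N * e ^ i) N e)
    {n r : ℕ} {d : Fin r → ℕ} (f : Fin r → MvPolynomial (Fin n) K) (hd : ∀ j, 0 < d j)
    (hf : ∀ j, (f j).IsHomogeneous (d j))
    (hf0 : ∀ x : Fin n → K, (∀ j, eval x (f j) = 0) → x = 0) : n ≤ ∑ j, d j ^ i := by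
  by_cases hac : IsAlgClosed K
  · exact (le_of_isAlgClosed hd f hf hf0).trans (r_le_sum hd)
  rcases Nat.eq_zero_or_pos n with hn0 | hn1
  · omega
  refine (full_reg hac hK).extremal (fun p hp => ?_) hd (sysIneq_reg hac hK f hf hf0 hn1)
  obtain ⟨e, N, he, hN, hor, hS⟩ := H p hp
  refine ⟨e, he, hor, ?_⟩
  have hei : 1 ≤ e ^ i := Nat.one_le_pow _ _ (by omega)
  have h1 := kap_mul_le (Nat.mul_pos hN hei) hS
  have h2 := (rawCost_kap hac hK).reg_le_self (m := e) (by omega)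
  have hNR : (0 : ℝ) < N := by exact_mod_cast hN
  push_cast at h1
  have h3 : RawCost.reg (kap K) e * (e : ℝ) ^ i * N ≤ 1 * N := by
    calc RawCost.reg (kap K) e * (e : ℝ) ^ i * N ≤ kap K e * (e : ℝ) ^ i * N := by
          have : (0 : ℝ) < (e : ℝ) ^ i := by positivity
          gcongr
      _ = kap K e * (N * (e : ℝ) ^ i) := by ring
      _ ≤ N := h1
      _ = 1 * N := (one_mul _).symm
  exact le_of_mul_le_mul_right h3 hNR

end Pool.Agent.Helper37.Ci
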