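import Mathlib

/-!
# Elementary analysis of cost functions
-/

namespace Pool.Agent.Helper37.Ci

/-- The abstract properties of a cost function. -/
structure CostFn (i e : ℕ) (κ : ℕ → ℝ) : Prop where
  one_le_i : 1 ≤ i
  two_le_e : 2 ≤ e
  pos : ∀ m, 1 ≤ m → 0 < κ m
  ub : ∀ m, 1 ≤ m → κ m ≤ 1
  lb : ∀ m, 1 ≤ m → 1 ≤ κ m * (m : ℝ) ^ i
  mul : ∀ a b, 1 ≤ a → 1 ≤ b → κ (a * b) ≤ κ a * κ b
  add : ∀ a b (c : ℝ), 1 ≤ a → 1 ≤ b → κ a ≤ c → κ b ≤ c → κ (a + b) ≤ c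
  base : ∀ m, 1 ≤ m → (e : ℝ) ^ i * κ (e * m) = κ m

namespace CostFn

variable {i e : ℕ} {κ : ℕ → ℝ}

theorem base_pow (h : CostFn i e κ) (k m : ℕ) (hm : 1 ≤ m) :
    ((e : ℝ) ^ k) ^ i * κ (e ^ k * m) = κ m := by
  induction k generalizing m with
  | zero => simp
  | succ k ih =>
    have hem : 1 ≤ e * m := Nat.mul_pos (by have := h.two_le_e; omega) hm
    have h1 := ih (e * m) hem
    have h2 := h.base m hm
    have h3 : e ^ (k + 1) * m = e ^ k * (e * m) := by ring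
    rw [h3, ← h2, ← h1]
    ring

theorem pow_bound (h : CostFn i e κ) {u : ℕ} (hu : 1 ≤ u) {θ : ℝ}
    (hκ : κ u * (u : ℝ) ^ θ ≤ 1) (s : ℕ) : κ (u ^ s) * ((u : ℝ) ^ s) ^ θ ≤ 1 := by
  have huR : (0 : ℝ) < u := by exact_mod_cast hu
  induction s with
  | zero => simpa using h.ub 1 le_rfl
  | succ s ih =>
    have h1 := h.mul (u ^ s) u (Nat.pos_of_ne_zero (by positivity)) hu
    have h2 : ((u : ℝ) ^ (s + 1)) ^ θ = ((u : ℝ) ^ s) ^ θ * (u : ℝ) ^ θ := by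
      rw [pow_succ, Real.mul_rpow (by positivity) huR.le]
    rw [pow_succ u s, h2]
    have h3 : 0 < κ (u ^ s) := h.pos _ (Nat.pos_of_ne_zero (by positivity))
    have h4 : 0 < κ u := h.pos _ hu
    have h5 : 0 < ((u : ℝ) ^ s) ^ θ := by positivity
    have h6 : 0 < (u : ℝ) ^ θ := by positivity
    calc κ (u ^ s * u) * (((u : ℝ) ^ s) ^ θ * (u : ℝ) ^ θ)
        ≤ (κ (u ^ s) * κ u) * (((u : ℝ) ^ s) ^ θ * (u : ℝ) ^ θ) :=
          mul_le_mul_of_nonneg_right h1 (by positivity)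
      _ = (κ (u ^ s) * ((u : ℝ) ^ s) ^ θ) * (κ u * (u : ℝ) ^ θ) := by ring
      _ ≤ 1 := mul_le_one₀ ih (by positivity) hκ

theorem low_lemma (h : CostFn i e κ) {u : ℕ} (hu : 2 ≤ u) (hcop : Nat.Coprime u e) {θ : ℝ}
    (hθ0 : 0 < θ) (hθi : θ < i) (hκu : κ u * (u : ℝ) ^ θ ≤ 1) :
    ∃ C : ℝ, 0 < C ∧ ∀ m, 1 ≤ m → κ m * (m : ℝ) ^ θ ≤ C := by
  have he := h.two_le_e
  -- choose `Q`
  obtain ⟨Q, hQ2, hQcop, hQbase, hQ⟩ : ∃ Q : ℕ, 2 ≤ Q ∧ Nat.Coprime u Q ∧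
      (∀ m, 1 ≤ m → (Q : ℝ) ^ i * κ (Q * m) = κ m) ∧ (2 * (Q : ℝ)) ^ θ ≤ (Q : ℝ) ^ i := by
    have hd : 0 < (i : ℝ) - θ := by linarith
    obtain ⟨k, hk⟩ := exists_nat_gt (θ / ((i : ℝ) - θ))
    rw [div_lt_iff₀ hd] at hk
    have hk1 : 1 ≤ k := by
      rcases Nat.eq_zero_or_pos k with hk0 | hk0
      · rw [hk0] at hk; simp at hk; linarith
      · exact hk0
    refine ⟨e ^ k, ?_, Nat.Coprime.pow_right k hcop, ?_, ?_⟩
    · calc 2 ≤ e := he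
        _ = e ^ 1 := (pow_one e).symm
        _ ≤ e ^ k := Nat.pow_le_pow_right (by omega) hk1
    · intro m hm
      have := h.base_pow k m hm
      push_cast
      exact this
    · have heR : (2 : ℝ) ≤ (e : ℝ) := by exact_mod_cast he
      have heR0 : (0 : ℝ) < (e : ℝ) := by linarith
      push_cast
      rw [Real.mul_rpow (by norm_num) (by positivity)]
      have h1 : (2 : ℝ) ^ θ ≤ ((e : ℝ) ^ k) ^ ((i : ℝ) - θ) := by
        rw [← Real.rpow_natCast, ← Real.rpow_mul heR0.le]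
        calc (2 : ℝ) ^ θ ≤ (2 : ℝ) ^ ((k : ℝ) * ((i : ℝ) - θ)) :=
              Real.rpow_le_rpow_of_exponent_le (by norm_num) hk.le
          _ ≤ (e : ℝ) ^ ((k : ℝ) * ((i : ℝ) - θ)) :=
              Real.rpow_le_rpow (by norm_num) heR (by positivity)
      have h2 : (0 : ℝ) < ((e : ℝ) ^ k) ^ θ := by positivity
      calc (2 : ℝ) ^ θ * ((e : ℝ) ^ k) ^ θ
          ≤ ((e : ℝ) ^ k) ^ ((i : ℝ) - θ) * ((e : ℝ) ^ k) ^ θ :=
            mul_le_mul_of_nonneg_right h1 h2.le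
        _ = ((e : ℝ) ^ k) ^ ((i : ℝ) - θ + θ) := (Real.rpow_add (by positivity) _ _).symm
        _ = ((e : ℝ) ^ k) ^ i := by rw [sub_add_cancel, Real.rpow_natCast]
  have hQR : (2 : ℝ) ≤ (Q : ℝ) := by exact_mod_cast hQ2
  have huR : (2 : ℝ) ≤ (u : ℝ) := by exact_mod_cast hu
  set C : ℝ := ((Q : ℝ) ^ 2 * u) ^ θ with hC
  have hC0 : 0 < C := by rw [hC]; positivity
  refine ⟨C, hC0, fun m => ?_⟩
  induction m using Nat.strong_induction_on with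
  | _ m ih =>
  intro hm
  have hmR : (1 : ℝ) ≤ (m : ℝ) := by exact_mod_cast hm
  have hmθ : 0 < (m : ℝ) ^ θ := by positivity
  by_cases hsmall : m ≤ Q ^ 2 * u
  · have h1 : (m : ℝ) ≤ (Q : ℝ) ^ 2 * u := by exact_mod_cast hsmall
    calc κ m * (m : ℝ) ^ θ ≤ 1 * (m : ℝ) ^ θ :=
          mul_le_mul_of_nonneg_right (h.ub m hm) hmθ.le
      _ = (m : ℝ) ^ θ := one_mul _
      _ ≤ C := Real.rpow_le_rpow (by linarith) h1 hθ0.le
  · push Not at hsmall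
    -- the power of `u`
    set M := m / Q ^ 2 with hM
    have hQ20 : 0 < Q ^ 2 := by positivity
    have hM0 : M ≠ 0 := by
      rw [hM]
      have : 0 < m / Q ^ 2 := Nat.div_pos (by nlinarith) hQ20
      omega
    set s := Nat.log u M with hs
    have hs1 : u ^ s ≤ M := Nat.pow_log_le_self u hM0
    have hs2 : M < u ^ (s + 1) := Nat.lt_pow_succ_log_self (by omega) M
    have hs1' : u ^ s * Q ^ 2 ≤ m := (Nat.le_div_iff_mul_le hQ20).mp hs1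
    have hs2' : m < u ^ (s + 1) * Q ^ 2 := (Nat.div_lt_iff_lt_mul hQ20).mp hs2
    have hus : 0 < u ^ s := by positivity
    -- the digit
    obtain ⟨c, hcQ, hc⟩ : ∃ c, c < Q ∧ c * u ^ s ≡ m [MOD Q] := by
      have : NeZero Q := ⟨by omega⟩
      refine ⟨((m : ZMod Q) * ((u ^ s : ℕ) : ZMod Q)⁻¹).val, ZMod.val_lt _, ?_⟩
      rw [← ZMod.natCast_eq_natCast_iff]
      rw [Nat.cast_mul, ZMod.natCast_val, ZMod.cast_id, mul_assoc]
      rw [mul_comm (((u ^ s : ℕ) : ZMod Q)⁻¹), ZMod.coe_mul_inv_eq_one, mul_one]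
      exact Nat.Coprime.pow_left s hQcop
    have hcle : 2 * (c * u ^ s) ≤ m := by
      have h1 : c * u ^ s ≤ Q * u ^ s := Nat.mul_le_mul_right _ hcQ.le
      have h2 : 2 * (Q * u ^ s) ≤ u ^ s * Q ^ 2 := by
        have : 2 * (Q * u ^ s) ≤ Q * (Q * u ^ s) := Nat.mul_le_mul_right _ hQ2
        calc 2 * (Q * u ^ s) ≤ Q * (Q * u ^ s) := this
          _ = u ^ s * Q ^ 2 := by ring
      omega
    have hcle' : c * u ^ s ≤ m := by omega
    obtain ⟨m', hm'⟩ := (Nat.modEq_iff_dvd' hcle').mp hc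
    have hmeq : m = c * u ^ s + Q * m' := by omega
    have hQm' : m ≤ 2 * (Q * m') := by omega
    have hm'1 : 1 ≤ m' := by
      rcases Nat.eq_zero_or_pos m' with h0 | h0
      · rw [h0] at hQm'; omega
      · exact h0
    have hm'm : m' < m := by
      have : 2 * m' ≤ Q * m' := Nat.mul_le_mul_right _ hQ2
      omega
    have hm'R : (0 : ℝ) < m' := by exact_mod_cast hm'1
    have hih := ih m' hm'm hm'1
    have hQm'1 : 1 ≤ Q * m' := Nat.mul_pos (by omega) hm'1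
    -- second part
    have hpart2 : κ (Q * m') ≤ C / (m : ℝ) ^ θ := by
      rw [le_div_iff₀ hmθ]
      have h1 : (m : ℝ) ≤ 2 * (Q : ℝ) * m' := by
        have : (m : ℝ) ≤ 2 * ((Q : ℝ) * m') := by exact_mod_cast hQm'
        linarith
      have h2 : (m : ℝ) ^ θ ≤ (Q : ℝ) ^ i * (m' : ℝ) ^ θ := by
        calc (m : ℝ) ^ θ ≤ (2 * (Q : ℝ) * m') ^ θ := Real.rpow_le_rpow (by linarith) h1 hθ0.le
          _ = (2 * (Q : ℝ)) ^ θ * (m' : ℝ) ^ θ := Real.mul_rpow (by positivity) hm'R.le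
          _ ≤ (Q : ℝ) ^ i * (m' : ℝ) ^ θ := mul_le_mul_of_nonneg_right hQ (by positivity)
      have h3 := h.pos _ hQm'1
      calc κ (Q * m') * (m : ℝ) ^ θ ≤ κ (Q * m') * ((Q : ℝ) ^ i * (m' : ℝ) ^ θ) :=
            mul_le_mul_of_nonneg_left h2 h3.le
        _ = ((Q : ℝ) ^ i * κ (Q * m')) * (m' : ℝ) ^ θ := by ring
        _ = κ m' * (m' : ℝ) ^ θ := by rw [hQbase m' hm'1]
        _ ≤ C := hih
    have hmain : κ m ≤ C / (m : ℝ) ^ θ := by
      rcases Nat.eq_zero_or_pos c with hc0 | hc0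
      · rw [hc0, zero_mul, zero_add] at hmeq
        rw [hmeq] at hpart2 ⊢
        exact hpart2
      · have hpart1 : κ (c * u ^ s) ≤ C / (m : ℝ) ^ θ := by
          rw [le_div_iff₀ hmθ]
          have h1 : (m : ℝ) ≤ (u : ℝ) ^ s * ((Q : ℝ) ^ 2 * u) := by
            have : (m : ℝ) ≤ (u : ℝ) ^ (s + 1) * (Q : ℝ) ^ 2 := by exact_mod_cast hs2'.le
            calc (m : ℝ) ≤ (u : ℝ) ^ (s + 1) * (Q : ℝ) ^ 2 := this
              _ = _ := by ring
          have h2 : (m : ℝ) ^ θ ≤ ((u : ℝ) ^ s) ^ θ * C := by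
            calc (m : ℝ) ^ θ ≤ ((u : ℝ) ^ s * ((Q : ℝ) ^ 2 * u)) ^ θ :=
                  Real.rpow_le_rpow (by linarith) h1 hθ0.le
              _ = _ := Real.mul_rpow (by positivity) (by positivity)
          have h3 : κ (c * u ^ s) ≤ κ (u ^ s) := by
            have h4 := h.mul c (u ^ s) hc0 hus
            have h5 := h.ub c hc0
            have h6 := h.pos (u ^ s) hus
            nlinarith
          have h7 := h.pow_bound (by omega) hκu s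
          have h8 := h.pos (u ^ s) hus
          calc κ (c * u ^ s) * (m : ℝ) ^ θ ≤ κ (u ^ s) * (((u : ℝ) ^ s) ^ θ * C) :=
                mul_le_mul h3 h2 hmθ.le h8.le
            _ = (κ (u ^ s) * ((u : ℝ) ^ s) ^ θ) * C := by ring
            _ ≤ 1 * C := mul_le_mul_of_nonneg_right h7 hC0.le
            _ = C := one_mul C
        have h9 := h.add (c * u ^ s) (Q * m') _ (Nat.mul_pos hc0 hus) hQm'1 hpart1 hpart2
        rwa [← hmeq] at h9
    rwa [le_div_iff₀ hmθ] at hmain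

end CostFn

/-- The concluding iteration. -/
theorem final_lemma {r n : ℕ} {d : Fin r → ℕ} {κ ψ : ℕ → ℝ} (S : Submonoid ℕ)
    (hSpos : ∀ m ∈ S, 1 ≤ m) (hd : ∀ j, d j ∈ S)
    (hsys : ∀ m ∈ S, ∀ m' : Fin r → ℕ, (∀ j, m' j ∈ S) → (∀ j, d j * m' j = m) →
      (n : ℝ) * κ m ≤ ∑ j, κ (m' j))
    (hψpos : ∀ m ∈ S, 0 < ψ m) (hψmul : ∀ a ∈ S, ∀ b ∈ S, ψ (a * b) = ψ a * ψ b)
    {C c ε : ℝ} (hc : 0 < c)
    (hup : ∀ m ∈ S, κ m * ψ m ≤ C) (hlow : ∀ m ∈ S, c ≤ κ m * ψ m * (m : ℝ) ^ ε) :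
    (n : ℝ) ≤ (∑ j, ψ (d j)) * ((∏ j, d j : ℕ) : ℝ) ^ ε := by
  classical
  set P := ∏ j, d j with hP
  have hPS : P ∈ S := Submonoid.prod_mem S (fun j _ => hd j)
  have hP1 : 1 ≤ P := hSpos _ hPS
  have hPR : (0 : ℝ) < (P : ℝ) := by exact_mod_cast hP1
  set T := ∑ j, ψ (d j) with hT
  have hT0 : 0 ≤ T := Finset.sum_nonneg (fun j _ => (hψpos _ (hd j)).le)
  have hn0 : (0 : ℝ) ≤ n := by positivity
  have hC0 : 0 < C := by
    have h1 := hup 1 S.one_mem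
    have h2 := hlow 1 S.one_mem
    simp at h2
    linarith
  have key : ∀ M : ℕ, ∀ m ∈ S, κ (P ^ M * m) * ψ (P ^ M * m) * (n : ℝ) ^ M ≤ C * T ^ M := by
    intro M
    induction M with
    | zero => intro m hm; simpa using hup m hm
    | succ M ih =>
      intro m hm
      have hPM : P ^ (M + 1) * m ∈ S := S.mul_mem (S.pow_mem hPS _) hm
      set m' : Fin r → ℕ := fun j => P ^ M * ((∏ k ∈ Finset.univ.erase j, d k) * m) with hm'
      have hPj : ∀ j, (∏ k ∈ Finset.univ.erase j, d k) * m ∈ S := fun j =>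
        S.mul_mem (Submonoid.prod_mem S (fun k _ => hd k)) hm
      have hm'S : ∀ j, m' j ∈ S := fun j => S.mul_mem (S.pow_mem hPS _) (hPj j)
      have hdm : ∀ j, d j * m' j = P ^ (M + 1) * m := by
        intro j
        have h1 : d j * ∏ k ∈ Finset.univ.erase j, d k = P :=
          Finset.mul_prod_erase Finset.univ d (Finset.mem_univ j)
        calc d j * m' j = P ^ M * (d j * ∏ k ∈ Finset.univ.erase j, d k) * m := by
              rw [hm']; ring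
          _ = P ^ (M + 1) * m := by rw [h1]; ring
      have h2 := hsys _ hPM m' hm'S hdm
      have hψ := hψpos _ hPM
      calc κ (P ^ (M + 1) * m) * ψ (P ^ (M + 1) * m) * (n : ℝ) ^ (M + 1)
          = ((n : ℝ) * κ (P ^ (M + 1) * m)) * (ψ (P ^ (M + 1) * m) * (n : ℝ) ^ M) := by ring
        _ ≤ (∑ j, κ (m' j)) * (ψ (P ^ (M + 1) * m) * (n : ℝ) ^ M) :=
            mul_le_mul_of_nonneg_right h2 (by positivity)
        _ = ∑ j, ψ (d j) * (κ (m' j) * ψ (m' j) * (n : ℝ) ^ M) := by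
            rw [Finset.sum_mul]
            refine Finset.sum_congr rfl (fun j _ => ?_)
            rw [← hdm j, hψmul _ (hd j) _ (hm'S j)]
            ring
        _ ≤ ∑ j, ψ (d j) * (C * T ^ M) :=
            Finset.sum_le_sum (fun j _ =>
              mul_le_mul_of_nonneg_left (ih _ (hPj j)) (hψpos _ (hd j)).le)
        _ = C * T ^ (M + 1) := by rw [← Finset.sum_mul, ← hT]; ring
  have key2 : ∀ M : ℕ, c * (n : ℝ) ^ M ≤ C * (T * (P : ℝ) ^ ε) ^ M := by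
    intro M
    have h1 := key M 1 S.one_mem
    have h2 := hlow (P ^ M * 1) (S.mul_mem (S.pow_mem hPS _) S.one_mem)
    rw [mul_one] at h1 h2
    have h3 : (((P ^ M : ℕ)) : ℝ) ^ ε = ((P : ℝ) ^ ε) ^ M := by
      push_cast
      rw [← Real.rpow_natCast, ← Real.rpow_mul hPR.le, mul_comm, Real.rpow_mul hPR.le,
        Real.rpow_natCast]
    rw [h3] at h2
    have h4 : 0 ≤ (n : ℝ) ^ M := by positivity
    have h5 : 0 ≤ ((P : ℝ) ^ ε) ^ M := by positivity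
    calc c * (n : ℝ) ^ M ≤ κ (P ^ M) * ψ (P ^ M) * ((P : ℝ) ^ ε) ^ M * (n : ℝ) ^ M :=
          mul_le_mul_of_nonneg_right h2 h4
      _ = (κ (P ^ M) * ψ (P ^ M) * (n : ℝ) ^ M) * ((P : ℝ) ^ ε) ^ M := by ring
      _ ≤ (C * T ^ M) * ((P : ℝ) ^ ε) ^ M := mul_le_mul_of_nonneg_right h1 h5
      _ = C * (T * (P : ℝ) ^ ε) ^ M := by rw [mul_pow]; ring
  by_contra hcon
  push Not at hcon
  set U := T * (P : ℝ) ^ ε with hU
  have hU0 : 0 ≤ U := by positivity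
  rcases hU0.eq_or_lt with h0 | h0
  · have h1 := key2 1
    rw [← h0] at h1 hcon
    simp at h1
    nlinarith
  · have h1 : 1 < (n : ℝ) / U := by rw [one_lt_div h0]; exact hcon
    obtain ⟨M, hM⟩ := pow_unbounded_of_one_lt (C / c) h1
    rw [div_pow, div_lt_div_iff₀ hc (by positivity)] at hM
    have h2 := key2 M
    nlinarith

/-- The limit of `final_lemma`. -/
theorem final_lemma' {i r n : ℕ} {d : Fin r → ℕ} {κ : ℕ → ℝ} (S : Submonoid ℕ)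
    (hSpos : ∀ m ∈ S, 1 ≤ m) (hd : ∀ j, d j ∈ S)
    (hsys : ∀ m ∈ S, ∀ m' : Fin r → ℕ, (∀ j, m' j ∈ S) → (∀ j, d j * m' j = m) →
      (n : ℝ) * κ m ≤ ∑ j, κ (m' j))
    (H : ∀ ε : ℝ, 0 < ε → ∃ (ψ : ℕ → ℝ) (C c : ℝ), 0 < c ∧ (∀ m ∈ S, 0 < ψ m) ∧
      (∀ a ∈ S, ∀ b ∈ S, ψ (a * b) = ψ a * ψ b) ∧ (∀ m ∈ S, ψ m ≤ (m : ℝ) ^ i) ∧
      (∀ m ∈ S, κ m * ψ m ≤ C) ∧ (∀ m ∈ S, c ≤ κ m * ψ m * (m : ℝ) ^ ε)) :
    n ≤ ∑ j, d j ^ i := by
  have hPS : ∏ j, d j ∈ S := Submonoid.prod_mem S (fun j _ => hd j)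
  have hP1 : 1 ≤ ∏ j, d j := hSpos _ hPS
  have h1 : ∀ ε : ℝ, 0 < ε →
      (n : ℝ) ≤ ((∑ j, d j ^ i : ℕ) : ℝ) * ((∏ j, d j : ℕ) : ℝ) ^ ε := by
    intro ε hε
    obtain ⟨ψ, C, c, hc, hψpos, hψmul, hψle, hup, hlow⟩ := H ε hε
    have h2 := final_lemma S hSpos hd hsys hψpos hψmul hc hup hlow
    refine h2.trans (mul_le_mul_of_nonneg_right ?_ (by positivity))
    push_cast
    exact Finset.sum_le_sum (fun j _ => hψle _ (hd j))
  have h2 : Filter.Tendsto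
      (fun ε : ℝ => ((∑ j, d j ^ i : ℕ) : ℝ) * ((∏ j, d j : ℕ) : ℝ) ^ ε)
      (nhdsWithin 0 (Set.Ioi 0)) (nhds (((∑ j, d j ^ i : ℕ) : ℝ) * 1)) := by
    have h3 : Continuous (fun ε : ℝ => ((∑ j, d j ^ i : ℕ) : ℝ) * ((∏ j, d j : ℕ) : ℝ) ^ ε) := by
      refine continuous_const.mul (Real.continuous_const_rpow ?_)
      have : (0 : ℝ) < ((∏ j, d j : ℕ) : ℝ) := by exact_mod_cast hP1
      exact this.ne'
    have h4 := (h3.tendsto 0).mono_left (nhdsWithin_le_nhds (s := Set.Ioi 0))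
    simpa using h4
  have h3 : (n : ℝ) ≤ ((∑ j, d j ^ i : ℕ) : ℝ) * 1 :=
    ge_of_tendsto h2 (Filter.eventually_of_mem self_mem_nhdsWithin (fun ε hε => h1 ε hε))
  rw [mul_one] at h3
  exact_mod_cast h3

end Pool.Agent.Helper37.Ci
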