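import Pool.Agent.Helper37.CiReg
import Pool.Agent.Helper37.CiReal

/-!
# Localisation of a regular cost and generic exponents
-/

namespace Pool.Agent.Helper37.Ci

namespace RegCost

variable {κ : ℕ → ℝ}

theorem pow_bound (h : RegCost κ) {u : ℕ} (hu : 1 ≤ u) {θ : ℝ}
    (hκ : κ u * (u : ℝ) ^ θ ≤ 1) (s : ℕ) : κ (u ^ s) * ((u : ℝ) ^ s) ^ θ ≤ 1 := by
  have huR : (0 : ℝ) < u := by exact_mod_cast hu
  induction s with
  | zero => simpa using h.ub 1 le_rfl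
  | succ s ih =>
    have h0 : 1 ≤ u ^ s := Nat.one_le_pow _ _ hu
    have h1 := h.mul (u ^ s) u h0 hu
    have h2 : ((u : ℝ) ^ (s + 1)) ^ θ = ((u : ℝ) ^ s) ^ θ * (u : ℝ) ^ θ := by
      rw [pow_succ, Real.mul_rpow (by positivity) huR.le]
    rw [pow_succ u s, h2]
    have h3 : 0 ≤ κ (u ^ s) := h.nonneg _ h0
    have h4 : 0 ≤ κ u := h.nonneg _ hu
    have h5 : 0 < ((u : ℝ) ^ s) ^ θ := by positivity
    have h6 : 0 < (u : ℝ) ^ θ := by positivity
    calc κ (u ^ s * u) * (((u : ℝ) ^ s) ^ θ * (u : ℝ) ^ θ)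
        ≤ (κ (u ^ s) * κ u) * (((u : ℝ) ^ s) ^ θ * (u : ℝ) ^ θ) :=
          mul_le_mul_of_nonneg_right h1 (by positivity)
      _ = (κ (u ^ s) * ((u : ℝ) ^ s) ^ θ) * (κ u * (u : ℝ) ^ θ) := by ring
      _ ≤ 1 := mul_le_one₀ ih (by positivity) hκ

/-- The key lemma: if `κ e ≤ e ^ (-τ)` and `κ u ≤ u ^ (-θ)` with `u` coprime to `e` and `θ < τ`,
then `κ m` is at most a constant times `m ^ (-θ)` for all `m`. -/
theorem low_lemma (h : RegCost κ) {e : ℕ} (he : 2 ≤ e) {u : ℕ} (hu : 2 ≤ u)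
    (hcop : Nat.Coprime u e) {θ τ : ℝ} (hθ0 : 0 < θ) (hθτ : θ < τ)
    (hκe : κ e * (e : ℝ) ^ τ ≤ 1) (hκu : κ u * (u : ℝ) ^ θ ≤ 1) :
    ∃ C : ℝ, 0 < C ∧ ∀ m, 1 ≤ m → κ m * (m : ℝ) ^ θ ≤ C := by
  -- choose `Q`
  obtain ⟨Q, hQ2, hQcop, hQbase, hQ⟩ : ∃ Q : ℕ, 2 ≤ Q ∧ Nat.Coprime u Q ∧
      κ Q * (Q : ℝ) ^ τ ≤ 1 ∧ (2 * (Q : ℝ)) ^ θ ≤ (Q : ℝ) ^ τ := by
    have hd : 0 < τ - θ := by linarith
    obtain ⟨k, hk⟩ := exists_nat_gt (θ / (τ - θ))
    rw [div_lt_iff₀ hd] at hk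
    have hk1 : 1 ≤ k := by
      rcases Nat.eq_zero_or_pos k with hk0 | hk0
      · rw [hk0] at hk; simp at hk; linarith
      · exact hk0
    refine ⟨e ^ k, ?_, Nat.Coprime.pow_right k hcop, ?_, ?_⟩
    · calc 2 ≤ e := he
        _ = e ^ 1 := (pow_one e).symm
        _ ≤ e ^ k := Nat.pow_le_pow_right (by omega) hk1
    · have := h.pow_bound (by omega) hκe k
      push_cast
      exact this
    · have heR : (2 : ℝ) ≤ (e : ℝ) := by exact_mod_cast he
      have heR0 : (0 : ℝ) < (e : ℝ) := by linarith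
      push_cast
      rw [Real.mul_rpow (by norm_num) (by positivity)]
      have h1 : (2 : ℝ) ^ θ ≤ ((e : ℝ) ^ k) ^ (τ - θ) := by
        rw [← Real.rpow_natCast, ← Real.rpow_mul heR0.le]
        calc (2 : ℝ) ^ θ ≤ (2 : ℝ) ^ ((k : ℝ) * (τ - θ)) :=
              Real.rpow_le_rpow_of_exponent_le (by norm_num) hk.le
          _ ≤ (e : ℝ) ^ ((k : ℝ) * (τ - θ)) :=
              Real.rpow_le_rpow (by norm_num) heR (by positivity)
      have h2 : (0 : ℝ) < ((e : ℝ) ^ k) ^ θ := by positivity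
      calc (2 : ℝ) ^ θ * ((e : ℝ) ^ k) ^ θ
          ≤ ((e : ℝ) ^ k) ^ (τ - θ) * ((e : ℝ) ^ k) ^ θ :=
            mul_le_mul_of_nonneg_right h1 h2.le
        _ = ((e : ℝ) ^ k) ^ (τ - θ + θ) := (Real.rpow_add (by positivity) _ _).symm
        _ = ((e : ℝ) ^ k) ^ τ := by rw [sub_add_cancel]
  have hQR : (2 : ℝ) ≤ (Q : ℝ) := by exact_mod_cast hQ2
  have huR : (2 : ℝ) ≤ (u : ℝ) := by exact_mod_cast hu
  set C : ℝ := ((Q : ℝ) ^ 2 * u) ^ θ with hC
  have hC0 : 0 < C := by rw [hC]; positivity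
  refine ⟨C, hC0, fun m => ?_⟩
  induction m using Nat.strong_induction_on with
  | _ m ih =>
  intro hm
  have hmR : (1 : ℝ) ≤ (m : ℝ) := by exact_mod_cast hm
  have hmθ : 0 < (m : ℝ) ^ θ := by positivity
  by_cases hsmall : m ≤ Q ^ 2 * u
  · have h1 : (m : ℝ) ≤ (Q : ℝ) ^ 2 * u := by exact_mod_cast hsmall
    calc κ m * (m : ℝ) ^ θ ≤ 1 * (m : ℝ) ^ θ :=
          mul_le_mul_of_nonneg_right (h.ub m hm) hmθ.le
      _ = (m : ℝ) ^ θ := one_mul _
      _ ≤ C := Real.rpow_le_rpow (by linarith) h1 hθ0.le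
  · push Not at hsmall
    set M := m / Q ^ 2 with hM
    have hQ20 : 0 < Q ^ 2 := by positivity
    have hM0 : M ≠ 0 := by
      rw [hM]
      have : 0 < m / Q ^ 2 := Nat.div_pos (by nlinarith) hQ20
      omega
    set s := Nat.log u M with hs
    have hs1 : u ^ s ≤ M := Nat.pow_log_le_self u hM0
    have hs2 : M < u ^ (s + 1) := Nat.lt_pow_succ_log_self (by omega) M
    have hs1' : u ^ s * Q ^ 2 ≤ m := (Nat.le_div_iff_mul_le hQ20).mp hs1
    have hs2' : m < u ^ (s + 1) * Q ^ 2 := (Nat.div_lt_iff_lt_mul hQ20).mp hs2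
    have hus : 0 < u ^ s := by positivity
    obtain ⟨c, hcQ, hc⟩ : ∃ c, c < Q ∧ c * u ^ s ≡ m [MOD Q] := by
      have : NeZero Q := ⟨by omega⟩
      refine ⟨((m : ZMod Q) * ((u ^ s : ℕ) : ZMod Q)⁻¹).val, ZMod.val_lt _, ?_⟩
      rw [← ZMod.natCast_eq_natCast_iff]
      rw [Nat.cast_mul, ZMod.natCast_val, ZMod.cast_id, mul_assoc]
      rw [mul_comm (((u ^ s : ℕ) : ZMod Q)⁻¹), ZMod.coe_mul_inv_eq_one, mul_one]
      exact Nat.Coprime.pow_left s hQcop
    have hcle : 2 * (c * u ^ s) ≤ m := by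
      have h1 : c * u ^ s ≤ Q * u ^ s := Nat.mul_le_mul_right _ hcQ.le
      have h2 : 2 * (Q * u ^ s) ≤ u ^ s * Q ^ 2 := by
        have : 2 * (Q * u ^ s) ≤ Q * (Q * u ^ s) := Nat.mul_le_mul_right _ hQ2
        calc 2 * (Q * u ^ s) ≤ Q * (Q * u ^ s) := this
          _ = u ^ s * Q ^ 2 := by ring
      omega
    have hcle' : c * u ^ s ≤ m := by omega
    obtain ⟨m', hm'⟩ := (Nat.modEq_iff_dvd' hcle').mp hc
    have hmeq : m = c * u ^ s + Q * m' := by omega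
    have hQm' : m ≤ 2 * (Q * m') := by omega
    have hm'1 : 1 ≤ m' := by
      rcases Nat.eq_zero_or_pos m' with h0 | h0
      · rw [h0] at hQm'; omega
      · exact h0
    have hm'm : m' < m := by
      have : 2 * m' ≤ Q * m' := Nat.mul_le_mul_right _ hQ2
      omega
    have hm'R : (0 : ℝ) < m' := by exact_mod_cast hm'1
    have hih := ih m' hm'm hm'1
    have hQm'1 : 1 ≤ Q * m' := Nat.mul_pos (by omega) hm'1
    have hpart2 : κ (Q * m') ≤ C / (m : ℝ) ^ θ := by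
      rw [le_div_iff₀ hmθ]
      have h1 : (m : ℝ) ≤ 2 * (Q : ℝ) * m' := by
        have : (m : ℝ) ≤ 2 * ((Q : ℝ) * m') := by exact_mod_cast hQm'
        linarith
      have h2 : (m : ℝ) ^ θ ≤ (Q : ℝ) ^ τ * (m' : ℝ) ^ θ := by
        calc (m : ℝ) ^ θ ≤ (2 * (Q : ℝ) * m') ^ θ := Real.rpow_le_rpow (by linarith) h1 hθ0.le
          _ = (2 * (Q : ℝ)) ^ θ * (m' : ℝ) ^ θ := Real.mul_rpow (by positivity) hm'R.le
          _ ≤ (Q : ℝ) ^ τ * (m' : ℝ) ^ θ := mul_le_mul_of_nonneg_right hQ (by positivity)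
      have h3 := h.nonneg _ hQm'1
      have h4 := h.mul Q m' (by omega) hm'1
      have h5 := h.nonneg m' hm'1
      calc κ (Q * m') * (m : ℝ) ^ θ ≤ κ (Q * m') * ((Q : ℝ) ^ τ * (m' : ℝ) ^ θ) :=
            mul_le_mul_of_nonneg_left h2 h3
        _ ≤ (κ Q * κ m') * ((Q : ℝ) ^ τ * (m' : ℝ) ^ θ) :=
            mul_le_mul_of_nonneg_right h4 (by positivity)
        _ = (κ Q * (Q : ℝ) ^ τ) * (κ m' * (m' : ℝ) ^ θ) := by ring
        _ ≤ 1 * (κ m' * (m' : ℝ) ^ θ) := mul_le_mul_of_nonneg_right hQbase (by positivity)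
        _ = κ m' * (m' : ℝ) ^ θ := one_mul _
        _ ≤ C := hih
    have hmain : κ m ≤ C / (m : ℝ) ^ θ := by
      rcases Nat.eq_zero_or_pos c with hc0 | hc0
      · rw [hc0, zero_mul, zero_add] at hmeq
        rw [hmeq] at hpart2 ⊢
        exact hpart2
      · have hpart1 : κ (c * u ^ s) ≤ C / (m : ℝ) ^ θ := by
          rw [le_div_iff₀ hmθ]
          have h1 : (m : ℝ) ≤ (u : ℝ) ^ s * ((Q : ℝ) ^ 2 * u) := by
            have : (m : ℝ) ≤ (u : ℝ) ^ (s + 1) * (Q : ℝ) ^ 2 := by exact_mod_cast hs2'.le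
            calc (m : ℝ) ≤ (u : ℝ) ^ (s + 1) * (Q : ℝ) ^ 2 := this
              _ = _ := by ring
          have h2 : (m : ℝ) ^ θ ≤ ((u : ℝ) ^ s) ^ θ * C := by
            calc (m : ℝ) ^ θ ≤ ((u : ℝ) ^ s * ((Q : ℝ) ^ 2 * u)) ^ θ :=
                  Real.rpow_le_rpow (by linarith) h1 hθ0.le
              _ = _ := Real.mul_rpow (by positivity) (by positivity)
          have h3 : κ (c * u ^ s) ≤ κ (u ^ s) := by
            have h4 := h.mul c (u ^ s) hc0 hus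
            have h5 := h.ub c hc0
            have h6 := h.nonneg (u ^ s) hus
            nlinarith
          have h7 := h.pow_bound (by omega) hκu s
          have h8 := h.nonneg (u ^ s) hus
          calc κ (c * u ^ s) * (m : ℝ) ^ θ ≤ κ (u ^ s) * (((u : ℝ) ^ s) ^ θ * C) :=
                mul_le_mul h3 h2 hmθ.le h8
            _ = (κ (u ^ s) * ((u : ℝ) ^ s) ^ θ) * C := by ring
            _ ≤ 1 * C := mul_le_mul_of_nonneg_right h7 hC0.le
            _ = C := one_mul C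
        have h9 := h.add (c * u ^ s) (Q * m') _ (Nat.mul_pos hc0 hus) hQm'1 hpart1 hpart2
        rwa [← hmeq] at h9
    rwa [le_div_iff₀ hmθ] at hmain

theorem prod_erase_coprime' {P : Finset ℕ} (hP : ∀ p ∈ P, p.Prime) {q : ℕ} (hq : q ∈ P) :
    ¬ q ∣ ∏ p ∈ P.erase q, p := by
  intro hdvd
  obtain ⟨p, hp, hqp⟩ := (Prime.dvd_finsetProd_iff (hP q hq).prime _).mp hdvd
  have h1 := Finset.mem_erase.mp hp
  exact h1.1 ((Nat.prime_dvd_prime_iff_eq (hP q hq) (hP p h1.2)).mp hqp).symm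

/-- The same conclusion for a setwise coprime family of degrees. -/
theorem family (h : RegCost κ) {e : ℕ} (he : 2 ≤ e) {θ τ : ℝ} (hθ0 : 0 < θ) (hθτ : θ < τ)
    (hκe : κ e * (e : ℝ) ^ τ ≤ 1)
    (H : ∀ p, p.Prime → p ∣ e → ∃ u, 2 ≤ u ∧ Nat.Coprime u p ∧ κ u * (u : ℝ) ^ τ ≤ 1) :
    ∃ C : ℝ, 0 < C ∧ ∀ m, 1 ≤ m → κ m * (m : ℝ) ^ θ ≤ C := by
  have hτ0 : 0 < τ := hθ0.trans hθτ
  have hex : ∀ p : ℕ, ∃ u, p ∈ e.primeFactors → 2 ≤ u ∧ Nat.Coprime u p ∧
      κ u * (u : ℝ) ^ τ ≤ 1 := by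
    intro p
    by_cases hp : p ∈ e.primeFactors
    · obtain ⟨u, hu⟩ := H p (Nat.prime_of_mem_primeFactors hp) (Nat.dvd_of_mem_primeFactors hp)
      exact ⟨u, fun _ => hu⟩
    · exact ⟨0, fun h => absurd h hp⟩
  choose E hE using hex
  set P := e.primeFactors with hPdef
  have hPprime : ∀ p ∈ P, p.Prime := fun p hp => Nat.prime_of_mem_primeFactors hp
  have hPne : P.Nonempty := by
    rw [hPdef, Nat.nonempty_primeFactors]; omega
  set R : ℕ → ℕ := fun q => ∏ p ∈ P.erase q, p with hR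
  have hR1 : ∀ q, 1 ≤ R q := fun q =>
    Finset.prod_pos (fun p hp => (hPprime p (Finset.mem_of_mem_erase hp)).pos)
  set D : ℕ := ∑ p ∈ P, R p * E p with hD
  have key : ∀ X : ℕ, 2 ≤ X → ∃ b : ℕ, X ≤ b ∧ b ≤ D * X ∧ Nat.Coprime b e ∧
      κ b * (X : ℝ) ^ τ ≤ 1 := by
    intro X hX
    set k : ℕ → ℕ := fun p => Nat.clog (E p) X with hk
    have hk1 : ∀ p ∈ P, X ≤ E p ^ k p := fun p hp => Nat.le_pow_clog (by
      have := (hE p hp).1; omega) X
    have hk2 : ∀ p ∈ P, E p ^ k p ≤ X * E p := by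
      intro p hp
      have h2 := (hE p hp).1
      have h3 : E p ^ (k p - 1) < X := Nat.pow_pred_clog_lt_self (by omega) (by omega)
      have h4 : 0 < k p := Nat.clog_pos (by omega) (by omega)
      calc E p ^ k p = E p ^ (k p - 1 + 1) := by rw [Nat.sub_add_cancel h4]
        _ = E p ^ (k p - 1) * E p := pow_succ _ _
        _ ≤ X * E p := Nat.mul_le_mul_right _ h3.le
    have hX0 : (0 : ℝ) < X := by exact_mod_cast (by omega : 0 < X)
    have hXR : (0 : ℝ) < (X : ℝ) ^ τ := by positivity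
    set b := ∑ p ∈ P, R p * E p ^ k p with hb
    have hterm : ∀ p ∈ P, 1 ≤ R p * E p ^ k p := fun p hp =>
      Nat.mul_pos (hR1 p) (by have := hk1 p hp; omega)
    refine ⟨b, ?_, ?_, ?_, ?_⟩
    · obtain ⟨p, hp⟩ := hPne
      calc X ≤ E p ^ k p := hk1 p hp
        _ ≤ R p * E p ^ k p := Nat.le_mul_of_pos_left _ (hR1 p)
        _ ≤ b := Finset.single_le_sum (f := fun p => R p * E p ^ k p)
            (fun _ _ => Nat.zero_le _) hp
    · rw [hb, hD, Finset.sum_mul]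
      refine Finset.sum_le_sum (fun p hp => ?_)
      calc R p * E p ^ k p ≤ R p * (X * E p) := Nat.mul_le_mul_left _ (hk2 p hp)
        _ = R p * E p * X := by ring
    · rw [Nat.coprime_iff_gcd_eq_one]
      by_contra hne
      obtain ⟨q, hq, hqd⟩ := Nat.exists_prime_and_dvd hne
      have hqb : q ∣ b := hqd.trans (Nat.gcd_dvd_left _ _)
      have hqe : q ∣ e := hqd.trans (Nat.gcd_dvd_right _ _)
      have hqP : q ∈ P := Nat.mem_primeFactors.mpr ⟨hq, hqe, by omega⟩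
      have h1 : b = R q * E q ^ k q + ∑ p ∈ P.erase q, R p * E p ^ k p := by
        rw [hb]; exact (Finset.add_sum_erase P _ hqP).symm
      have h2 : q ∣ ∑ p ∈ P.erase q, R p * E p ^ k p := by
        refine Finset.dvd_sum (fun p hp => ?_)
        have hp' := Finset.mem_erase.mp hp
        refine Dvd.dvd.mul_right ?_ _
        exact Finset.dvd_prod_of_mem (fun x => x) (Finset.mem_erase.mpr ⟨hp'.1.symm, hqP⟩)
      have h3 : q ∣ R q * E q ^ k q := (Nat.dvd_add_left h2).mp (h1 ▸ hqb)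
      rcases (Nat.Prime.dvd_mul hq).mp h3 with h4 | h4
      · exact prod_erase_coprime' hPprime hqP h4
      · have h5 := hq.dvd_of_dvd_pow h4
        have h6 := (hE q hqP).2.1
        have h7 : q ∣ Nat.gcd (E q) q := Nat.dvd_gcd h5 dvd_rfl
        rw [h6] at h7
        exact hq.one_lt.ne' (Nat.dvd_one.mp h7)
    · have h1 : ∀ p ∈ P, 1 ≤ R p * E p ^ k p ∧ κ (R p * E p ^ k p) ≤ 1 / (X : ℝ) ^ τ := by
        intro p hp
        refine ⟨hterm p hp, ?_⟩
        have h2 := h.pow_bound (by have := (hE p hp).1; omega) (hE p hp).2.2 (k p)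
        have h3 := hk1 p hp
        have h3R : (X : ℝ) ≤ (E p : ℝ) ^ k p := by exact_mod_cast h3
        have hEk : 1 ≤ E p ^ k p := by omega
        have h4 := h.mul (R p) (E p ^ k p) (hR1 p) hEk
        have h5 := h.ub (R p) (hR1 p)
        have h6 := h.nonneg (E p ^ k p) hEk
        have h7 : (X : ℝ) ^ τ ≤ ((E p : ℝ) ^ k p) ^ τ := Real.rpow_le_rpow hX0.le h3R hτ0.le
        rw [le_div_iff₀ hXR]
        calc κ (R p * E p ^ k p) * (X : ℝ) ^ τ ≤ κ (E p ^ k p) * ((E p : ℝ) ^ k p) ^ τ := by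
              apply mul_le_mul _ h7 hXR.le h6
              nlinarith
          _ ≤ 1 := h2
      have h2 : 1 ≤ b ∧ κ b ≤ 1 / (X : ℝ) ^ τ := by
        refine Finset.sum_induction_nonempty (s := P) (fun p => R p * E p ^ k p)
          (fun x => 1 ≤ x ∧ κ x ≤ 1 / (X : ℝ) ^ τ) ?_ hPne h1
        rintro x y ⟨hx1, hx2⟩ ⟨hy1, hy2⟩
        exact ⟨by omega, h.add x y _ hx1 hy1 hx2 hy2⟩
      have h3 := h2.2
      rwa [le_div_iff₀ hXR] at h3
  -- conclusion
  have hd : 0 < τ - θ := by linarith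
  have hev : ∀ᶠ X : ℕ in Filter.atTop, (D : ℝ) ^ θ ≤ (X : ℝ) ^ (τ - θ) :=
    ((tendsto_rpow_atTop hd).comp tendsto_natCast_atTop_atTop).eventually_ge_atTop _
  obtain ⟨X, hX1, hX2⟩ := (hev.and (Filter.eventually_ge_atTop 2)).exists
  obtain ⟨b, hXb, hbD, hcop, hκb⟩ := key X hX2
  refine h.low_lemma he (u := b) (by omega) hcop hθ0 hθτ hκe ?_
  have hX0 : (0 : ℝ) < X := by exact_mod_cast (by omega : 0 < X)
  have hbR : (b : ℝ) ≤ D * X := by exact_mod_cast hbD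
  have hb0 := h.nonneg b (by omega)
  calc κ b * (b : ℝ) ^ θ ≤ κ b * ((D : ℝ) * X) ^ θ :=
        mul_le_mul_of_nonneg_left (Real.rpow_le_rpow (by positivity) hbR hθ0.le) hb0
    _ = κ b * ((D : ℝ) ^ θ * (X : ℝ) ^ θ) := by
        rw [Real.mul_rpow (by positivity) hX0.le]
    _ ≤ κ b * ((X : ℝ) ^ (τ - θ) * (X : ℝ) ^ θ) :=
        mul_le_mul_of_nonneg_left (mul_le_mul_of_nonneg_right hX1 (by positivity)) hb0
    _ = κ b * (X : ℝ) ^ τ := by
        rw [← Real.rpow_add hX0, sub_add_cancel]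
    _ ≤ 1 := hκb

/-- The exponents of global upper bounds. -/
def bset (κ : ℕ → ℝ) : Set ℝ := {t | ∃ C : ℝ, ∀ m : ℕ, 1 ≤ m → κ m * (m : ℝ) ^ t ≤ C}

theorem zero_mem_bset (h : RegCost κ) : (0 : ℝ) ∈ bset κ :=
  ⟨1, fun m hm => by simpa using h.ub m hm⟩

theorem bset_mono (h : RegCost κ) {s t : ℝ} (hst : s ≤ t) (ht : t ∈ bset κ) : s ∈ bset κ := by
  obtain ⟨C, hC⟩ := ht
  refine ⟨C, fun m hm => le_trans ?_ (hC m hm)⟩
  have hmR : (1 : ℝ) ≤ m := by exact_mod_cast hm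
  exact mul_le_mul_of_nonneg_left (Real.rpow_le_rpow_of_exponent_le hmR hst) (h.nonneg m hm)

theorem mem_bset_of_lt (h : RegCost κ) {t : ℝ} (ht : t < sSup (bset κ)) : t ∈ bset κ := by
  obtain ⟨s, hs, hts⟩ := exists_lt_of_lt_csSup ⟨0, h.zero_mem_bset⟩ ht
  exact h.bset_mono hts.le hs

/-- For some prime `q` the generic exponent bounds all costs of numbers coprime to `q`. -/
theorem exists_prime (h : RegCost κ) (h1 : κ 1 = 1) (hbdd : BddAbove (bset κ)) :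
    ∃ q : ℕ, q.Prime ∧ ∀ m : ℕ, 1 ≤ m → Nat.Coprime m q →
      1 ≤ κ m * (m : ℝ) ^ (sSup (bset κ)) := by
  set θ := sSup (bset κ) with hθ
  have hθ0 : 0 ≤ θ := le_csSup hbdd h.zero_mem_bset
  by_contra hcon
  push Not at hcon
  have hcon' : ∀ q : ℕ, ∃ m : ℕ, q.Prime → 2 ≤ m ∧ Nat.Coprime m q ∧ κ m * (m : ℝ) ^ θ < 1 := by
    intro q
    by_cases hq : q.Prime
    · obtain ⟨m, hm, hcop, hlt⟩ := hcon q hq
      refine ⟨m, fun _ => ⟨?_, hcop, hlt⟩⟩
      by_contra hm2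
      have : m = 1 := by omega
      rw [this, h1] at hlt
      simp at hlt
    · exact ⟨0, fun h => absurd h hq⟩
  choose M hM using hcon'
  set e := M 2 with he
  have he2 := (hM 2 Nat.prime_two).1
  have hlt2 := (hM 2 Nat.prime_two).2.2
  set F : Finset ℕ := insert 2 e.primeFactors with hF
  have hFprime : ∀ q ∈ F, q.Prime := by
    intro q hq
    rcases Finset.mem_insert.mp hq with h | h
    · rw [h]; exact Nat.prime_two
    · exact Nat.prime_of_mem_primeFactors h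
  have hev : ∀ᶠ δ : ℝ in nhdsWithin 0 (Set.Ioi 0), ∀ q ∈ F, κ (M q) * (M q : ℝ) ^ (θ + δ) < 1 := by
    rw [Filter.eventually_all_finset]
    intro q hq
    have hMq := hM q (hFprime q hq)
    have hMpos : (0 : ℝ) < M q := by exact_mod_cast (by omega : 0 < M q)
    have hcont : Continuous (fun δ : ℝ => κ (M q) * (M q : ℝ) ^ (θ + δ)) :=
      continuous_const.mul ((Real.continuous_const_rpow hMpos.ne').comp
        (continuous_const.add continuous_id))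
    have ht := (hcont.tendsto 0).mono_left (nhdsWithin_le_nhds (s := Set.Ioi (0 : ℝ)))
    refine ht.eventually_lt_const ?_
    simpa using hMq.2.2
  obtain ⟨δ, hδ, hδ0⟩ := (hev.and self_mem_nhdsWithin).exists
  have hδ0' : 0 < δ := hδ0
  obtain ⟨C, hC0, hC⟩ := h.family he2 (θ := θ + δ / 2) (τ := θ + δ) (by linarith) (by linarith)
    (hδ 2 (Finset.mem_insert_self _ _)).le (fun p hp hpe => by
      have hpF : p ∈ F := Finset.mem_insert_of_mem (Nat.mem_primeFactors.mpr ⟨hp, hpe, by omega⟩)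
      exact ⟨M p, (hM p hp).1, (hM p hp).2.1, (hδ p hpF).le⟩)
  have : θ + δ / 2 ≤ θ := le_csSup hbdd ⟨C, hC⟩
  linarith

/-! ### Localisation -/

/-- The localisation of `κ` at `e`. -/
noncomputable def loc (κ : ℕ → ℝ) (e w : ℕ) : ℝ := ⨅ t : ℕ, κ (e ^ t * w) / κ e ^ t

theorem loc_antitone (h : RegCost κ) {e : ℕ} (he : 1 ≤ e) (hpos : 0 < κ e) {w : ℕ} (hw : 1 ≤ w) :
    Antitone (fun t : ℕ => κ (e ^ t * w) / κ e ^ t) := by
  refine antitone_nat_of_succ_le (fun t => ?_)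
  have h1 := h.mul e (e ^ t * w) he (Nat.mul_pos (Nat.one_le_pow _ _ he) hw)
  have h2 : e ^ (t + 1) * w = e * (e ^ t * w) := by ring
  rw [h2, div_le_div_iff₀ (by positivity) (by positivity)]
  calc κ (e * (e ^ t * w)) * κ e ^ t ≤ (κ e * κ (e ^ t * w)) * κ e ^ t :=
        mul_le_mul_of_nonneg_right h1 (by positivity)
    _ = κ (e ^ t * w) * κ e ^ (t + 1) := by ring

theorem loc_bdd (h : RegCost κ) {e : ℕ} (he : 1 ≤ e) (hpos : 0 < κ e) {w : ℕ} (hw : 1 ≤ w) :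
    BddBelow (Set.range (fun t : ℕ => κ (e ^ t * w) / κ e ^ t)) := by
  refine ⟨0, ?_⟩
  rintro _ ⟨t, rfl⟩
  exact div_nonneg (h.nonneg _ (Nat.mul_pos (Nat.one_le_pow _ _ he) hw)) (by positivity)

theorem loc_tendsto (h : RegCost κ) {e : ℕ} (he : 1 ≤ e) (hpos : 0 < κ e) {w : ℕ} (hw : 1 ≤ w) :
    Filter.Tendsto (fun t : ℕ => κ (e ^ t * w) / κ e ^ t) Filter.atTop (nhds (loc κ e w)) :=
  tendsto_atTop_ciInf (h.loc_antitone he hpos hw) (h.loc_bdd he hpos hw)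

theorem loc_le (h : RegCost κ) {e : ℕ} (he : 1 ≤ e) (hpos : 0 < κ e) {w : ℕ} (hw : 1 ≤ w) :
    loc κ e w ≤ κ w := by
  calc loc κ e w ≤ κ (e ^ 0 * w) / κ e ^ 0 := ciInf_le (h.loc_bdd he hpos hw) 0
    _ = κ w := by simp

theorem loc_nonneg (h : RegCost κ) {e : ℕ} (he : 1 ≤ e) (hpos : 0 < κ e) {w : ℕ} (hw : 1 ≤ w) :
    0 ≤ loc κ e w :=
  le_ciInf (fun _ => div_nonneg (h.nonneg _ (Nat.mul_pos (Nat.one_le_pow _ _ he) hw))
    (by positivity))

theorem loc_regCost (h : RegCost κ) {e : ℕ} (he : 1 ≤ e) (hpos : 0 < κ e) :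
    RegCost (loc κ e) where
  nonneg _ hm := h.loc_nonneg he hpos hm
  ub m hm := (h.loc_le he hpos hm).trans (h.ub m hm)
  mul a b ha hb := by
    have h1 := (h.loc_tendsto he hpos ha).mul (h.loc_tendsto he hpos hb)
    refine ge_of_tendsto' h1 (fun t => ?_)
    have h2 := ciInf_le (h.loc_bdd he hpos (Nat.mul_pos ha hb)) (t + t)
    refine h2.trans ?_
    have h3 := h.mul (e ^ t * a) (e ^ t * b) (Nat.mul_pos (Nat.one_le_pow _ _ he) ha)
      (Nat.mul_pos (Nat.one_le_pow _ _ he) hb)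
    have h4 : e ^ (t + t) * (a * b) = (e ^ t * a) * (e ^ t * b) := by ring
    rw [h4, div_mul_div_comm, ← pow_add]
    exact div_le_div_of_nonneg_right h3 (by positivity)
  add a b c ha hb hca hcb := by
    refine le_of_forall_gt_imp_ge_of_dense (fun x hx => ?_)
    have h1 := (h.loc_tendsto he hpos ha).eventually_lt_const (lt_of_le_of_lt hca hx)
    have h2 := (h.loc_tendsto he hpos hb).eventually_lt_const (lt_of_le_of_lt hcb hx)
    obtain ⟨t, ht1, ht2⟩ := (h1.and h2).exists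
    have h3 := ciInf_le (h.loc_bdd he hpos (by omega : 1 ≤ a + b)) t
    refine h3.trans ?_
    rw [div_lt_iff₀ (by positivity)] at ht1 ht2
    rw [div_le_iff₀ (by positivity), mul_add]
    exact h.add _ _ _ (Nat.mul_pos (Nat.one_le_pow _ _ he) ha)
      (Nat.mul_pos (Nat.one_le_pow _ _ he) hb) ht1.le ht2.le

theorem loc_base (h : RegCost κ) {e : ℕ} (he : 1 ≤ e) (hpos : 0 < κ e) {w : ℕ} (hw : 1 ≤ w) :
    loc κ e (e * w) = κ e * loc κ e w := by
  have hew : 1 ≤ e * w := Nat.mul_pos he hw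
  have h1 := h.loc_tendsto he hpos hew
  have h2 := ((h.loc_tendsto he hpos hw).comp (Filter.tendsto_add_atTop_nat 1)).const_mul (κ e)
  refine tendsto_nhds_unique h1 (h2.congr (fun t => ?_))
  simp only [Function.comp_apply]
  have h3 : e ^ (t + 1) * w = e ^ t * (e * w) := by ring
  rw [h3, pow_succ]
  field_simp

theorem loc_base_pow (h : RegCost κ) {e : ℕ} (he : 1 ≤ e) (hpos : 0 < κ e) {w : ℕ} (hw : 1 ≤ w)
    (k : ℕ) : loc κ e (e ^ k * w) = κ e ^ k * loc κ e w := by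
  induction k with
  | zero => simp
  | succ k ih =>
    have h1 : e ^ (k + 1) * w = e * (e ^ k * w) := by ring
    rw [h1, h.loc_base he hpos (Nat.mul_pos (Nat.one_le_pow _ _ he) hw), ih]
    ring

theorem loc_one {e : ℕ} (hpos : 0 < κ e) (hpow : ∀ t : ℕ, κ (e ^ t) = κ e ^ t) :
    loc κ e 1 = 1 := by
  have : (fun t : ℕ => κ (e ^ t * 1) / κ e ^ t) = fun _ => 1 := by
    funext t
    rw [mul_one, hpow t, div_self (by positivity)]
  rw [loc, this, ciInf_const]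

theorem loc_system (h : RegCost κ) {e : ℕ} (he : 1 ≤ e) (hpos : 0 < κ e) {r n : ℕ}
    {d : Fin r → ℕ} (hs : SysIneq n d κ) : SysIneq n d (loc κ e) := by
  intro m m' hm' hdm hm
  have h1 := (h.loc_tendsto he hpos hm).const_mul (n : ℝ)
  have h2 : Filter.Tendsto (fun t : ℕ => ∑ j, κ (e ^ t * m' j) / κ e ^ t) Filter.atTop
      (nhds (∑ j, loc κ e (m' j))) :=
    tendsto_finsetSum _ (fun j _ => h.loc_tendsto he hpos (hm' j))
  refine le_of_tendsto_of_tendsto' h1 h2 (fun t => ?_)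
  have h3 := hs (e ^ t * m) (fun j => e ^ t * m' j)
    (fun j => Nat.mul_pos (Nat.one_le_pow _ _ he) (hm' j))
    (fun j => by rw [← hdm j]; ring) (Nat.mul_pos (Nat.one_le_pow _ _ he) hm)
  rw [← Finset.sum_div, ← mul_div_assoc]
  exact div_le_div_of_nonneg_right h3 (by positivity)

end RegCost

end Pool.Agent.Helper37.Ci
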