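import Pool.Agent.Helper37.CiBasic

/-!
# Norm forms
-/

namespace Pool.Agent.Helper37.Ci

open MvPolynomial

universe u

variable {K : Type u} [Field K]

theorem isHomogeneous_det {n : ℕ} {σ : Type} (M : Matrix (Fin n) (Fin n) (MvPolynomial σ K))
    (hM : ∀ i j, (M i j).IsHomogeneous 1) : M.det.IsHomogeneous n := by
  rw [Matrix.det_apply]
  refine IsHomogeneous.sum _ _ _ (fun s _ => ?_)
  have h1 : (∏ i, M (s i) i).IsHomogeneous n := by
    have := IsHomogeneous.prod Finset.univ (fun i => M (s i) i) (fun _ => 1)
      (fun i _ => hM _ _)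
    simpa using this
  rcases Int.units_eq_one_or (Equiv.Perm.sign s) with h | h
  · rw [h, one_smul]; exact h1
  · rw [h, Units.neg_smul, one_smul]; exact h1.neg

/-- The norm form of a finite extension. -/
theorem Sys.of_finrank (L : Type*) [Field L] [Algebra K L] [FiniteDimensional K L] :
    Sys K (Module.finrank K L) 1 (Module.finrank K L) := by
  classical
  set e := Module.finrank K L with he
  let b : Module.Basis (Fin e) K L := Module.finBasis K L
  let M : Matrix (Fin e) (Fin e) (MvPolynomial (Fin e) K) :=
    fun p q => ∑ k, C (Algebra.leftMulMatrix b (b k) p q) * X k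
  refine ⟨fun _ => M.det, fun _ => isHomogeneous_det M (fun p q => ?_), fun x hx => ?_⟩
  · refine IsHomogeneous.sum _ _ _ (fun k _ => ?_)
    have := (isHomogeneous_C (Fin e) (Algebra.leftMulMatrix b (b k) p q)).mul
      (isHomogeneous_X K k)
    simpa using this
  · have h1 := hx 0
    have h2 : (eval x) M.det = (Algebra.leftMulMatrix b (∑ k, x k • b k)).det := by
      rw [RingHom.map_det]
      congr 1
      ext p q
      simp only [RingHom.mapMatrix_apply, Matrix.map_apply, M, map_sum, map_mul, eval_C, eval_X,
        map_smul, Matrix.sum_apply, Matrix.smul_apply, smul_eq_mul]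
      exact Finset.sum_congr rfl (fun k _ => mul_comm _ _)
    rw [h2, ← Algebra.norm_eq_matrix_det, Algebra.norm_eq_zero_iff] at h1
    have h3 := Fintype.linearIndependent_iff.mp b.linearIndependent x h1
    funext k
    exact h3 k

end Pool.Agent.Helper37.Ci
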