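import Mathlib

/-!
# Regularisation and localisation of cost functions
-/

namespace Pool.Agent.Helper37.Ci

theorem le_of_pow_le {x y C : ℝ} (_hx : 0 ≤ x) (hy : 0 ≤ y)
    (h : ∀ k : ℕ, x ^ k ≤ C * (k + 1) * y ^ k) : x ≤ y := by
  by_contra hcon
  push Not at hcon
  rcases hy.eq_or_lt with h0 | h0
  · have h1 := h 1
    rw [← h0] at h1 hcon
    simp at h1
    linarith
  · have hr : 1 < x / y := by rw [one_lt_div h0]; exact hcon
    have h1 := tendsto_pow_const_div_const_pow_of_one_lt 1 hr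
    have h2 := tendsto_pow_const_div_const_pow_of_one_lt 0 hr
    have h3 : Filter.Tendsto (fun k : ℕ => C * ((k : ℝ) ^ 1 / (x / y) ^ k + (k : ℝ) ^ 0 / (x / y) ^ k))
        Filter.atTop (nhds (C * (0 + 0))) := (h1.add h2).const_mul C
    have h4 : ∀ k : ℕ, 1 ≤ C * ((k : ℝ) ^ 1 / (x / y) ^ k + (k : ℝ) ^ 0 / (x / y) ^ k) := by
      intro k
      have h5 := h k
      have h6 : (0 : ℝ) < (x / y) ^ k := by positivity
      have h7 : x ^ k = (x / y) ^ k * y ^ k := by rw [← mul_pow, div_mul_cancel₀ _ h0.ne']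
      rw [← add_div, mul_div_assoc', le_div_iff₀ h6, one_mul, pow_one, pow_zero]
      rw [h7] at h5
      exact le_of_mul_le_mul_right h5 (by positivity)
    have h8 := ge_of_tendsto' h3 h4
    simp at h8
    linarith

/-- The properties of the unregularised cost. -/
structure RawCost (i : ℕ) (κ : ℕ → ℝ) : Prop where
  ub : ∀ m, 1 ≤ m → κ m ≤ 1
  lb : ∀ m, 1 ≤ m → 1 ≤ κ m * (m : ℝ) ^ i
  mul : ∀ a b, 1 ≤ a → 1 ≤ b → κ (a * b) ≤ κ a * κ b
  add : ∀ a b, 1 ≤ a → 1 ≤ b → κ (a + b) ≤ κ a + κ b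

/-- The properties of a regular cost. -/
structure RegCost (κ : ℕ → ℝ) : Prop where
  nonneg : ∀ m, 1 ≤ m → 0 ≤ κ m
  ub : ∀ m, 1 ≤ m → κ m ≤ 1
  mul : ∀ a b, 1 ≤ a → 1 ≤ b → κ (a * b) ≤ κ a * κ b
  add : ∀ a b (c : ℝ), 1 ≤ a → 1 ≤ b → κ a ≤ c → κ b ≤ c → κ (a + b) ≤ c

/-- The system inequality for the degrees `d`. -/
def SysIneq {r : ℕ} (n : ℕ) (d : Fin r → ℕ) (κ : ℕ → ℝ) : Prop :=
  ∀ m : ℕ, ∀ m' : Fin r → ℕ, (∀ j, 1 ≤ m' j) → (∀ j, d j * m' j = m) → 1 ≤ m →
    (n : ℝ) * κ m ≤ ∑ j, κ (m' j)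

namespace RawCost

variable {i : ℕ} {κ : ℕ → ℝ}

theorem pos (h : RawCost i κ) {m : ℕ} (hm : 1 ≤ m) : 0 < κ m := by
  have h1 := h.lb m hm
  have hm' : (0 : ℝ) < (m : ℝ) ^ i := by positivity
  by_contra hcon
  have : κ m * (m : ℝ) ^ i ≤ 0 := mul_nonpos_of_nonpos_of_nonneg (not_lt.mp hcon) hm'.le
  linarith

/-- The growth bounds of the costs of the powers of `m`. -/
def growthSet (κ : ℕ → ℝ) (m : ℕ) : Set ℝ := {c | 0 < c ∧ ∃ C : ℝ, ∀ k : ℕ, κ (m ^ k) ≤ C * c ^ k}

/-- The regularised cost. -/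
noncomputable def reg (κ : ℕ → ℝ) (m : ℕ) : ℝ := sInf (growthSet κ m)

theorem growthSet_bdd (m : ℕ) : BddBelow (growthSet κ m) := ⟨0, fun _ hc => hc.1.le⟩

theorem pow_pos' {m : ℕ} (hm : 1 ≤ m) (k : ℕ) : 1 ≤ m ^ k := Nat.one_le_pow _ _ hm

theorem mem_growthSet (h : RawCost i κ) {m k : ℕ} (hm : 1 ≤ m) (hk : 1 ≤ k) {c : ℝ} (hc : 0 < c)
    (hκ : κ (m ^ k) ≤ c ^ k) : c ∈ growthSet κ m := by
  have hpw : ∀ q : ℕ, κ ((m ^ k) ^ q) ≤ (c ^ k) ^ q := by
    intro q
    induction q with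
    | zero => simpa using h.ub 1 le_rfl
    | succ q ih =>
      have h1 := h.mul ((m ^ k) ^ q) (m ^ k) (pow_pos' (pow_pos' hm k) q) (pow_pos' hm k)
      have h2 := h.pos (pow_pos' hm k)
      calc κ ((m ^ k) ^ (q + 1)) = κ ((m ^ k) ^ q * m ^ k) := by rw [pow_succ]
        _ ≤ κ ((m ^ k) ^ q) * κ (m ^ k) := h1
        _ ≤ (c ^ k) ^ q * c ^ k := mul_le_mul ih hκ h2.le (by positivity)
        _ = (c ^ k) ^ (q + 1) := (pow_succ _ _).symm
  -- the constant
  obtain ⟨C, hC1, hC⟩ : ∃ C : ℝ, 0 < C ∧ ∀ s, s < k → 1 ≤ C * c ^ s := by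
    refine ⟨∑ s ∈ Finset.range k, (c ^ s)⁻¹, ?_, ?_⟩
    · exact Finset.sum_pos (fun s _ => by positivity) (by simpa using (by omega : k ≠ 0))
    · intro s hs
      have h1 : (c ^ s)⁻¹ ≤ ∑ s ∈ Finset.range k, (c ^ s)⁻¹ :=
        Finset.single_le_sum (f := fun s => (c ^ s)⁻¹) (fun s _ => by positivity)
          (Finset.mem_range.mpr hs)
      calc 1 = (c ^ s)⁻¹ * c ^ s := by field_simp
        _ ≤ _ := mul_le_mul_of_nonneg_right h1 (by positivity)
  refine ⟨hc, C, fun j => ?_⟩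
  have hj : j = k * (j / k) + j % k := (Nat.div_add_mod j k).symm
  have hlt : j % k < k := Nat.mod_lt _ (by omega)
  set q := j / k
  set s := j % k
  have h1 := h.mul ((m ^ k) ^ q) (m ^ s) (pow_pos' (pow_pos' hm k) q) (pow_pos' hm s)
  have h2 := h.ub (m ^ s) (pow_pos' hm s)
  have h3 := h.pos (pow_pos' (pow_pos' hm k) q)
  calc κ (m ^ j) = κ ((m ^ k) ^ q * m ^ s) := by rw [hj, pow_add, pow_mul]
    _ ≤ κ ((m ^ k) ^ q) * κ (m ^ s) := h1
    _ ≤ κ ((m ^ k) ^ q) * 1 := mul_le_mul_of_nonneg_left h2 h3.le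
    _ = κ ((m ^ k) ^ q) := mul_one _
    _ ≤ (c ^ k) ^ q := hpw q
    _ ≤ (c ^ k) ^ q * (C * c ^ s) := le_mul_of_one_le_right (by positivity) (hC s hlt)
    _ = C * c ^ j := by rw [hj, pow_add, pow_mul]; ring

theorem one_mem_growthSet (h : RawCost i κ) {m : ℕ} (hm : 1 ≤ m) : (1 : ℝ) ∈ growthSet κ m :=
  h.mem_growthSet (k := 1) hm le_rfl one_pos (by simpa using h.ub m hm)

theorem bound_of_reg_lt (h : RawCost i κ) {m : ℕ} (hm : 1 ≤ m) {c : ℝ} (hc : reg κ m < c) :
    ∃ C : ℝ, 0 < C ∧ ∀ k : ℕ, κ (m ^ k) ≤ C * c ^ k := by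
  obtain ⟨c', ⟨hc'0, C, hC⟩, hlt⟩ := exists_lt_of_csInf_lt ⟨1, h.one_mem_growthSet hm⟩ hc
  have hC0 : 0 < C := by
    have h1 := hC 0
    have h2 := h.pos (pow_pos' hm 0)
    simp at h1 h2
    linarith
  refine ⟨C, hC0, fun k => (hC k).trans ?_⟩
  exact mul_le_mul_of_nonneg_left (pow_le_pow_left₀ hc'0.le hlt.le k) hC0.le

theorem reg_nonneg (m : ℕ) : 0 ≤ reg κ m := Real.sInf_nonneg (fun _ hc => hc.1.le)

theorem reg_pow_le (h : RawCost i κ) {m : ℕ} (hm : 1 ≤ m) {k : ℕ} (hk : 1 ≤ k) :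
    (reg κ m) ^ k ≤ κ (m ^ k) := by
  have hpos := h.pos (pow_pos' hm k)
  have hk0 : k ≠ 0 := by omega
  set c := (κ (m ^ k)) ^ ((k : ℝ)⁻¹) with hc
  have hc0 : 0 < c := Real.rpow_pos_of_pos hpos _
  have hck : c ^ k = κ (m ^ k) := Real.rpow_inv_natCast_pow hpos.le hk0
  have h1 : reg κ m ≤ c := csInf_le (growthSet_bdd m) (h.mem_growthSet hm hk hc0 hck.ge)
  calc (reg κ m) ^ k ≤ c ^ k := pow_le_pow_left₀ (reg_nonneg m) h1 k
    _ = _ := hck

/-- The principle for upper bounds. -/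
theorem reg_le (h : RawCost i κ) {m : ℕ} (hm : 1 ≤ m) {c C : ℝ} (hc : 0 ≤ c)
    (hb : ∀ k : ℕ, 1 ≤ k → κ (m ^ k) ≤ C * (k + 1) * c ^ k) : reg κ m ≤ c := by
  have hC : 0 ≤ C := by
    by_contra hcon
    push Not at hcon
    have h1 := hb 1 le_rfl
    have h2 := h.pos (pow_pos' hm 1)
    have h3 : C * ((1 : ℕ) + 1) * c ^ 1 ≤ 0 := by
      push_cast
      nlinarith
    linarith
  refine le_of_pow_le (C := max C 1) (reg_nonneg m) hc (fun k => ?_)
  rcases Nat.eq_zero_or_pos k with h0 | h0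
  · subst h0; simp
  · calc (reg κ m) ^ k ≤ κ (m ^ k) := h.reg_pow_le hm h0
      _ ≤ C * (k + 1) * c ^ k := hb k h0
      _ ≤ max C 1 * (k + 1) * c ^ k := by
        have := le_max_left C 1
        gcongr

theorem reg_lb (h : RawCost i κ) {m : ℕ} (hm : 1 ≤ m) : 1 ≤ reg κ m * (m : ℝ) ^ i := by
  have hm' : (0 : ℝ) < (m : ℝ) ^ i := by positivity
  have : 1 / (m : ℝ) ^ i ≤ reg κ m := by
    apply le_csInf ⟨1, h.one_mem_growthSet hm⟩
    rintro c ⟨hc0, C, hC⟩
    rw [div_le_iff₀ hm']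
    refine le_of_pow_le (C := C) zero_le_one (by positivity) (fun k => ?_)
    have h1 := h.lb (m ^ k) (pow_pos' hm k)
    have h2 := hC k
    have hC0 : 0 < C := by
      have h3 := hC 0
      have h4 := h.pos (pow_pos' hm 0)
      simp at h3 h4
      linarith
    push_cast at h1
    calc (1 : ℝ) ^ k = 1 := one_pow k
      _ ≤ κ (m ^ k) * ((m : ℝ) ^ k) ^ i := h1
      _ ≤ (C * c ^ k) * ((m : ℝ) ^ k) ^ i := mul_le_mul_of_nonneg_right h2 (by positivity)
      _ = C * (c * (m : ℝ) ^ i) ^ k := by ring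
      _ ≤ C * (k + 1) * (c * (m : ℝ) ^ i) ^ k := by
        have : (0 : ℝ) ≤ k := by positivity
        have h5 : C * 1 ≤ C * (k + 1) := mul_le_mul_of_nonneg_left (by linarith) hC0.le
        rw [mul_one] at h5
        exact mul_le_mul_of_nonneg_right h5 (by positivity)
  rw [div_le_iff₀ hm'] at this
  exact this

theorem reg_pos (h : RawCost i κ) {m : ℕ} (hm : 1 ≤ m) : 0 < reg κ m := by
  have h1 := h.reg_lb hm
  have hm' : (0 : ℝ) < (m : ℝ) ^ i := by positivity
  by_contra hcon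
  have : reg κ m * (m : ℝ) ^ i ≤ 0 := mul_nonpos_of_nonpos_of_nonneg (not_lt.mp hcon) hm'.le
  linarith

theorem reg_le_self (h : RawCost i κ) {m : ℕ} (hm : 1 ≤ m) : reg κ m ≤ κ m := by
  simpa using h.reg_pow_le hm (k := 1) le_rfl

theorem reg_mul (h : RawCost i κ) {a b : ℕ} (ha : 1 ≤ a) (hb : 1 ≤ b) :
    reg κ (a * b) ≤ reg κ a * reg κ b := by
  have h0a := reg_nonneg (κ := κ) a
  have h0b := reg_nonneg (κ := κ) b
  have key : ∀ x y, reg κ a < x → reg κ b < y → reg κ (a * b) ≤ x * y := by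
    intro x y hx hy
    obtain ⟨C, hC0, hC⟩ := h.bound_of_reg_lt ha hx
    obtain ⟨D, hD0, hD⟩ := h.bound_of_reg_lt hb hy
    refine h.reg_le (Nat.mul_pos ha hb) (C := C * D) (by nlinarith) (fun k _ => ?_)
    have h1 := h.mul (a ^ k) (b ^ k) (pow_pos' ha k) (pow_pos' hb k)
    have h2 := h.pos (pow_pos' hb k)
    have hx0 : 0 < x := by linarith
    have hy0 : 0 < y := by linarith
    calc κ ((a * b) ^ k) = κ (a ^ k * b ^ k) := by rw [mul_pow]
      _ ≤ κ (a ^ k) * κ (b ^ k) := h1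
      _ ≤ (C * x ^ k) * (D * y ^ k) := mul_le_mul (hC k) (hD k) h2.le (by positivity)
      _ = C * D * 1 * (x * y) ^ k := by rw [mul_pow]; ring
      _ ≤ C * D * (k + 1) * (x * y) ^ k := by
        have : (0 : ℝ) ≤ k := by positivity
        gcongr
        linarith
  have hlim : Filter.Tendsto (fun δ : ℝ => (reg κ a + δ) * (reg κ b + δ))
      (nhdsWithin 0 (Set.Ioi 0)) (nhds ((reg κ a + 0) * (reg κ b + 0))) := by
    have hcont : Continuous (fun δ : ℝ => (reg κ a + δ) * (reg κ b + δ)) := by fun_prop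
    exact (hcont.tendsto 0).mono_left nhdsWithin_le_nhds
  have h3 := ge_of_tendsto hlim (Filter.eventually_of_mem self_mem_nhdsWithin (fun δ hδ =>
    key (reg κ a + δ) (reg κ b + δ) (lt_add_of_pos_right _ hδ) (lt_add_of_pos_right _ hδ)))
  simpa using h3

theorem reg_pow (h : RawCost i κ) {m : ℕ} (hm : 1 ≤ m) (j : ℕ) :
    reg κ (m ^ j) = (reg κ m) ^ j := by
  rcases Nat.eq_zero_or_pos j with hj | hj
  · subst hj
    have h1 := h.reg_lb (m := 1) le_rfl
    have h2 := (h.reg_le_self (m := 1) le_rfl).trans (h.ub 1 le_rfl)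
    simp only [pow_zero]
    simp at h1
    linarith
  apply le_antisymm
  · -- `≤`
    have h0 := reg_nonneg (κ := κ) m
    have key : ∀ x, reg κ m < x → reg κ (m ^ j) ≤ x ^ j := by
      intro x hx
      have hx0 : 0 < x := by linarith
      obtain ⟨C, hC0, hC⟩ := h.bound_of_reg_lt hm hx
      refine h.reg_le (pow_pos' hm j) (C := C) (by positivity) (fun k _ => ?_)
      calc κ ((m ^ j) ^ k) = κ (m ^ (j * k)) := by rw [pow_mul]
        _ ≤ C * x ^ (j * k) := hC _
        _ = C * 1 * (x ^ j) ^ k := by rw [pow_mul]; ring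
        _ ≤ C * (k + 1) * (x ^ j) ^ k := by
          have : (0 : ℝ) ≤ k := by positivity
          gcongr
          linarith
    have hlim : Filter.Tendsto (fun δ : ℝ => (reg κ m + δ) ^ j)
        (nhdsWithin 0 (Set.Ioi 0)) (nhds ((reg κ m + 0) ^ j)) := by
      have hcont : Continuous (fun δ : ℝ => (reg κ m + δ) ^ j) := by fun_prop
      exact (hcont.tendsto 0).mono_left nhdsWithin_le_nhds
    have h3 := ge_of_tendsto hlim (Filter.eventually_of_mem self_mem_nhdsWithin (fun δ hδ =>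
      key (reg κ m + δ) (lt_add_of_pos_right _ hδ)))
    simpa using h3
  · -- `≥`
    refine le_of_forall_gt_imp_ge_of_dense (fun x hx => ?_)
    have h0 := reg_nonneg (κ := κ) (m ^ j)
    have hx0 : 0 < x := by linarith
    obtain ⟨C, hC0, hC⟩ := h.bound_of_reg_lt (pow_pos' hm j) hx
    refine le_of_pow_le (C := max C 1) (pow_nonneg (reg_nonneg m) j) hx0.le (fun k => ?_)
    rcases Nat.eq_zero_or_pos k with hk0 | hk0
    · subst hk0; simp
    · have h1 := h.reg_pow_le hm (k := j * k) (Nat.mul_pos hj hk0)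
      calc ((reg κ m) ^ j) ^ k = (reg κ m) ^ (j * k) := (pow_mul _ _ _).symm
        _ ≤ κ (m ^ (j * k)) := h1
        _ = κ ((m ^ j) ^ k) := by rw [pow_mul]
        _ ≤ C * x ^ k := hC k
        _ = C * 1 * x ^ k := by ring
        _ ≤ max C 1 * (k + 1) * x ^ k := by
          have : (0 : ℝ) ≤ k := by positivity
          have h2 := le_max_left C 1
          gcongr
          linarith

theorem sum_le (h : RawCost i κ) {α : Type*} (s : Finset α) (hs : s.Nonempty) (g : α → ℕ)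
    (hg : ∀ a ∈ s, 1 ≤ g a) : κ (∑ a ∈ s, g a) ≤ ∑ a ∈ s, κ (g a) := by
  classical
  have h1 : 1 ≤ ∑ a ∈ s, g a ∧ κ (∑ a ∈ s, g a) ≤ ∑ a ∈ s, κ (g a) := by
    induction hs using Finset.Nonempty.cons_induction with
    | singleton a => simpa using hg a (by simp)
    | cons a s ha hs ih =>
      have h2 := ih (fun b hb => hg b (Finset.mem_cons_of_mem hb))
      have h3 := hg a (Finset.mem_cons_self a s)
      rw [Finset.sum_cons, Finset.sum_cons]
      refine ⟨by omega, ?_⟩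
      exact (h.add _ _ h3 h2.1).trans (add_le_add le_rfl h2.2)
  exact h1.2

theorem reg_add (h : RawCost i κ) {a b : ℕ} (ha : 1 ≤ a) (hb : 1 ≤ b) {c : ℝ}
    (hca : reg κ a ≤ c) (hcb : reg κ b ≤ c) : reg κ (a + b) ≤ c := by
  refine le_of_forall_gt_imp_ge_of_dense (fun x hx => ?_)
  have h0 := reg_nonneg (κ := κ) a
  have hx0 : 0 < x := by linarith
  obtain ⟨C, hC0, hC⟩ := h.bound_of_reg_lt ha (lt_of_le_of_lt hca hx)
  obtain ⟨D, hD0, hD⟩ := h.bound_of_reg_lt hb (lt_of_le_of_lt hcb hx)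
  refine h.reg_le (by omega) (C := C * D) hx0.le (fun k _ => ?_)
  rw [add_pow]
  have h1 : ∀ j ∈ Finset.range (k + 1), 1 ≤ a ^ j * b ^ (k - j) * k.choose j := by
    intro j hj
    have hjk : j ≤ k := by have := Finset.mem_range.mp hj; omega
    exact Nat.mul_pos (Nat.mul_pos (pow_pos' ha j) (pow_pos' hb _)) (Nat.choose_pos hjk)
  have h2 : ∀ j ∈ Finset.range (k + 1), κ (a ^ j * b ^ (k - j) * k.choose j)
      ≤ C * D * x ^ k := by
    intro j hj
    have hjk : j ≤ k := by have := Finset.mem_range.mp hj; omega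
    have hab : 1 ≤ a ^ j * b ^ (k - j) := Nat.mul_pos (pow_pos' ha j) (pow_pos' hb _)
    have h3 := h.mul _ _ hab (Nat.choose_pos hjk)
    have h4 := h.ub _ (Nat.choose_pos hjk)
    have h5 := h.pos hab
    have h6 := h.mul _ _ (pow_pos' ha j) (pow_pos' hb (k - j))
    have h7 := h.pos (pow_pos' hb (k - j))
    calc κ (a ^ j * b ^ (k - j) * k.choose j)
        ≤ κ (a ^ j * b ^ (k - j)) * κ (k.choose j) := h3
      _ ≤ κ (a ^ j * b ^ (k - j)) * 1 := mul_le_mul_of_nonneg_left h4 h5.le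
      _ = κ (a ^ j * b ^ (k - j)) := mul_one _
      _ ≤ κ (a ^ j) * κ (b ^ (k - j)) := h6
      _ ≤ (C * x ^ j) * (D * x ^ (k - j)) := mul_le_mul (hC j) (hD _) h7.le (by positivity)
      _ = C * D * (x ^ j * x ^ (k - j)) := by ring
      _ = C * D * x ^ k := by rw [← pow_add, Nat.add_sub_cancel' hjk]
  calc κ (∑ j ∈ Finset.range (k + 1), a ^ j * b ^ (k - j) * k.choose j)
      ≤ ∑ j ∈ Finset.range (k + 1), κ (a ^ j * b ^ (k - j) * k.choose j) :=
        h.sum_le _ (by simp) _ h1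
    _ ≤ ∑ _j ∈ Finset.range (k + 1), C * D * x ^ k := Finset.sum_le_sum h2
    _ = C * D * (k + 1) * x ^ k := by
      rw [Finset.sum_const, Finset.card_range, nsmul_eq_mul]
      push_cast
      ring

/-- The regularised cost is regular. -/
theorem regCost (h : RawCost i κ) : RegCost (reg κ) where
  nonneg m _ := reg_nonneg m
  ub _ hm := (h.reg_le_self hm).trans (h.ub _ hm)
  mul _ _ ha hb := h.reg_mul ha hb
  add _ _ _ ha hb hca hcb := h.reg_add ha hb hca hcb

/-- The system inequality for the regularised cost. -/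
theorem reg_system (h : RawCost i κ) {r n : ℕ} {d : Fin r → ℕ} (hs : SysIneq n d κ) :
    SysIneq n d (reg κ) := by
  intro m m' hm' hdm hm
  -- the claim for `ρ j > reg κ (m' j)`
  have key : ∀ ρ : Fin r → ℝ, (∀ j, reg κ (m' j) < ρ j) → (n : ℝ) * reg κ m ≤ ∑ j, ρ j := by
    intro ρ hρ
    have hρ0 : ∀ j, 0 < ρ j := fun j => lt_of_le_of_lt (reg_nonneg _) (hρ j)
    choose C hC0 hC using fun j => h.bound_of_reg_lt (hm' j) (hρ j)
    have hprod1 : ∀ a : Fin r → ℕ, 1 ≤ ∏ j, m' j ^ a j := fun a =>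
      Nat.succ_le_of_lt (Finset.prod_pos (fun j _ => Nat.lt_of_succ_le (pow_pos' (hm' j) _)))
    have hbase : ∀ a : Fin r → ℕ, κ (∏ j, m' j ^ a j) ≤ (∏ j, C j) * ∏ j, ρ j ^ a j := by
      intro a
      have h1 : ∀ s : Finset (Fin r), κ (∏ j ∈ s, m' j ^ a j) ≤ ∏ j ∈ s, κ (m' j ^ a j) := by
        intro s
        induction s using Finset.induction_on with
        | empty => simpa using h.ub 1 le_rfl
        | insert j s hj ih =>
          rw [Finset.prod_insert hj, Finset.prod_insert hj]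
          refine (h.mul _ _ (pow_pos' (hm' j) _)
            (Nat.succ_le_of_lt (Finset.prod_pos
              (fun k _ => Nat.lt_of_succ_le (pow_pos' (hm' k) _))))).trans ?_
          exact mul_le_mul_of_nonneg_left ih (h.pos (pow_pos' (hm' j) _)).le
      calc κ (∏ j, m' j ^ a j) ≤ ∏ j, κ (m' j ^ a j) := h1 Finset.univ
        _ ≤ ∏ j, (C j * ρ j ^ a j) :=
          Finset.prod_le_prod (fun j _ => (h.pos (pow_pos' (hm' j) _)).le) (fun j _ => hC j _)
        _ = _ := Finset.prod_mul_distrib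
    set D := ∏ j, C j with hD
    have hD0 : 0 < D := Finset.prod_pos (fun j _ => hC0 j)
    set S := ∑ j, ρ j with hS
    have hS0 : 0 ≤ S := Finset.sum_nonneg (fun j _ => (hρ0 j).le)
    have hind : ∀ k : ℕ, ∀ a : Fin r → ℕ,
        (n : ℝ) ^ k * κ (m ^ k * ∏ j, m' j ^ a j) ≤ D * S ^ k * ∏ j, ρ j ^ a j := by
      intro k
      induction k with
      | zero => intro a; simpa using hbase a
      | succ k ih =>
        intro a
        have hx1 : 1 ≤ m ^ k * ∏ j, m' j ^ a j := Nat.mul_pos (pow_pos' hm k) (hprod1 a)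
        have h1 := hs (m * (m ^ k * ∏ j, m' j ^ a j)) (fun l => m' l * (m ^ k * ∏ j, m' j ^ a j))
          (fun l => Nat.mul_pos (hm' l) hx1) (fun l => by rw [← mul_assoc, hdm l])
          (Nat.mul_pos hm hx1)
        have h2 : ∀ l, m' l * (m ^ k * ∏ j, m' j ^ a j)
            = m ^ k * ∏ j, m' j ^ (Function.update a l (a l + 1)) j := by
          intro l
          have h3 : ∏ j, m' j ^ (Function.update a l (a l + 1)) j = m' l * ∏ j, m' j ^ a j := by
            rw [← Finset.mul_prod_erase Finset.univ _ (Finset.mem_univ l),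
              ← Finset.mul_prod_erase Finset.univ (fun j => m' j ^ a j) (Finset.mem_univ l)]
            have h4 : ∏ j ∈ Finset.univ.erase l, m' j ^ (Function.update a l (a l + 1)) j
                = ∏ j ∈ Finset.univ.erase l, m' j ^ a j :=
              Finset.prod_congr rfl (fun j hj => by
                rw [Function.update_of_ne (Finset.ne_of_mem_erase hj)])
            rw [h4, Function.update_self]
            ring
          rw [h3]; ring
        have h5 : ∀ l, ∏ j, ρ j ^ (Function.update a l (a l + 1)) j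
            = ρ l * ∏ j, ρ j ^ a j := by
          intro l
          rw [← Finset.mul_prod_erase Finset.univ _ (Finset.mem_univ l),
            ← Finset.mul_prod_erase Finset.univ (fun j => ρ j ^ a j) (Finset.mem_univ l)]
          have h4 : ∏ j ∈ Finset.univ.erase l, ρ j ^ (Function.update a l (a l + 1)) j
              = ∏ j ∈ Finset.univ.erase l, ρ j ^ a j :=
            Finset.prod_congr rfl (fun j hj => by
              rw [Function.update_of_ne (Finset.ne_of_mem_erase hj)])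
          rw [h4, Function.update_self]
          ring
        have hnk : (0 : ℝ) ≤ (n : ℝ) ^ k := by positivity
        calc (n : ℝ) ^ (k + 1) * κ (m ^ (k + 1) * ∏ j, m' j ^ a j)
            = (n : ℝ) ^ k * ((n : ℝ) * κ (m * (m ^ k * ∏ j, m' j ^ a j))) := by
              rw [pow_succ m k, mul_comm (m ^ k) m, mul_assoc m]; ring
          _ ≤ (n : ℝ) ^ k * ∑ l, κ (m' l * (m ^ k * ∏ j, m' j ^ a j)) :=
              mul_le_mul_of_nonneg_left h1 hnk
          _ = ∑ l, (n : ℝ) ^ k * κ (m ^ k * ∏ j, m' j ^ (Function.update a l (a l + 1)) j) := by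
              rw [Finset.mul_sum]
              exact Finset.sum_congr rfl (fun l _ => by rw [h2 l])
          _ ≤ ∑ l, D * S ^ k * ∏ j, ρ j ^ (Function.update a l (a l + 1)) j :=
              Finset.sum_le_sum (fun l _ => ih _)
          _ = ∑ l, D * S ^ k * (ρ l * ∏ j, ρ j ^ a j) :=
              Finset.sum_congr rfl (fun l _ => by rw [h5 l])
          _ = D * S ^ (k + 1) * ∏ j, ρ j ^ a j := by
              rw [← Finset.mul_sum, ← Finset.sum_mul, ← hS]; ring
    refine le_of_pow_le (C := max D 1) (mul_nonneg (by positivity) (reg_nonneg m)) hS0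
      (fun k => ?_)
    rcases Nat.eq_zero_or_pos k with hk0 | hk0
    · subst hk0; simp
    · have h1 := hind k (fun _ => 0)
      simp only [pow_zero, Finset.prod_const_one, mul_one] at h1
      have h2 := h.reg_pow_le hm (k := k) hk0
      have hnk : (0 : ℝ) ≤ (n : ℝ) ^ k := by positivity
      calc ((n : ℝ) * reg κ m) ^ k = (n : ℝ) ^ k * (reg κ m) ^ k := mul_pow _ _ _
        _ ≤ (n : ℝ) ^ k * κ (m ^ k) := mul_le_mul_of_nonneg_left h2 hnk
        _ ≤ D * S ^ k := h1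
        _ = D * 1 * S ^ k := by ring
        _ ≤ max D 1 * (k + 1) * S ^ k := by
          have : (0 : ℝ) ≤ k := by positivity
          have h2 := le_max_left D 1
          gcongr
          linarith
  have hlim : Filter.Tendsto (fun δ : ℝ => ∑ j, (reg κ (m' j) + δ))
      (nhdsWithin 0 (Set.Ioi 0)) (nhds (∑ j, (reg κ (m' j) + 0))) := by
    have hcont : Continuous (fun δ : ℝ => ∑ j, (reg κ (m' j) + δ)) := by fun_prop
    exact (hcont.tendsto 0).mono_left nhdsWithin_le_nhds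
  have h3 := ge_of_tendsto hlim (Filter.eventually_of_mem self_mem_nhdsWithin (fun δ hδ =>
    key (fun j => reg κ (m' j) + δ) (fun j => lt_add_of_pos_right _ hδ)))
  simpa using h3

end RawCost

end Pool.Agent.Helper37.Ci
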